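import Mathlib
import Pool.Agent.Lib.MP_eb4995_an.Cv.NThree

/-!
Almost minimizers of the Rayleigh quotient almost solve the equation; weighted energy bounds.
-/

set_option linter.unusedSectionVars false

namespace Pool.Agent.Lib.MP_eb4995_an.Sl

open MeasureTheory Set Filter Topology Module Cv
open scoped ContDiff

theorem hold {α : Type} [MeasurableSpace α] {ν : Measure α} {f g : α → ℝ} {θ : ℝ} (h0 : 0 < θ)
    (h1 : θ < 1) (f0 : ∀ x, 0 ≤ f x) (g0 : ∀ x, 0 ≤ g x) (hf : Integrable f ν)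
    (hg : Integrable g ν) :
    ∫ x, f x ^ (1 - θ) * g x ^ θ ∂ν ≤ (∫ x, f x ∂ν) ^ (1 - θ) * (∫ x, g x ∂ν) ^ θ := by
  have key : ∀ {f : α → ℝ} {s : ℝ}, 0 < s → (∀ x, 0 ≤ f x) → Integrable f ν →
      MemLp (fun x => f x ^ s) (ENNReal.ofReal s⁻¹) ν ∧ ∀ x, (f x ^ s) ^ s⁻¹ = f x := by
    intro f s hs f0 hf
    have e : ∀ x, (f x ^ s) ^ s⁻¹ = f x := fun x => Real.rpow_rpow_inv (f0 x) hs.ne'
    have m := hf.1.aemeasurable
    refine ⟨(integrable_norm_rpow_iff (AEMeasurable.aestronglyMeasurable (by fun_prop))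
      (by simpa using hs) ENNReal.ofReal_ne_top).1 (hf.congr (Eventually.of_forall fun x => ?_)), e⟩
    dsimp only
    rw [ENNReal.toReal_ofReal (by positivity), Real.norm_of_nonneg (Real.rpow_nonneg (f0 x) _), e]
  obtain ⟨a1, a2⟩ := key (sub_pos.2 h1) f0 hf
  obtain ⟨b1, b2⟩ := key h0 g0 hg
  have := integral_mul_le_Lp_mul_Lq_of_nonneg
    (Real.HolderConjugate.one_sub_inv_inv h0 h1)
    (Eventually.of_forall fun x => Real.rpow_nonneg (f0 x) _)
    (Eventually.of_forall fun x => Real.rpow_nonneg (g0 x) _) a1 b1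
  simpa only [a2, b2, one_div, inv_inv] using this

theorem pow_mul_self {q : ℝ} (hq : 2 < q) (x : ℝ) : |x| ^ (q - 2) * x * x = |x| ^ q := by
  have := Real.rpow_add' (abs_nonneg x) (y := q - 2) (z := 2) (by linarith)
  rw [sub_add_cancel, Real.rpow_two, sq_abs] at this
  rw [this]; ring

theorem dual_le {α : Type} [MeasurableSpace α] {ν : Measure α} {q : ℝ} (hq : 2 < q)
    {u w : α → ℝ} (hu : MemLp u (ENNReal.ofReal q) ν) (hw : MemLp w (ENNReal.ofReal q) ν)
    (h1 : lqNorm ν q u = 1) : ∫ x, |u x| ^ (q - 2) * u x * w x ∂ν ≤ lqNorm ν q w := by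
  have q0 : 0 < q := by linarith
  have t1 : 1 / q < 1 := by rw [div_lt_one q0]; linarith
  have h := hold (θ := 1 / q) (by positivity) t1 (fun x => by positivity) (fun x => by positivity)
    (integrable_rpow q0 hu) (integrable_rpow q0 hw)
  rw [← lqNorm_rpow q0 u, h1, Real.one_rpow, Real.one_rpow, one_mul] at h
  have e : ∀ x, (|u x| ^ q) ^ (1 - 1 / q) * (|w x| ^ q) ^ (1 / q) =
      ‖|u x| ^ (q - 2) * u x * w x‖ := fun x => by
    have e1 := Real.rpow_add' (abs_nonneg (u x)) (y := q - 2) (z := 1) (by linarith)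
    rw [← Real.rpow_mul (abs_nonneg _), ← Real.rpow_mul (abs_nonneg _), mul_one_div_cancel q0.ne',
      Real.rpow_one, show q * (1 - 1 / q) = q - 2 + 1 by field_simp; ring, e1, Real.rpow_one,
      norm_mul, norm_mul, Real.norm_of_nonneg (Real.rpow_nonneg (abs_nonneg _) _)]
    rfl
  simp only [e] at h
  exact (Real.le_norm_self _).trans ((norm_integral_le_integral_norm _).trans h)

variable {E : Type} [NormedAddCommGroup E] [InnerProductSpace ℝ E] [CompleteSpace E]
  [MeasurableSpace E] [BorelSpace E] [FiniteDimensional ℝ E]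
  {μ : Measure E} [μ.IsAddHaarMeasure] {S B : Set E} {q m κ : ℝ}

/-- The standing assumptions. -/
structure Base (μ : Measure E) (S : Set E) (q m κ : ℝ) : Prop where
  hN : 2 ≤ finrank ℝ E
  hq : 2 < q
  hq' : ((finrank ℝ E : ℝ) - 2) * q < 2 * finrank ℝ E
  good : Good μ S q m
  m0 : 0 < m
  κ0 : 0 < κ
  poin : ∀ φ, IsTest S φ → κ ^ 2 * ∫ x, φ x ^ 2 ∂μ ≤ dir μ φ

theorem good_mono (h : Good μ S q m) (hB : B ⊆ S) : Good μ B q m := fun φ hφ => h φ (hφ.mono hB)

theorem fact_q (hq : 2 < q) : Fact (1 ≤ ENNReal.ofReal q) :=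
  ⟨by rw [← ENNReal.ofReal_one]; exact ENNReal.ofReal_le_ofReal (by linarith)⟩

theorem Base.memLp (h : Base μ S q m κ) (hb : Bornology.IsBounded B) {p : V μ} (hp : p ∈ W μ B) :
    MemLp p.1 (ENNReal.ofReal q) μ := by
  obtain ⟨C, -, hC⟩ := sobolev_W (μ := μ) hb h.hN h.hq.le h.hq'
  exact (hC p hp).1

theorem Base.good_W (h : Base μ S q m κ) (hb : Bornology.IsBounded B) {m' : ℝ}
    (hm : Good μ B q m') {p : V μ} (hp : p ∈ W μ B) : m' * lqNorm μ q p.1 ^ 2 ≤ ‖p.2‖ ^ 2 := by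
  have := fact_q h.hq
  have q0 : 0 < q := by linarith [h.hq]
  obtain ⟨J, hJ⟩ := exists_embedding (μ := μ) hb h.hN h.hq.le h.hq'
  have hn : ∀ p : W μ B, lqNorm μ q (p : V μ).1 = ‖J p‖ := fun p => by
    rw [norm_eq_lqNorm q0, lqNorm_congr (hJ p)]
  refine W_induction (P := fun p : W μ B => m' * lqNorm μ q (p : V μ).1 ^ 2 ≤ ‖(p : V μ).2‖ ^ 2)
    ?_ (fun p φ hφ hp => ?_) ⟨p, hp⟩
  · simp only [hn]
    exact isClosed_le (by fun_prop) (by fun_prop)
  · rw [hp.norm_sq, lqNorm_congr hp.1]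
    exact hm φ hφ

theorem Base.el_W (h : Base μ S q m κ) (hb : Bornology.IsBounded B) (hB : B ⊆ S) {p v : V μ}
    (hp : p ∈ W μ B) (hv : v ∈ W μ B) (h1 : lqNorm μ q p.1 = 1) :
    (m * ∫ x, |p.1 x| ^ (q - 2) * p.1 x * v.1 x ∂μ - inner ℝ p.2 v.2) ^ 2 ≤
      (‖p.2‖ ^ 2 - m) * ‖v.2‖ ^ 2 := by
  have hq := h.hq
  have mp := h.memLp hb hp
  have mv := h.memLp hb hv
  have key : ∀ t : ℝ, 0 ≤ ‖v.2‖ ^ 2 * (t * t) +
      2 * (inner ℝ p.2 v.2 - m * ∫ x, |p.1 x| ^ (q - 2) * p.1 x * v.1 x ∂μ) * t +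
        (‖p.2‖ ^ 2 - m) := by
    intro t
    have hw := (W μ B).add_mem hp ((W μ B).smul_mem t hv)
    have a1 := h.good_W hb (good_mono h.good hB) hw
    have a2 := dual_le hq mp (h.memLp hb hw) h1
    have a3 : ∫ x, |p.1 x| ^ (q - 2) * p.1 x * (p + t • v).1 x ∂μ =
        1 + t * ∫ x, |p.1 x| ^ (q - 2) * p.1 x * v.1 x ∂μ := by
      have b1 := mass_of_lq (by linarith) h1
      unfold mass at b1
      rw [← b1, ← integral_const_mul, ← integral_add (integrable_rpow (by linarith) mp)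
        ((integrable_dual hq.le mp mv).const_mul t)]
      refine integral_congr_ae ?_
      filter_upwards [Lp.coeFn_add p.1 (t • v.1), Lp.coeFn_smul t v.1] with x e1 e2
      rw [Prod.fst_add, Prod.smul_fst, e1, Pi.add_apply, e2, Pi.smul_apply, smul_eq_mul,
        ← pow_mul_self hq]
      ring
    rw [a3] at a2
    rw [Prod.snd_add, Prod.smul_snd, norm_add_sq_real, inner_smul_right, norm_smul, mul_pow,
      Real.norm_eq_abs, sq_abs] at a1
    generalize lqNorm μ q _ = N at a1 a2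
    generalize (∫ x, |p.1 x| ^ (q - 2) * p.1 x * v.1 x ∂μ) = J at a2 ⊢
    have a4 : 1 + 2 * (t * J) ≤ N ^ 2 := by nlinarith [sq_nonneg (N - 1)]
    linarith [mul_le_mul_of_nonneg_left a4 h.m0.le]
  have := discrim_le_zero key
  rw [discrim] at this
  linarith

theorem rep_inner {p v : V μ} {a b : E → ℝ} (hp : Rep p a) (hv : Rep v b) :
    inner ℝ p.2 v.2 = ∫ x, inner ℝ (gradient a x) (gradient b x) ∂μ := by
  rw [L2.inner_def]
  refine integral_congr_ae ?_
  filter_upwards [hp.2, hv.2] with x e1 e2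
  rw [e1, e2]

theorem Base.el (h : Base μ S q m κ) {a b : E → ℝ} (ha : IsTest S a) (hb : IsTest S b)
    (h1 : lqNorm μ q a = 1) :
    (m * ∫ x, |a x| ^ (q - 2) * a x * b x ∂μ - ∫ x, inner ℝ (gradient a x) (gradient b x) ∂μ) ^ 2 ≤
      (dir μ a - m) * dir μ b := by
  have ha' : IsTest (tsupport a ∪ tsupport b) a := ⟨ha.1, ha.2.1, subset_union_left⟩
  have hb' : IsTest (tsupport a ∪ tsupport b) b := ⟨hb.1, hb.2.1, subset_union_right⟩
  obtain ⟨p, hp⟩ := ha'.exists_rep μ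
  obtain ⟨v, hv⟩ := hb'.exists_rep μ
  have := h.el_W (ha.2.1.isCompact.union hb.2.1.isCompact).isBounded
    (union_subset ha.2.2 hb.2.2) p.2 v.2 ((lqNorm_congr hp.1).trans h1)
  rw [rep_inner hp hv, hp.norm_sq, hv.norm_sq] at this
  refine le_of_eq_of_le ?_ this
  congr 3
  refine integral_congr_ae ?_
  filter_upwards [hp.1, hv.1] with x e1 e2
  rw [e1, e2]

theorem int_cc {f g : E → ℝ} (hf : Continuous f) (hc : HasCompactSupport f) (hg : Continuous g) :
    Integrable (fun x => f x * g x) μ :=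
  (hf.mul hg).integrable_of_hasCompactSupport hc.mul_right

theorem test_sq {a : E → ℝ} (ha : IsTest S a) : Integrable (fun x => a x ^ 2) μ :=
  (ha.memLp 2).integrable_sq

theorem test_pow {a : E → ℝ} (hq : 0 < q) (ha : IsTest S a) : Integrable (fun x => |a x| ^ q) μ :=
  integrable_rpow hq (ha.memLp _)

theorem test_sq_mul {a g : E → ℝ} (ha : IsTest S a) (hg : Continuous g) :
    Integrable (fun x => a x ^ 2 * g x) μ :=
  int_cc (ha.continuous.pow 2) (ha.2.1.comp_left (g := fun t : ℝ => t ^ 2) (by simp)) hg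

theorem test_inner {a b : E → ℝ} (ha : IsTest S a) (hb : ContDiff ℝ ∞ b) :
    Integrable (fun x => inner ℝ (gradient a x) (gradient b x)) μ := by
  refine (ha.continuous_gradient.inner (continuous_grad hb)).integrable_of_hasCompactSupport
    (ha.hasCompactSupport_gradient.mono fun x hx h => hx ?_)
  simp [h]

theorem dir_mul {a w : E → ℝ} (ha : IsTest S a) (hw : ContDiff ℝ ∞ w) :
    dir μ (fun x => w x * a x) =
      ∫ x, inner ℝ (gradient a x) (gradient (fun x => w x * (w x * a x)) x) ∂μ +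
        ∫ x, a x ^ 2 * ‖gradient w x‖ ^ 2 ∂μ := by
  have dw := hw.differentiable (by simp)
  rw [← integral_add (test_inner ha (hw.mul (hw.mul ha.1)))
    (test_sq_mul (g := fun x => ‖gradient w x‖ ^ 2) ha ((continuous_grad hw).norm.pow 2))]
  refine integral_congr_ae (Eventually.of_forall fun x => ?_)
  dsimp only
  rw [gradient_mul' dw (ha.mul_left hw).differentiable, gradient_mul' dw ha.differentiable,
    norm_add_sq_real]
  simp only [inner_add_right, inner_smul_right, inner_smul_left, norm_smul, mul_pow,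
    Real.norm_eq_abs, sq_abs, real_inner_self_eq_norm_sq, conj_trivial]
  ring

theorem Base.sq_le (h : Base μ S q m κ) {a : E → ℝ} (ha : IsTest S a) :
    ∫ x, a x ^ 2 ∂μ ≤ dir μ a / κ ^ 2 := by
  rw [le_div_iff₀' (by have := h.κ0; positivity)]
  exact h.poin a ha

theorem Base.dir_mul_le (h : Base μ S q m κ) {z w : E → ℝ} (hz : IsTest S z)
    (hw : ContDiff ℝ ∞ w) {K : ℝ} (h1 : ∀ x, |w x| ≤ K) (h2 : ∀ x, ‖gradient w x‖ ≤ K) :
    dir μ (fun x => w x * z x) ≤ 2 * K ^ 2 * (1 + 1 / κ ^ 2) * dir μ z := by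
  have i1 := hz.integrable_sq_gradient (μ := μ)
  have i2 := test_sq (μ := μ) hz
  have h3 : dir μ (fun x => w x * z x) ≤
      ∫ x, 2 * K ^ 2 * (‖gradient z x‖ ^ 2 + z x ^ 2) ∂μ := by
    refine integral_mono (hz.mul_left hw).integrable_sq_gradient ((i1.add i2).const_mul _)
      fun x => ?_
    dsimp only
    rw [gradient_mul' (hw.differentiable (by simp)) hz.differentiable]
    have a1 : ‖w x • gradient z x + z x • gradient w x‖ ≤ K * ‖gradient z x‖ + |z x| * K := by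
      refine (norm_add_le _ _).trans ?_
      rw [norm_smul, norm_smul, Real.norm_eq_abs, Real.norm_eq_abs]
      gcongr
      exacts [h1 x, h2 x]
    refine (pow_le_pow_left₀ (norm_nonneg _) a1 2).trans ?_
    rw [← sq_abs (z x)]
    nlinarith [sq_nonneg (K * ‖gradient z x‖ - |z x| * K)]
  rw [integral_const_mul, integral_add i1 i2] at h3
  refine h3.trans ?_
  rw [mul_assoc (2 * K ^ 2)]
  refine mul_le_mul_of_nonneg_left ?_ (by positivity)
  have := h.sq_le hz
  unfold dir at this ⊢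
  rw [add_mul, one_mul, one_div, inv_mul_eq_div]
  linarith

theorem weighted_hold (hq : 2 < q) {a z : E → ℝ} (ha : IsTest S a) (hz : IsTest S z) {U : Set E}
    (hU : MeasurableSet U) (h0 : ∀ x ∉ U, z x = 0) {M : ℝ} (hM : ∫ x in U, |a x| ^ q ∂μ ≤ M) :
    ∫ x, |a x| ^ (q - 2) * z x ^ 2 ∂μ ≤ M ^ (1 - 2 / q) * lqNorm μ q z ^ 2 := by
  have q0 : 0 < q := by linarith
  have t1 : 2 / q < 1 := by rw [div_lt_one q0]; linarith
  have h := hold (ν := μ) (θ := 2 / q) (f := U.indicator fun x => |a x| ^ q)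
    (g := fun x => |z x| ^ q) (by positivity) t1
    (fun x => indicator_nonneg (fun _ _ => by positivity) x) (fun x => by positivity)
    ((test_pow q0 ha).indicator hU) (test_pow q0 hz)
  rw [integral_indicator hU, ← lqNorm_rpow q0 z, ← Real.rpow_mul (lqNorm_nonneg _),
    mul_div_cancel₀ _ q0.ne', Real.rpow_two] at h
  refine le_trans (le_of_eq (integral_congr_ae (Eventually.of_forall fun x => ?_))) (h.trans ?_)
  · dsimp only
    rw [← Real.rpow_mul (abs_nonneg _), mul_div_cancel₀ _ q0.ne', Real.rpow_two, sq_abs]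
    by_cases hx : x ∈ U
    · rw [indicator_of_mem hx, ← Real.rpow_mul (abs_nonneg _),
        show q * (1 - 2 / q) = q - 2 by field_simp]
    · simp [h0 x hx]
  · exact mul_le_mul_of_nonneg_right (Real.rpow_le_rpow
      (integral_nonneg fun x => by positivity) hM (by linarith)) (sq_nonneg _)

theorem Base.weighted (h : Base μ S q m κ) {a w : E → ℝ} (ha : IsTest S a)
    (h1 : lqNorm μ q a = 1) {γ : ℝ} (hγ : dir μ a ≤ m + γ) (hw : ContDiff ℝ ∞ w) {K : ℝ}
    (w1 : ∀ x, |w x| ≤ K) (w2 : ∀ x, ‖gradient w x‖ ≤ K) {U : Set E} (hU : MeasurableSet U)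
    (h0 : ∀ x ∉ U, w x = 0) {M : ℝ} (hM : ∫ x in U, |a x| ^ q ∂μ ≤ M) {ε : ℝ} (hε : 0 < ε) :
    dir μ (fun x => w x * a x) ≤ M ^ (1 - 2 / q) * (m * lqNorm μ q (fun x => w x * a x) ^ 2) +
      ∫ x, a x ^ 2 * ‖gradient w x‖ ^ 2 ∂μ + ε * dir μ (fun x => w x * a x) +
        γ * (K ^ 2 * (1 + 1 / κ ^ 2)) / ε := by
  have hz := ha.mul_left hw
  have a1 := h.el ha (hz.mul_left hw) h1
  have a2 := h.dir_mul_le hz hw w1 w2
  have a3 := weighted_hold h.hq ha hz hU (fun x hx => by rw [h0 x hx, zero_mul]) hM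
  have a4 := dir_mul (μ := μ) ha hw
  have a5 : ∫ x, |a x| ^ (q - 2) * a x * (w x * (w x * a x)) ∂μ =
      ∫ x, |a x| ^ (q - 2) * (w x * a x) ^ 2 ∂μ :=
    integral_congr_ae (Eventually.of_forall fun x => by ring)
  have a6 := h.good a ha
  rw [h1, one_pow, mul_one] at a6
  have a7 := mul_le_mul (show dir μ a - m ≤ γ by linarith) a2 (dir_nonneg _ _) (by linarith)
  have a8 := mul_le_mul_of_nonneg_left a3 h.m0.le
  have D0 := dir_nonneg μ fun x => w x * a x
  have L0 : 0 ≤ γ * (K ^ 2 * (1 + 1 / κ ^ 2)) := mul_nonneg (by linarith) (by positivity)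
  rw [a5] at a1
  have a9 := a1.trans a7
  rw [show γ * (2 * K ^ 2 * (1 + 1 / κ ^ 2) * dir μ fun x => w x * a x) =
    2 * (γ * (K ^ 2 * (1 + 1 / κ ^ 2))) * dir μ fun x => w x * a x by ring] at a9
  generalize γ * (K ^ 2 * (1 + 1 / κ ^ 2)) = L at *
  generalize (dir μ fun x => w x * a x) = D at *
  have b1 : 2 * L * D ≤ (ε * D + L / ε) ^ 2 := by
    have : ε * D * (L / ε) = L * D := by field_simp
    nlinarith [sq_nonneg (ε * D), sq_nonneg (L / ε)]
  have b2 := (abs_le_of_sq_le_sq' (a9.trans b1) (by positivity)).1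
  linarith

end Pool.Agent.Lib.MP_eb4995_an.Sl
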