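import Mathlib
import Pool.Agent.Lib.MP_eb4995_an.Sl.EL

/-!
Concentration and exponential decay of almost minimizers.
-/

set_option linter.unusedSectionVars false

namespace Pool.Agent.Lib.MP_eb4995_an.Sl

open MeasureTheory Set Filter Topology Module Cv Real
open scoped ContDiff

theorem exists_B : ∃ B : ℝ, 1 ≤ B ∧ ∀ s, |deriv smoothTransition s| ≤ B := by
  have hc : Continuous (deriv smoothTransition) :=
    (smoothTransition.contDiff (n := 1)).continuous_deriv le_rfl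
  obtain ⟨B, hB⟩ := hc.bounded_above_of_compact_support
    (HasCompactSupport.intro (isCompact_Icc (a := 0) (b := 1)) fun s hs => by
      rw [mem_Icc, not_and_or, not_le, not_le] at hs
      exact hs.elim deriv_st_of_lt deriv_st_of_gt)
  exact ⟨max B 1, le_max_right _ _, fun s => (hB s).trans (le_max_left _ _)⟩

theorem st_diff : Differentiable ℝ smoothTransition :=
  (smoothTransition.contDiff (n := 1)).differentiable one_ne_zero

theorem st_abs (t : ℝ) : |smoothTransition t| ≤ 1 := by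
  rw [abs_of_nonneg (smoothTransition.nonneg t)]; exact smoothTransition.le_one t

theorem set_le_add {α : Type} [MeasurableSpace α] {ν : Measure α} {f : α → ℝ} (f0 : ∀ x, 0 ≤ f x)
    (hf : Integrable f ν) {U A B : Set α} (h : U ⊆ A ∪ B) :
    ∫ x in U, f x ∂ν ≤ ∫ x in A, f x ∂ν + ∫ x in B, f x ∂ν := by
  rw [← integral_add_measure hf.integrableOn hf.integrableOn]
  exact integral_mono_measure ((Measure.restrict_mono h le_rfl).trans
    (Measure.restrict_union_le A B)) (Eventually.of_forall f0)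
    (Integrable.add_measure hf.integrableOn hf.integrableOn)

variable {E : Type} [NormedAddCommGroup E] [InnerProductSpace ℝ E] [CompleteSpace E]
  [MeasurableSpace E] [BorelSpace E] [FiniteDimensional ℝ E]
  {μ : Measure E} [μ.IsAddHaarMeasure] {S : Set E} {q m κ : ℝ}

theorem norm_grad_comp {s : E → ℝ} (hs : ContDiff ℝ ∞ s) (h1 : ∀ x, ‖gradient s x‖ ≤ 1)
    {f : ℝ → ℝ} (hf : Differentiable ℝ f) (x : E) :
    ‖gradient (fun x => f (s x)) x‖ ≤ |deriv f (s x)| := by
  rw [gradient_comp' (hs.differentiable (by simp)) hf, norm_smul]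
  exact mul_le_of_le_one_right (abs_nonneg _) (h1 x)

theorem lin_smooth (e : E) (c : ℝ) : ContDiff ℝ ∞ fun x : E => inner ℝ e x - c :=
  (innerSL ℝ e).contDiff.sub contDiff_const

theorem lin_fderiv (e : E) (c : ℝ) (x : E) :
    HasFDerivAt (fun x : E => inner ℝ e x - c) (innerSL ℝ e) x :=
  (innerSL ℝ e).hasFDerivAt.sub_const c

theorem lin_grad {e : E} (he : ‖e‖ = 1) (c : ℝ) (x : E) :
    ‖gradient (fun x : E => inner ℝ e x - c) x‖ ≤ 1 := by
  rw [norm_gradient, (lin_fderiv e c x).fderiv, innerSL_apply_norm, he]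

theorem mass_one (hq : 0 < q) {a : E → ℝ} (h1 : lqNorm μ q a = 1) : ∫ x, |a x| ^ q ∂μ = 1 := by
  rw [← lqNorm_rpow hq, h1, one_rpow]

theorem Base.q0 (h : Base μ S q m κ) : 0 < q := by linarith [h.hq]

theorem Base.comp (h : Base μ S q m κ) {a : E → ℝ} (ha : IsTest S a) (h1 : lqNorm μ q a = 1)
    {γ : ℝ} (hγ : dir μ a ≤ m + γ) (γ1 : γ ≤ 1) {s : E → ℝ} (hs : ContDiff ℝ ∞ s)
    (hs1 : ∀ x, ‖gradient s x‖ ≤ 1) {f : ℝ → ℝ} (hf : ContDiff ℝ ∞ f) {K : ℝ}
    (f1 : ∀ t, |f t| ≤ K) (f2 : ∀ t, |deriv f t| ≤ K) (f0 : ∀ t ≤ 0, f t = 0) {M : ℝ}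
    (hM : ∫ x in {x | 0 < s x}, |a x| ^ q ∂μ ≤ M) {α β : ℝ} (α0 : 0 ≤ α) (β0 : 0 ≤ β)
    (f3 : ∀ t, deriv f t ^ 2 ≤ α * f t ^ 2 + β) {ε : ℝ} (hε : 0 < ε) :
    (1 - M ^ (1 - 2 / q) - α / κ ^ 2 - ε) * dir μ (fun x => f (s x) * a x) ≤
      β * ((m + 1) / κ ^ 2) + γ * (K ^ 2 * (1 + 1 / κ ^ 2)) / ε := by
  have df := hf.differentiable (by simp)
  have hw : ContDiff ℝ ∞ fun x => f (s x) := hf.comp hs
  have hz := ha.mul_left hw
  have a1 := h.weighted ha h1 hγ hw (fun x => f1 _)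
    (fun x => (norm_grad_comp hs hs1 df x).trans (f2 _))
    (isOpen_lt continuous_const hs.continuous).measurableSet
    (fun x hx => f0 _ (not_lt.1 hx)) hM hε
  have M0 : 0 ≤ M := (integral_nonneg fun x => by positivity).trans hM
  have a2 := mul_le_mul_of_nonneg_left (h.good _ hz) (rpow_nonneg M0 (1 - 2 / q))
  have i1 := (test_sq (μ := μ) hz).const_mul α
  have i2 := (test_sq (μ := μ) ha).const_mul β
  have a3 : ∫ x, a x ^ 2 * ‖gradient (fun x => f (s x)) x‖ ^ 2 ∂μ ≤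
      ∫ x, (α * (f (s x) * a x) ^ 2 + β * a x ^ 2) ∂μ := by
    refine integral_mono (test_sq_mul ha ((continuous_grad hw).norm.pow 2)) (i1.add i2) fun x => ?_
    have b1 := pow_le_pow_left₀ (norm_nonneg _) (norm_grad_comp hs hs1 df x) 2
    rw [sq_abs] at b1
    dsimp only
    linarith [mul_le_mul_of_nonneg_left (b1.trans (f3 _)) (sq_nonneg (a x))]
  rw [integral_add i1 i2, integral_const_mul, integral_const_mul] at a3
  have a4 := mul_le_mul_of_nonneg_left (h.sq_le hz) α0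
  have a5 := mul_le_mul_of_nonneg_left ((h.sq_le ha).trans
    (div_le_div_of_nonneg_right (show dir μ a ≤ m + 1 by linarith) (sq_nonneg κ))) β0
  rw [mul_div_assoc', mul_div_right_comm] at a4
  linarith

theorem median (hq : 0 < q) {a u : E → ℝ} (ha : IsTest S a) (h1 : lqNorm μ q a = 1)
    (hu : Continuous u) : ∃ c : ℝ, ∫ x in {x | 0 < u x - (c + 1)}, |a x| ^ q ∂μ ≤ 1 / 2 ∧
      ∫ x in {x | 0 < c - u x}, |a x| ^ q ∂μ ≤ 1 / 2 := by
  have i1 := test_pow (μ := μ) hq ha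
  have hm := mass_one hq h1
  have ca : Continuous fun x => |a x| ^ q := ha.continuous.abs.rpow_const fun _ => Or.inr hq.le
  have cs := smoothTransition.continuous
  have bd : ∀ c x, ‖|a x| ^ q * smoothTransition (u x - c)‖ ≤ |a x| ^ q := fun c x => by
    rw [norm_mul, norm_of_nonneg (by positivity)]
    exact mul_le_of_le_one_right (by positivity) (st_abs _)
  have i2 : ∀ c, Integrable (fun x => |a x| ^ q * smoothTransition (u x - c)) μ := fun c =>
    i1.mono' (Continuous.aestronglyMeasurable (by fun_prop)) (Eventually.of_forall (bd c))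
  have hc : Continuous fun c => ∫ x, |a x| ^ q * smoothTransition (u x - c) ∂μ :=
    continuous_of_dominated (fun c => (i2 c).1) (fun c => Eventually.of_forall (bd c)) i1
      (Eventually.of_forall fun x => by fun_prop)
  obtain ⟨R, hR⟩ := ha.2.1.isCompact.exists_bound_of_continuousOn hu.continuousOn
  have z : ∀ x ∉ tsupport a, |a x| ^ q = 0 := fun x hx => by
    rw [image_eq_zero_of_notMem_tsupport hx, abs_zero, zero_rpow hq.ne']
  have e0 : ∫ x, |a x| ^ q * smoothTransition (u x - R) ∂μ = 0 := by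
    refine integral_eq_zero_of_ae (Eventually.of_forall fun x => ?_)
    by_cases hx : x ∈ tsupport a
    · simp [smoothTransition.zero_of_nonpos (sub_nonpos.2 (abs_le.1 (hR x hx)).2)]
    · simp [z x hx]
  have e1 : ∫ x, |a x| ^ q * smoothTransition (u x - (-R - 1)) ∂μ = 1 := by
    refine Eq.trans (integral_congr_ae (Eventually.of_forall fun x => ?_)) hm
    dsimp only
    by_cases hx : x ∈ tsupport a
    · rw [smoothTransition.one_of_one_le (by linarith [(abs_le.1 (hR x hx)).1]), mul_one]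
    · rw [z x hx, zero_mul]
  obtain ⟨c, hc⟩ := intermediate_value_univ R (-R - 1) hc
    (show (1 / 2 : ℝ) ∈ Icc _ _ by rw [e0, e1]; constructor <;> norm_num)
  dsimp only at hc
  refine ⟨c, ?_, ?_⟩
  · rw [← hc, ← integral_indicator (isOpen_lt continuous_const (by fun_prop)).measurableSet]
    refine integral_mono (i1.indicator (isOpen_lt continuous_const (by fun_prop)).measurableSet)
      (i2 c) fun x => ?_
    by_cases hx : x ∈ {x | 0 < u x - (c + 1)}
    · have : 0 < u x - (c + 1) := hx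
      simp only [indicator_of_mem hx]
      rw [smoothTransition.one_of_one_le (by linarith), mul_one]
    · simp only [indicator_of_notMem hx]
      exact mul_nonneg (by positivity) (smoothTransition.nonneg _)
  · have e2 := integral_sub i1 (i2 c)
    rw [hm, hc] at e2
    rw [show (1 / 2 : ℝ) = 1 - 1 / 2 by norm_num, ← e2,
      ← integral_indicator (isOpen_lt continuous_const (by fun_prop)).measurableSet]
    refine integral_mono (i1.indicator (isOpen_lt continuous_const (by fun_prop)).measurableSet)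
      (i1.sub (i2 c)) fun x => ?_
    by_cases hx : x ∈ {x | 0 < c - u x}
    · have : 0 < c - u x := hx
      simp only [indicator_of_mem hx]
      rw [smoothTransition.zero_of_nonpos (by linarith), mul_zero, sub_zero]
    · simp only [indicator_of_notMem hx]
      exact sub_nonneg.2 ((le_norm_self _).trans (bd c x))

theorem Base.conc1 (h : Base μ S q m κ) {ε : ℝ} (hε : 0 < ε) :
    ∃ R γ : ℝ, 1 ≤ R ∧ 0 < γ ∧ γ ≤ 1 ∧ ∀ a, IsTest S a → lqNorm μ q a = 1 → dir μ a ≤ m + γ →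
      ∀ s : E → ℝ, ContDiff ℝ ∞ s → (∀ x, ‖gradient s x‖ ≤ 1) →
        ∫ x in {x | 0 < s x}, |a x| ^ q ∂μ ≤ 1 / 2 → ∫ x in {x | R ≤ s x}, |a x| ^ q ∂μ ≤ ε := by
  obtain ⟨B, B1, hB⟩ := exists_B
  have q0 := h.q0
  have κ0 := h.κ0
  have m0 := h.m0
  obtain ⟨ρ, hρ⟩ : ∃ ρ : ℝ, ρ = (1 - (1 / 2 : ℝ) ^ (1 - 2 / q)) / 2 := ⟨_, rfl⟩
  have ρ0 : 0 < ρ := by
    have := rpow_lt_one (x := 1 / 2) (z := 1 - 2 / q) (by norm_num) (by norm_num) (by
      rw [sub_pos, div_lt_one q0]; exact h.hq)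
    rw [hρ]; linarith
  obtain ⟨τ, hτ⟩ : ∃ τ : ℝ, τ = ρ * (m * (ε ^ q⁻¹) ^ 2) / 2 := ⟨_, rfl⟩
  have τ0 : 0 < τ := by rw [hτ]; positivity
  obtain ⟨R, hR⟩ : ∃ R : ℝ, R = 1 + B ^ 2 * ((m + 1) / κ ^ 2) / τ := ⟨_, rfl⟩
  have R1 : 1 ≤ R := by rw [hR]; exact le_add_of_nonneg_right (by positivity)
  have R0 : 0 < R := by linarith
  refine ⟨R, min 1 (τ * ρ / (B ^ 2 * (1 + 1 / κ ^ 2))), R1, by positivity, min_le_left _ _,
    fun a ha h1 hγ s hs hs1 hM => ?_⟩
  have hf : ContDiff ℝ ∞ fun t => smoothTransition (t / R) :=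
    smoothTransition.contDiff.comp (contDiff_id.div_const R)
  have hd : ∀ t, |deriv (fun t => smoothTransition (t / R)) t| ≤ B / R := fun t => by
    have d : HasDerivAt (fun t => smoothTransition (t / R))
        (deriv smoothTransition (t / R) * (1 / R)) t :=
      HasDerivAt.comp (h₂ := smoothTransition) (h := fun t => t / R) t (st_diff _).hasDerivAt
        ((hasDerivAt_id t).div_const R)
    rw [d.deriv, abs_mul, abs_of_pos (by positivity : 0 < 1 / R), mul_one_div]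
    exact div_le_div_of_nonneg_right (hB _) R0.le
  have a1 := h.comp ha h1 hγ (min_le_left _ _) hs hs1 hf (K := B) (fun t => (st_abs _).trans B1)
    (fun t => (hd t).trans (div_le_self (by linarith) R1))
    (fun t ht => smoothTransition.zero_of_nonpos (div_nonpos_of_nonpos_of_nonneg ht R0.le)) hM
    (α := 0) (β := (B / R) ^ 2) le_rfl (by positivity) (fun t => by
      rw [zero_mul, zero_add, ← sq_abs]
      exact pow_le_pow_left₀ (abs_nonneg _) (hd t) 2) ρ0
  have hz : IsTest S fun x => smoothTransition (s x / R) * a x := ha.mul_left (hf.comp hs)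
  have a2 : (B / R) ^ 2 * ((m + 1) / κ ^ 2) ≤ τ := by
    rw [div_pow, div_mul_eq_mul_div, div_le_iff₀ (by positivity)]
    have : B ^ 2 * ((m + 1) / κ ^ 2) = (R - 1) * τ := by rw [hR]; field_simp; ring
    rw [this]
    nlinarith [mul_nonneg τ0.le (sq_nonneg (R - 1)), mul_pos τ0 R0]
  have a3 : min 1 (τ * ρ / (B ^ 2 * (1 + 1 / κ ^ 2))) * (B ^ 2 * (1 + 1 / κ ^ 2)) / ρ ≤ τ := by
    rw [div_le_iff₀ ρ0, ← le_div_iff₀ (by positivity)]
    exact min_le_right _ _
  have a4 := mul_le_mul_of_nonneg_left (h.good _ hz) ρ0.le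
  rw [show 1 - (1 / 2 : ℝ) ^ (1 - 2 / q) - 0 / κ ^ 2 - ρ = ρ by rw [hρ]; ring] at a1
  have a5 : lqNorm μ q (fun x => smoothTransition (s x / R) * a x) ≤ ε ^ q⁻¹ := by
    refine (abs_le_of_sq_le_sq' (le_of_mul_le_mul_left (le_of_mul_le_mul_left ?_ ρ0) m0)
      (by positivity)).2
    exact a4.trans (by linarith)
  have a6 := rpow_le_rpow (lqNorm_nonneg _) a5 q0.le
  rw [rpow_inv_rpow hε.le q0.ne', lqNorm_rpow q0] at a6
  refine le_trans (le_trans (le_of_eq ?_) (setIntegral_le_integral (s := {x | R ≤ s x})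
    (test_pow q0 hz) (Eventually.of_forall fun x => by positivity))) a6
  refine setIntegral_congr_fun (isClosed_le continuous_const hs.continuous).measurableSet
    fun x hx => ?_
  rw [smoothTransition.one_of_one_le ((one_le_div R0).2 hx), one_mul]

theorem Base.conc (h : Base μ S q m κ) {ε : ℝ} (hε : 0 < ε) :
    ∃ R γ : ℝ, 1 ≤ R ∧ 0 < γ ∧ γ ≤ 1 ∧ ∀ a, IsTest S a → lqNorm μ q a = 1 → dir μ a ≤ m + γ →
      ∀ e : E, ‖e‖ = 1 → ∃ c : ℝ, ∫ x in {x | R < |inner ℝ e x - c|}, |a x| ^ q ∂μ ≤ ε := by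
  obtain ⟨R, γ, R1, γ0, γ1, H⟩ := h.conc1 (half_pos hε)
  refine ⟨R + 1, γ, by linarith, γ0, γ1, fun a ha h1 hγ e he => ?_⟩
  obtain ⟨c, c1, c2⟩ := median h.q0 ha h1 (u := fun x => inner ℝ e x) (by fun_prop)
  have b1 := H a ha h1 hγ _ (lin_smooth e (c + 1)) (lin_grad he _) c1
  have b2 := H a ha h1 hγ _ (lin_smooth (-e) (-c)) (lin_grad (by rw [norm_neg, he]) _) (by
    simpa only [inner_neg_left, neg_sub_neg] using c2)
  refine ⟨c, (set_le_add (fun x => by positivity) (test_pow h.q0 ha) fun x hx => ?_).trans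
    ((add_le_add b1 b2).trans_eq (add_halves ε))⟩
  simp only [mem_union, mem_ofPred_eq, inner_neg_left] at hx ⊢
  rcases lt_abs.1 hx with hx | hx
  · left; linarith
  · right; linarith

theorem agmon_weight {k τ B : ℝ} (hk : 0 < k) (τ0 : 0 < τ) (τ1 : τ ≤ 1)
    (hB : ∀ s, |deriv smoothTransition s| ≤ B) :
    ∃ f : ℝ → ℝ, ContDiff ℝ ∞ f ∧ (∀ t, |f t| ≤ (1 + B * exp k + k) / τ) ∧
      (∀ t, |deriv f t| ≤ (1 + B * exp k + k) / τ) ∧ (∀ t ≤ 0, f t = 0) ∧
      (∀ t, deriv f t ^ 2 ≤ 51 / 50 * k ^ 2 * f t ^ 2 + 51 * (B * exp k) ^ 2) ∧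
      ∀ t, 1 ≤ t → exp (-k * t) ≤ τ → 1 ≤ 2 * τ * f t := by
  have B0 : 0 ≤ B := (abs_nonneg _).trans (hB 0)
  have p : ∀ t, 0 < exp (-k * t) + τ := fun t => by positivity
  have hg : ContDiff ℝ ∞ fun t => (exp (-k * t) + τ)⁻¹ :=
    ContDiff.inv (by fun_prop) fun t => (p t).ne'
  have g1 : ∀ t, (exp (-k * t) + τ)⁻¹ ≤ 1 / τ := fun t => by
    rw [one_div]; exact inv_anti₀ τ0 (le_add_of_nonneg_left (exp_pos _).le)
  have key : ∀ t, |deriv (fun t => smoothTransition t * (exp (-k * t) + τ)⁻¹) t| ≤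
      B * exp k + k * (smoothTransition t * (exp (-k * t) + τ)⁻¹) := fun t => by
    have d1 : HasDerivAt (fun t => exp (-k * t) + τ) (exp (-k * t) * -k) t := by
      simpa using ((hasDerivAt_id t).const_mul (-k)).exp.add_const τ
    have d2 : HasDerivAt (fun t => smoothTransition t * (exp (-k * t) + τ)⁻¹)
        (deriv smoothTransition t * (exp (-k * t) + τ)⁻¹ +
          smoothTransition t * (-(exp (-k * t) * -k) / (exp (-k * t) + τ) ^ 2)) t :=
      (st_diff t).hasDerivAt.mul (d1.inv (p t).ne')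
    rw [d2.deriv]
    refine (abs_add_le _ _).trans (add_le_add ?_ ?_)
    · rw [abs_mul]
      rcases le_or_gt t 1 with ht | ht
      · refine mul_le_mul (hB t) ?_ (abs_nonneg _) B0
        rw [abs_of_pos (inv_pos.2 (p t)), ← inv_inv (exp k), ← exp_neg]
        refine inv_anti₀ (exp_pos _) (le_trans (exp_le_exp.2 ?_) (le_add_of_nonneg_right τ0.le))
        nlinarith
      · rw [deriv_st_of_gt ht, abs_zero, zero_mul]
        positivity
    · have s0 := smoothTransition.nonneg t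
      have := p t
      rw [mul_neg, neg_neg, abs_of_nonneg (by positivity), mul_left_comm]
      refine mul_le_mul_of_nonneg_left ?_ s0
      rw [div_le_iff₀ (by positivity), sq, ← mul_assoc, mul_assoc k, inv_mul_cancel₀ this.ne',
        mul_one, mul_comm]
      exact mul_le_mul_of_nonneg_left (le_add_of_nonneg_right τ0.le) hk.le
  have f1 : ∀ t, 0 ≤ smoothTransition t * (exp (-k * t) + τ)⁻¹ ∧
      smoothTransition t * (exp (-k * t) + τ)⁻¹ ≤ 1 / τ := fun t =>
    ⟨mul_nonneg (smoothTransition.nonneg t) (inv_pos.2 (p t)).le,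
      (mul_le_of_le_one_left (inv_pos.2 (p t)).le (smoothTransition.le_one t)).trans (g1 t)⟩
  have β0 : 0 ≤ B * exp k := by positivity
  refine ⟨fun t => smoothTransition t * (exp (-k * t) + τ)⁻¹, smoothTransition.contDiff.mul hg,
    fun t => ?_, fun t => (key t).trans ?_,
    fun t ht => by simp only [smoothTransition.zero_of_nonpos ht, zero_mul], fun t => ?_,
    fun t h1 h2 => ?_⟩
  · rw [abs_of_nonneg (f1 t).1]
    exact (f1 t).2.trans (div_le_div_of_nonneg_right (by linarith) τ0.le)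
  · have a1 := mul_le_mul_of_nonneg_left (f1 t).2 hk.le
    have a2 : B * exp k ≤ B * exp k / τ := le_div_self β0 τ0 τ1
    have a3 : 0 < 1 / τ := by positivity
    rw [add_div, add_div]
    rw [mul_one_div] at a1
    linarith
  · have a1 := pow_le_pow_left₀ (abs_nonneg _) (key t) 2
    rw [sq_abs] at a1
    refine a1.trans ?_
    dsimp only
    generalize smoothTransition t * (exp (-k * t) + τ)⁻¹ = F
    nlinarith [sq_nonneg (k * F - 50 * (B * exp k))]
  · dsimp only
    rw [smoothTransition.one_of_one_le h1, one_mul, ← div_eq_mul_inv, one_le_div (p t)]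
    linarith

theorem Base.agmon (h : Base μ S q m κ) : ∃ C : ℝ, 0 ≤ C ∧ ∀ (r γ M : ℝ) (a s : E → ℝ), 1 ≤ r →
    γ ≤ exp (-(19 / 20 * κ) * r) ^ 2 → IsTest S a → lqNorm μ q a = 1 → dir μ a ≤ m + γ →
    ContDiff ℝ ∞ s → (∀ x, ‖gradient s x‖ ≤ 1) → ∫ x in {x | 0 < s x}, |a x| ^ q ∂μ ≤ M →
    M ^ (1 - 2 / q) ≤ 1 / 50 →
      ∫ x in {x | r ≤ s x}, a x ^ 2 ∂μ ≤ C * exp (-(19 / 20 * κ) * r) ^ 2 := by
  obtain ⟨B, B1, hB⟩ := exists_B
  have κ0 := h.κ0
  have m0 := h.m0
  obtain ⟨k, hk⟩ : ∃ k, k = 19 / 20 * κ := ⟨_, rfl⟩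
  have k0 : 0 < k := by rw [hk]; positivity
  rw [← hk]
  refine ⟨4 * (30 * (51 * (B * exp k) ^ 2 * ((m + 1) / κ ^ 2) +
    (1 + B * exp k + k) ^ 2 * (1 + 1 / κ ^ 2) / (1 / 50)) / κ ^ 2), by positivity,
    fun r γ M a s r1 hγ ha h1 hd hs hs1 hM hM' => ?_⟩
  have τ0 := exp_pos (-k * r)
  have τ1 : exp (-k * r) ≤ 1 := exp_le_one_iff.2 (by nlinarith)
  obtain ⟨f, f1, f2, f3, f4, f5, f6⟩ := agmon_weight k0 τ0 τ1 hB
  have a1 := h.comp ha h1 hd (hγ.trans (pow_le_one₀ τ0.le τ1)) hs hs1 f1 f2 f3 f4 hM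
    (by positivity) (by positivity) f5 (ε := 1 / 50) (by norm_num)
  have hz : IsTest S fun x => f (s x) * a x := ha.mul_left (f1.comp hs)
  have a2 : γ * (((1 + B * exp k + k) / exp (-k * r)) ^ 2 * (1 + 1 / κ ^ 2)) / (1 / 50) ≤
      (1 + B * exp k + k) ^ 2 * (1 + 1 / κ ^ 2) / (1 / 50) := by
    refine div_le_div_of_nonneg_right ?_ (by norm_num)
    refine (mul_le_mul_of_nonneg_right hγ (by positivity)).trans_eq ?_
    field_simp
  have a3 : 51 / 50 * k ^ 2 / κ ^ 2 = 51 / 50 * (19 / 20) ^ 2 := by rw [hk]; field_simp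
  rw [a3] at a1
  have D0 := dir_nonneg μ fun x => f (s x) * a x
  have a4 : dir μ (fun x => f (s x) * a x) ≤ 30 * (51 * (B * exp k) ^ 2 * ((m + 1) / κ ^ 2) +
      (1 + B * exp k + k) ^ 2 * (1 + 1 / κ ^ 2) / (1 / 50)) := by
    nlinarith [mul_le_mul_of_nonneg_right hM' D0]
  have a5 := (h.sq_le hz).trans (div_le_div_of_nonneg_right a4 (sq_nonneg κ))
  have ms : MeasurableSet {x | r ≤ s x} :=
    (isClosed_le continuous_const hs.continuous).measurableSet
  have i1 := (test_sq (μ := μ) hz).const_mul (4 * exp (-k * r) ^ 2)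
  have a6 : ∫ x in {x | r ≤ s x}, a x ^ 2 ∂μ ≤
      ∫ x, 4 * exp (-k * r) ^ 2 * (f (s x) * a x) ^ 2 ∂μ := by
    refine le_trans (setIntegral_mono_on (test_sq ha).integrableOn i1.integrableOn ms
      fun x hx => ?_) (setIntegral_le_integral i1 (Eventually.of_forall fun x => by positivity))
    have b0 : r ≤ s x := hx
    have b1 := f6 (s x) (r1.trans b0) (exp_le_exp.2 (by nlinarith))
    have b2 := mul_le_mul_of_nonneg_right (one_le_pow₀ (n := 2) b1) (sq_nonneg (a x))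
    linarith
  rw [integral_const_mul] at a6
  refine a6.trans ((mul_le_mul_of_nonneg_left a5 (by positivity)).trans_eq (by ring))

end Pool.Agent.Lib.MP_eb4995_an.Sl
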