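import Mathlib
import Pool.Agent.Lib.MP_eb4995_an.Sl.Decay

/-!
Test functions over discs whose energy exceeds the infimum by an exponentially small amount.
-/

set_option linter.unusedSectionVars false

namespace Pool.Agent.Lib.MP_eb4995_an.Sl

open MeasureTheory Set Filter Topology Module Cv Real
open scoped ContDiff

variable {E : Type} [NormedAddCommGroup E] [InnerProductSpace ℝ E] [CompleteSpace E]
  [MeasurableSpace E] [BorelSpace E] [FiniteDimensional ℝ E]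
  {μ : Measure E} [μ.IsAddHaarMeasure] {S : Set E} {q m κ : ℝ} {e₀ e₁ : E}

/-- Two orthonormal directions that leave `S` invariant. -/
structure Frame (S : Set E) (e₀ e₁ : E) : Prop where
  n0 : ‖e₀‖ = 1
  n1 : ‖e₁‖ = 1
  orth : inner ℝ e₀ e₁ = 0
  shift : ∀ (x : E) (s t : ℝ), x + (s • e₀ + t • e₁) ∈ S → x ∈ S

theorem Frame.swap (h : Frame S e₀ e₁) : Frame S e₁ e₀ :=
  ⟨h.n1, h.n0, by rw [real_inner_comm, h.orth], fun x s t hx => h.shift x t s (by
    rwa [add_comm (t • e₀)])⟩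

theorem Frame.in0 (h : Frame S e₀ e₁) (x : E) (s t : ℝ) :
    inner ℝ e₀ (x + (s • e₀ + t • e₁)) = inner ℝ e₀ x + s := by
  simp [inner_add_right, inner_smul_right, h.orth, h.n0]

theorem Frame.in1 (h : Frame S e₀ e₁) (x : E) (s t : ℝ) :
    inner ℝ e₁ (x + (s • e₀ + t • e₁)) = inner ℝ e₁ x + t := by
  rw [add_comm (s • e₀)]
  exact h.swap.in0 x t s

theorem tsupport_shift (a : E → ℝ) (v : E) {x : E} (hx : x ∈ tsupport fun x => a (x + v)) :
    x + v ∈ tsupport a :=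
  tsupport_comp_subset_preimage a (continuous_add_const v) hx

theorem Frame.test (h : Frame S e₀ e₁) {a : E → ℝ} (ha : IsTest S a) (s t : ℝ) :
    IsTest S fun x => a (x + (s • e₀ + t • e₁)) :=
  ⟨ha.1.comp (contDiff_id.add contDiff_const),
    ha.2.1.comp_homeomorph (Homeomorph.addRight (s • e₀ + t • e₁)),
    fun x hx => h.shift x s t (ha.2.2 (tsupport_shift a _ hx))⟩

theorem lq_shift (a : E → ℝ) (v : E) : lqNorm μ q (fun x => a (x + v)) = lqNorm μ q a := by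
  unfold lqNorm
  rw [integral_add_right_eq_self (fun x => |a x| ^ q)]

theorem dir_shift (a : E → ℝ) (v : E) : dir μ (fun x => a (x + v)) = dir μ a := by
  unfold dir
  simp only [norm_gradient, fderiv_comp_add_right]
  exact integral_add_right_eq_self (fun x => ‖fderiv ℝ a x‖ ^ 2) v

/-- A smooth distance to an axis. -/
noncomputable def rad (e₀ e₁ : E) (c₀ c₁ : ℝ) (x : E) : ℝ :=
  √(1 + (inner ℝ e₀ x - c₀) ^ 2 + (inner ℝ e₁ x - c₁) ^ 2)

theorem rad_smooth (e₀ e₁ : E) (c₀ c₁ R : ℝ) : ContDiff ℝ ∞ fun x => rad e₀ e₁ c₀ c₁ x - R :=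
  (((contDiff_const.add ((lin_smooth e₀ c₀).pow 2)).add ((lin_smooth e₁ c₁).pow 2)).sqrt
    fun x => by positivity).sub contDiff_const

theorem Frame.rad_grad (h : Frame S e₀ e₁) (c₀ c₁ R : ℝ) (x : E) :
    ‖gradient (fun x => rad e₀ e₁ c₀ c₁ x - R) x‖ ≤ 1 := by
  have p : 0 < 1 + (inner ℝ e₀ x - c₀) ^ 2 + (inner ℝ e₁ x - c₁) ^ 2 := by positivity
  have d : HasFDerivAt (fun x => rad e₀ e₁ c₀ c₁ x - R) _ x :=
    (((((lin_fderiv e₀ c₀ x).pow 2).const_add 1).add ((lin_fderiv e₁ c₁ x).pow 2)).sqrt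
      p.ne').sub_const R
  rw [norm_gradient, d.fderiv, ← map_smul, ← map_smul, ← map_add, ← map_smul, innerSL_apply_norm,
    norm_smul, ← sq_le_one_iff₀ (by positivity), mul_pow, norm_add_sq_real]
  simp only [norm_smul, inner_smul_left, inner_smul_right, h.orth, h.n0, h.n1, mul_pow,
    Real.norm_eq_abs, sq_abs, div_pow, Pi.add_apply, sq_sqrt p.le]
  rw [div_mul_eq_mul_div, div_le_one (by positivity)]
  simp
  nlinarith

theorem Base.cut (h : Base μ S q m κ) : ∃ C : ℝ, 0 ≤ C ∧ ∀ (r τ A : ℝ) (a s : E → ℝ), 0 < τ →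
    0 ≤ r → IsTest S a → lqNorm μ q a = 1 → dir μ a ≤ m + τ ^ 2 → τ ≤ 1 → ContDiff ℝ ∞ s →
    (∀ x, ‖gradient s x‖ ≤ 1) → ∫ x in {x | 0 < s x}, |a x| ^ q ∂μ ≤ 1 / 2 → 0 ≤ A →
    ∫ x in {x | r ≤ s x}, a x ^ 2 ∂μ ≤ A * τ →
      ∃ φ, IsTest S φ ∧ lqNorm μ q φ = 1 ∧ dir μ φ ≤ m + C * (1 + A) * τ ∧
        ∀ x ∈ tsupport φ, s x ≤ r + 1 := by
  obtain ⟨B, B1, hB⟩ := exists_B
  have κ0 := h.κ0
  have m0 := h.m0
  have q0 := h.q0
  obtain ⟨K, hK⟩ : ∃ K, K = B ^ 2 * (1 + 1 / κ ^ 2) := ⟨_, rfl⟩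
  have K0 : 0 ≤ K := by rw [hK]; positivity
  refine ⟨4 * (B ^ 2 + 2 * K * (m + 1) + K), by positivity,
    fun r τ A a s τ0 r0 ha h1 hd τ1 hs hs1 hM A0 hA => ?_⟩
  have hf : ContDiff ℝ ∞ fun t => 1 - smoothTransition (t - r) :=
    contDiff_const.sub (smoothTransition.contDiff.comp (contDiff_id.sub contDiff_const))
  have df : ∀ t, deriv (fun t => 1 - smoothTransition (t - r)) t =
      -deriv smoothTransition (t - r) := fun t => by
    rw [deriv_const_sub, deriv_comp_sub_const]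
  have hw : ContDiff ℝ ∞ fun x => 1 - smoothTransition (s x - r) := hf.comp hs
  have w0 : ∀ t, |1 - smoothTransition t| ≤ 1 := fun t => abs_le.2
    ⟨by linarith [smoothTransition.le_one t], by linarith [smoothTransition.nonneg t]⟩
  have w2 : ∀ x, ‖gradient (fun x => 1 - smoothTransition (s x - r)) x‖ ≤
      |deriv smoothTransition (s x - r)| := fun x => by
    have := norm_grad_comp hs hs1 (hf.differentiable (by simp)) x
    rwa [df, abs_neg] at this
  have hz := ha.mul_left hw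
  have a1 := h.weighted ha h1 hd hw (fun x => (w0 _).trans B1) (fun x => (w2 x).trans (hB _))
    MeasurableSet.univ (fun x hx => absurd (mem_univ x) hx) (M := 1)
    (by rw [setIntegral_univ, mass_one q0 h1]) τ0
  have a2 := h.dir_mul_le ha hw (fun x => (w0 _).trans B1) fun x => (w2 x).trans (hB _)
  have ms : MeasurableSet {x | r ≤ s x} :=
    (isClosed_le continuous_const hs.continuous).measurableSet
  have a3 : ∫ x, a x ^ 2 * ‖gradient (fun x => 1 - smoothTransition (s x - r)) x‖ ^ 2 ∂μ ≤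
      B ^ 2 * (A * τ) := by
    refine le_trans ?_ (mul_le_mul_of_nonneg_left hA (sq_nonneg B))
    rw [← integral_indicator ms, ← integral_const_mul]
    refine integral_mono (test_sq_mul ha ((continuous_grad hw).norm.pow 2))
      (((test_sq ha).indicator ms).const_mul _) fun x => ?_
    dsimp only
    by_cases hx : x ∈ {x | r ≤ s x}
    · rw [indicator_of_mem hx, mul_comm]
      exact mul_le_mul_of_nonneg_right
        (pow_le_pow_left₀ (norm_nonneg _) ((w2 x).trans (hB _)) 2) (sq_nonneg _)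
    · have := w2 x
      rw [deriv_st_of_lt (sub_neg.2 (not_le.1 hx)), abs_zero] at this
      rw [indicator_of_notMem hx, norm_le_zero_iff.1 this]
      simp
  have mo : MeasurableSet {x | 0 < s x} := (isOpen_lt continuous_const hs.continuous).measurableSet
  have a4 : 1 / 2 ≤ lqNorm μ q fun x => (1 - smoothTransition (s x - r)) * a x := by
    refine (rpow_le_rpow_iff (by norm_num) (lqNorm_nonneg _) q0).1 ?_
    have b1 : (1 / 2 : ℝ) ^ q ≤ 1 / 2 := by
      have := rpow_le_rpow_of_exponent_ge (x := 1 / 2) (by norm_num) (by norm_num)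
        (show 1 ≤ q by linarith [h.hq])
      rwa [rpow_one] at this
    have b2 := integral_add_compl mo (test_pow (μ := μ) q0 ha)
    rw [mass_one q0 h1] at b2
    have b3 : ∫ x in {x | 0 < s x}ᶜ, |a x| ^ q ∂μ =
        ∫ x in {x | 0 < s x}ᶜ, |(1 - smoothTransition (s x - r)) * a x| ^ q ∂μ :=
      setIntegral_congr_fun mo.compl fun x hx => by
        have : s x ≤ 0 := not_lt.1 hx
        rw [smoothTransition.zero_of_nonpos (by linarith), sub_zero, one_mul]
    have b4 := setIntegral_le_integral (s := {x | 0 < s x}ᶜ) (test_pow (μ := μ) q0 hz)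
      (Eventually.of_forall fun x => by positivity)
    rw [lqNorm_rpow q0]
    linarith
  set N := lqNorm μ q fun x => (1 - smoothTransition (s x - r)) * a x with hN
  have N0 : 0 < N := by linarith
  refine ⟨fun x => N⁻¹ * ((1 - smoothTransition (s x - r)) * a x), hz.smul _, ?_, ?_, ?_⟩
  · rw [lqNorm_smul q0, ← hN, abs_of_pos (inv_pos.2 N0), inv_mul_cancel₀ N0.ne']
  · have e : dir μ (fun x => N⁻¹ * ((1 - smoothTransition (s x - r)) * a x)) =
        dir μ (fun x => (1 - smoothTransition (s x - r)) * a x) / N ^ 2 := by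
      unfold dir
      simp only [gradient_const_mul' hz.differentiable, norm_smul, mul_pow, Real.norm_eq_abs,
        sq_abs, integral_const_mul]
      rw [inv_pow, inv_mul_eq_div]
    rw [e, div_le_iff₀ (by positivity)]
    rw [one_rpow, one_mul, ← hK, show τ ^ 2 * K / τ = τ * K by field_simp] at a1
    rw [mul_assoc 2, ← hK] at a2
    have b1 := mul_le_mul_of_nonneg_left (a2.trans (mul_le_mul_of_nonneg_left
      (show dir μ a ≤ m + 1 by nlinarith) (by positivity))) τ0.le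
    have b2 : 1 / 4 ≤ N ^ 2 := by nlinarith
    have b3 := mul_le_mul_of_nonneg_left b2
      (show 0 ≤ 4 * (B ^ 2 + 2 * K * (m + 1) + K) * (1 + A) * τ by positivity)
    have b4 : 0 ≤ B ^ 2 * τ := by positivity
    have b5 : 0 ≤ (2 * K * (m + 1) + K) * A * τ := by positivity
    linarith
  · refine closure_minimal (t := {x | s x ≤ r + 1}) (fun x hx => ?_)
      (isClosed_le hs.continuous continuous_const)
    by_contra H
    have : r + 1 < s x := not_le.1 H
    exact hx (by simp only [smoothTransition.one_of_one_le (show 1 ≤ s x - r by linarith),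
      sub_self, zero_mul, mul_zero])

/-- There are test functions with Rayleigh quotient close to `m`. -/
def Sharp (μ : Measure E) (S : Set E) (q m : ℝ) : Prop :=
  ∀ γ : ℝ, 0 < γ → ∃ a, IsTest S a ∧ lqNorm μ q a = 1 ∧ dir μ a ≤ m + γ

theorem Base.upper (h : Base μ S q m κ) (hF : Frame S e₀ e₁) (hs : Sharp μ S q m) :
    ∃ C R : ℝ, 0 ≤ C ∧ 0 ≤ R ∧ ∀ r c₀ c₁ : ℝ, 1 ≤ r → ∃ φ, IsTest S φ ∧ lqNorm μ q φ = 1 ∧
      dir μ φ ≤ m + C * exp (-(19 / 10 * κ) * r) ∧
        ∀ x ∈ tsupport φ, (inner ℝ e₀ x - c₀) ^ 2 + (inner ℝ e₁ x - c₁) ^ 2 < (r + R) ^ 2 := by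
  have q0 := h.q0
  have κ0 := h.κ0
  have p0 : 0 < 1 - 2 / q := by rw [sub_pos, div_lt_one q0]; exact h.hq
  obtain ⟨M, M0, M1, M2⟩ : ∃ M : ℝ, 0 < M ∧ M ≤ 1 / 2 ∧ M ^ (1 - 2 / q) ≤ 1 / 50 := by
    refine ⟨min (1 / 2) ((1 / 50) ^ (1 - 2 / q)⁻¹), by positivity, min_le_left _ _, ?_⟩
    refine (rpow_le_rpow (by positivity) (min_le_right _ _) p0.le).trans_eq ?_
    exact rpow_inv_rpow (by norm_num) p0.ne'
  obtain ⟨R, γ, R1, γ0, -, hc⟩ := h.conc (half_pos M0)
  obtain ⟨A, A0, hA⟩ := h.agmon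
  obtain ⟨C, C0, hC⟩ := h.cut
  refine ⟨C * (1 + A), 2 * R + 2, by positivity, by positivity, fun r c₀ c₁ r1 => ?_⟩
  obtain ⟨τ, hτ⟩ : ∃ τ, τ = exp (-(19 / 20 * κ) * r) ^ 2 := ⟨_, rfl⟩
  have τ0 : 0 < τ := by rw [hτ]; positivity
  have τ1 : τ ≤ 1 := by
    rw [hτ]; exact pow_le_one₀ (exp_pos _).le (exp_le_one_iff.2 (by nlinarith))
  obtain ⟨a, ha, h1, hd⟩ := hs (min γ (τ ^ 2)) (by positivity)
  have d1 : dir μ a ≤ m + γ := hd.trans (by linarith [min_le_left γ (τ ^ 2)])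
  have d2 : dir μ a ≤ m + τ ^ 2 := hd.trans (by linarith [min_le_right γ (τ ^ 2)])
  obtain ⟨b₀, hb₀⟩ := hc a ha h1 d1 e₀ hF.n0
  obtain ⟨b₁, hb₁⟩ := hc a ha h1 d1 e₁ hF.n1
  have hM : ∫ x in {x | 0 < rad e₀ e₁ b₀ b₁ x - (2 * R + 1)}, |a x| ^ q ∂μ ≤ M := by
    refine (set_le_add (fun x => by positivity) (test_pow q0 ha) fun x hx => ?_).trans
      ((add_le_add hb₀ hb₁).trans_eq (add_halves M))
    by_contra H
    simp only [mem_union, mem_ofPred_eq, not_or, not_lt] at H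
    have k0 := pow_le_pow_left₀ (abs_nonneg _) H.1 2
    have k1 := pow_le_pow_left₀ (abs_nonneg _) H.2 2
    rw [sq_abs] at k0 k1
    have : rad e₀ e₁ b₀ b₁ x ≤ 2 * R + 1 := sqrt_le_iff.2 ⟨by linarith, by nlinarith⟩
    exact absurd (sub_pos.1 hx) (not_lt.2 this)
  have a1 := hA r (τ ^ 2) M a _ r1 (by rw [← hτ]; nlinarith) ha h1 d2 (rad_smooth e₀ e₁ b₀ b₁ _)
    (hF.rad_grad b₀ b₁ _) hM M2
  rw [← hτ] at a1
  obtain ⟨φ, f1, f2, f3, f4⟩ := hC r τ A a _ τ0 (by linarith) ha h1 d2 τ1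
    (rad_smooth e₀ e₁ b₀ b₁ _) (hF.rad_grad b₀ b₁ _) (hM.trans M1) A0 a1
  refine ⟨_, hF.test f1 (b₀ - c₀) (b₁ - c₁), (lq_shift φ _).trans f2, ?_, fun x hx => ?_⟩
  · rw [dir_shift, show -(19 / 10 * κ) * r = (2 : ℕ) * (-(19 / 20 * κ) * r) by push_cast; ring,
      exp_nat_mul, ← hτ]
    exact f3
  · have k0 := f4 _ (tsupport_shift φ _ hx)
    unfold rad at k0
    rw [hF.in0, hF.in1, sub_le_iff_le_add] at k0
    have := (sqrt_le_iff.1 k0).2
    linarith

end Pool.Agent.Lib.MP_eb4995_an.Sl
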