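import Mathlib
import Pool.Agent.Lib.MP_eb4995_an.Sl.Upper

/-!
A lower bound for the excess energy of functions supported in a strip.
-/

set_option linter.unusedSectionVars false

namespace Pool.Agent.Lib.MP_eb4995_an.Sl

open MeasureTheory Set Filter Topology Module Cv Real
open scoped ContDiff

theorem split_pt {q r ε : ℝ} (hq : 2 < q) (hr : q < r) (hε : 0 < ε) :
    ∃ Λ T₀ : ℝ, 0 < Λ ∧ ∀ a T : ℝ, 0 ≤ a → 0 ≤ T →
      (a ≤ Λ ∧ T ≤ T₀) ∨ a ^ q ≤ ε * (a ^ r + a ^ 2 * T) := by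
  obtain ⟨Λ, h1, Λ0⟩ := (((tendsto_rpow_neg_atTop (sub_pos.2 hr)).eventually
    (gt_mem_nhds hε)).and (eventually_gt_atTop 0)).exists
  refine ⟨Λ, Λ ^ (q - 2) / ε, Λ0, fun a T a0 T0 => ?_⟩
  have p1 : 0 ≤ ε * a ^ r := by positivity
  have p2 : 0 ≤ ε * (a ^ 2 * T) := by positivity
  rcases le_or_gt a Λ with ha | ha
  · rcases le_or_gt T (Λ ^ (q - 2) / ε) with hT | hT
    · exact Or.inl ⟨ha, hT⟩
    · right
      rw [div_lt_iff₀ hε] at hT
      have e := rpow_add' a0 (y := q - 2) (z := 2) (by linarith)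
      rw [sub_add_cancel, rpow_two] at e
      have b1 := mul_le_mul_of_nonneg_right
        ((rpow_le_rpow a0 ha (show 0 ≤ q - 2 by linarith)).trans hT.le) (sq_nonneg a)
      linarith
  · right
    have e := rpow_add (Λ0.trans ha) (-(r - q)) r
    rw [show -(r - q) + r = q by ring] at e
    have b1 := mul_le_mul_of_nonneg_right
      ((rpow_le_rpow_of_nonpos Λ0 ha.le (show -(r - q) ≤ 0 by linarith)).trans h1.le)
      (rpow_nonneg a0 r)
    linarith

variable {E : Type} [NormedAddCommGroup E] [InnerProductSpace ℝ E] [CompleteSpace E]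
  [MeasurableSpace E] [BorelSpace E] [FiniteDimensional ℝ E]
  {μ : Measure E} [μ.IsAddHaarMeasure] {S : Set E} {q m κ : ℝ} {e₀ e₁ : E} {θ T : E → ℝ}

/-- Properties of the thin directions. -/
structure Thin (μ : Measure E) (S : Set E) (q κ : ℝ) (e₀ e₁ : E) (θ T : E → ℝ) : Prop where
  isOpen : IsOpen S
  sob : ∃ r, q < r ∧ ∀ M : ℝ, ∃ B : ℝ, ∀ φ, IsTest S φ → dir μ φ ≤ M → ∫ x, |φ x| ^ r ∂μ ≤ B
  T0 : ∀ x, 0 ≤ T x
  hardy : ∀ φ, IsTest S φ → Integrable (fun x => φ x ^ 2 * T x) μ ∧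
    ∫ x, φ x ^ 2 * T x ∂μ ≤ 4 * dir μ φ
  smooth : ContDiff ℝ ∞ θ
  pos : ∀ x ∈ S, 0 < θ x
  le_one : ∀ x, |θ x| ≤ 1
  cl : ∀ x ∈ closure S, 0 < θ x → x ∈ S
  grad : ∀ x, ‖gradient θ x‖ ≤ κ
  low : ∀ T₀ : ℝ, ∃ s : ℝ, 0 < s ∧ ∀ x ∈ S, T x ≤ T₀ → s ≤ θ x
  harm : ∀ e, e = e₀ ∨ e = e₁ → ∀ (c : ℝ) (φ : E → ℝ), IsTest S φ → ∫ x, inner ℝ (gradient φ x)
    (gradient (fun x => θ x * cosh (κ * (inner ℝ e x - c))) x) ∂μ = 0
  bdd : ∃ C : ℝ, 0 ≤ C ∧ ∀ x ∈ S, ‖x‖ ≤ C + |inner ℝ e₀ x| + |inner ℝ e₁ x|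
  core : ∀ T₀ R : ℝ, ∃ Q : Set E, IsCompact Q ∧ Convex ℝ Q ∧ Q ⊆ S ∧
    ∀ x ∈ S, |inner ℝ e₀ x| ≤ R → |inner ℝ e₁ x| ≤ R → T x ≤ T₀ → x ∈ Q

theorem Thin.swap (h : Thin μ S q κ e₀ e₁ θ T) : Thin μ S q κ e₁ e₀ θ T :=
  { h with
    harm := fun e he => h.harm e he.symm
    bdd := by
      obtain ⟨C, C0, hC⟩ := h.bdd
      exact ⟨C, C0, fun x hx => by linarith [hC x hx]⟩
    core := fun T₀ R => by
      obtain ⟨Q, h1, h2, h3, h4⟩ := h.core T₀ R
      exact ⟨Q, h1, h2, h3, fun x hx a b => h4 x hx b a⟩ }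

theorem Base.bad (h : Base μ S q m κ) (hT : Thin μ S q κ e₀ e₁ θ T) {ε : ℝ} (hε : 0 < ε) :
    ∃ Λ T₀ : ℝ, 0 < Λ ∧ ∀ a, IsTest S a → dir μ a ≤ m + 1 → ∃ g : E → ℝ, Integrable g μ ∧
      (∀ x, 0 ≤ g x) ∧ ∫ x, g x ∂μ ≤ ε ∧ ∀ x, (|a x| ≤ Λ ∧ T x ≤ T₀) ∨ |a x| ^ q ≤ g x := by
  obtain ⟨r, hr, hB⟩ := hT.sob
  obtain ⟨B, hB⟩ := hB (m + 1)
  have m0 := h.m0
  obtain ⟨Λ, T₀, Λ0, H⟩ := split_pt h.hq hr (ε := ε / (|B| + 4 * (m + 1))) (by positivity)
  refine ⟨Λ, T₀, Λ0, fun a ha hd => ?_⟩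
  have i1 := test_pow (μ := μ) (h.q0.trans hr) ha
  obtain ⟨i2, h2⟩ := hT.hardy a ha
  refine ⟨fun x => ε / (|B| + 4 * (m + 1)) * (|a x| ^ r + a x ^ 2 * T x), (i1.add i2).const_mul _,
    fun x => by have := hT.T0 x; positivity, ?_,
    fun x => by simpa only [sq_abs] using H _ _ (abs_nonneg (a x)) (hT.T0 x)⟩
  rw [integral_const_mul, integral_add i1 i2, div_mul_eq_mul_div, div_le_iff₀ (by positivity)]
  exact mul_le_mul_of_nonneg_left (by linarith [hB a ha hd, le_abs_self B]) hε.le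

theorem dual_int (hq : 2 < q) {a g : E → ℝ} (ha : IsTest S a) (hg : Continuous g) :
    Integrable (fun x => |a x| ^ (q - 2) * a x * g x) μ :=
  int_cc ((ha.continuous.abs.rpow_const fun _ => Or.inr (by linarith)).mul ha.continuous)
    ha.2.1.mul_left hg

theorem Base.theta (h : Base μ S q m κ) (hT : Thin μ S q κ e₀ e₁ θ T) :
    ∃ j : ℝ, 0 < j ∧ ∀ a, IsTest S a → (∀ x, 0 ≤ a x) → lqNorm μ q a = 1 → dir μ a ≤ m + 1 →
      j ≤ ∫ x, |a x| ^ (q - 2) * a x * θ x ∂μ := by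
  obtain ⟨Λ, T₀, Λ0, H⟩ := h.bad hT (ε := 1 / 2) (by norm_num)
  obtain ⟨s, s0, hs⟩ := hT.low T₀
  refine ⟨s / Λ / 2, by positivity, fun a ha a0 h1 hd => ?_⟩
  obtain ⟨g, g1, g0, g2, g3⟩ := H a ha hd
  have i1 := (dual_int (μ := μ) h.hq ha hT.smooth.continuous).const_mul (Λ / s)
  have key : ∫ x, |a x| ^ q ∂μ ≤ ∫ x, (g x + Λ / s * (|a x| ^ (q - 2) * a x * θ x)) ∂μ := by
    refine integral_mono (test_pow h.q0 ha) (g1.add i1) fun x => ?_
    dsimp only
    by_cases hx : x ∈ S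
    · have p1 : 0 ≤ |a x| ^ (q - 2) * a x := mul_nonneg (by positivity) (a0 x)
      have p2 := hT.pos x hx
      rcases g3 x with ⟨k1, k2⟩ | k
      · have b1 : a x ≤ Λ / s * θ x := by
          rw [div_mul_eq_mul_div, le_div_iff₀ s0]
          exact mul_le_mul ((le_abs_self _).trans k1) (hs x hx k2) s0.le Λ0.le
        rw [← pow_mul_self h.hq]
        linarith [mul_le_mul_of_nonneg_left b1 p1, g0 x]
      · exact k.trans (le_add_of_nonneg_right (by positivity))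
    · rw [ha.eq_zero hx, abs_zero, zero_rpow h.q0.ne']
      simpa using g0 x
  rw [mass_one h.q0 h1, integral_add g1 i1, integral_const_mul] at key
  have : 1 / 2 ≤ Λ / s * ∫ x, |a x| ^ (q - 2) * a x * θ x ∂μ := by linarith
  rw [div_mul_eq_mul_div, le_div_iff₀ s0] at this
  rw [div_div, div_le_iff₀ (by positivity)]
  linarith

theorem grad_mul_le {f g : E → ℝ} (hf : ContDiff ℝ ∞ f) (hg : ContDiff ℝ ∞ g) {x : E}
    {a b y : ℝ} (f1 : |f x| ≤ 1 ∧ ‖gradient f x‖ ≤ a) (g1 : |g x| ≤ y ∧ ‖gradient g x‖ ≤ b * y) :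
    |f x * g x| ≤ y ∧ ‖gradient (fun x => f x * g x) x‖ ≤ (a + b) * y := by
  constructor
  · rw [abs_mul]
    exact (mul_le_of_le_one_left (abs_nonneg _) f1.1).trans g1.1
  · rw [gradient_mul' (hf.differentiable (by simp)) (hg.differentiable (by simp))]
    refine (norm_add_le _ _).trans ?_
    rw [norm_smul, norm_smul]
    have a1 := (mul_le_of_le_one_left (norm_nonneg (gradient g x)) f1.1).trans g1.2
    have a2 := mul_le_mul g1.1 f1.2 (norm_nonneg _) ((abs_nonneg _).trans g1.1)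
    simp only [Real.norm_eq_abs]
    linarith

/-- A smooth step in the direction `e`. -/
noncomputable def stp (e : E) (c : ℝ) (x : E) : ℝ := smoothTransition (inner ℝ e x - c)

theorem stp_smooth (e : E) (c : ℝ) : ContDiff ℝ ∞ (stp e c) :=
  smoothTransition.contDiff.comp (lin_smooth e c)

theorem stp_bd {B : ℝ} (hB : ∀ s, |deriv smoothTransition s| ≤ B) {e : E} (he : ‖e‖ = 1) (c : ℝ)
    (x : E) : |stp e c x| ≤ 1 ∧ ‖gradient (stp e c) x‖ ≤ B :=
  ⟨st_abs _, (norm_grad_comp (lin_smooth e c) (lin_grad he c) st_diff x).trans (hB _)⟩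

/-- A smooth plateau in the direction `e`. -/
noncomputable def plat (e : E) (c w : ℝ) (x : E) : ℝ := stp e (c - w - 1) x * stp (-e) (-c - w - 1) x

theorem plat_smooth (e : E) (c w : ℝ) : ContDiff ℝ ∞ (plat e c w) :=
  (stp_smooth _ _).mul (stp_smooth _ _)

theorem plat_bd {B : ℝ} (hB : ∀ s, |deriv smoothTransition s| ≤ B) {e : E} (he : ‖e‖ = 1)
    (c w : ℝ) (x : E) : |plat e c w x| ≤ 1 ∧ ‖gradient (plat e c w) x‖ ≤ (B + B) * 1 :=
  grad_mul_le (stp_smooth _ _) (stp_smooth _ _) (stp_bd hB he _ x)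
    (by simpa only [mul_one] using stp_bd hB (by rw [norm_neg, he]) _ x)

theorem plat_nonneg (e : E) (c w : ℝ) (x : E) : 0 ≤ plat e c w x :=
  mul_nonneg (smoothTransition.nonneg _) (smoothTransition.nonneg _)

theorem plat_one {e x : E} {c w : ℝ} (h : |inner ℝ e x - c| < w) : plat e c w x = 1 := by
  obtain ⟨h1, h2⟩ := abs_lt.1 h
  unfold plat stp
  rw [inner_neg_left, smoothTransition.one_of_one_le (by linarith),
    smoothTransition.one_of_one_le (by linarith), one_mul]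

theorem plat_pos {e x : E} {c w : ℝ} : 0 < plat e c w x ↔ |inner ℝ e x - c| < w + 1 := by
  unfold plat stp
  rw [inner_neg_left, abs_lt]
  constructor
  · intro h
    constructor <;> by_contra H
    · rw [smoothTransition.zero_of_nonpos (by linarith [not_lt.1 H]), zero_mul] at h
      exact h.false
    · rw [smoothTransition.zero_of_nonpos (x := -inner ℝ e x - _) (by linarith [not_lt.1 H]),
        mul_zero] at h
      exact h.false
  · rintro ⟨h1, h2⟩
    exact mul_pos (smoothTransition.pos_of_pos (by linarith))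
      (smoothTransition.pos_of_pos (by linarith))

/-- A piece of the slab. -/
def piece (S : Set E) (e₀ e₁ : E) (c w L : ℝ) : Set E :=
  {x | x ∈ S ∧ |inner ℝ e₀ x - c| < w ∧ |inner ℝ e₁ x - 0| < L}

theorem isOpen_piece (hS : IsOpen S) (e₀ e₁ : E) (c w L : ℝ) : IsOpen (piece S e₀ e₁ c w L) := by
  have h1 : IsOpen {x : E | |inner ℝ e₀ x - c| < w} := isOpen_lt (by fun_prop) continuous_const
  have h2 : IsOpen {x : E | |inner ℝ e₁ x - 0| < L} := isOpen_lt (by fun_prop) continuous_const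
  exact hS.inter (h1.inter h2)

theorem piece_ball {C : ℝ} (hC : ∀ x ∈ S, ‖x‖ ≤ C + |inner ℝ e₀ x| + |inner ℝ e₁ x|)
    (c w L : ℝ) : piece S e₀ e₁ c w L ⊆ Metric.closedBall 0 (C + |c| + w + L) := fun x hx => by
  have h1 := abs_add_le (inner ℝ e₀ x - c) c
  have h2 := hx.2.2
  rw [sub_add_cancel] at h1
  rw [sub_zero] at h2
  rw [mem_closedBall_zero_iff]
  linarith [hC x hx.1, hx.2.1]

theorem Base.excess (h : Base μ S q m κ) (hF : Frame S e₀ e₁) (hT : Thin μ S q κ e₀ e₁ θ T) :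
    ∃ C C' : ℝ, 0 < C ∧ 0 ≤ C' ∧ ∀ c w L : ℝ, 0 ≤ w → 0 ≤ L → ∀ a,
      IsTest (piece S e₀ e₁ c w L) a → (∀ x, 0 ≤ a x) → lqNorm μ q a = 1 → dir μ a ≤ m + 1 →
        1 ≤ (dir μ a - m) * (C * (C' + |c| + w + L) ^ finrank ℝ E * exp (2 * κ * w)) := by
  obtain ⟨B, B1, hB⟩ := exists_B
  obtain ⟨j, j0, hj⟩ := h.theta hT
  obtain ⟨C, C0, hC⟩ := hT.bdd
  have κ0 := h.κ0
  have m0 := h.m0
  refine ⟨(μ.real (Metric.ball 0 1) + 1) * ((κ + (B + B + (B + B + κ))) * exp κ) ^ 2 / (m * j) ^ 2,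
    C + 2, by positivity, by positivity, fun c w L w0 L0 a ha a0 h1 hd => ?_⟩
  have hb : Bornology.IsBounded (piece S e₀ e₁ c (w + 1) (L + 1)) :=
    Metric.isBounded_closedBall.subset (piece_ball hC _ _ _)
  have ho := isOpen_piece hT.isOpen e₀ e₁ c (w + 1) (L + 1)
  have hξ : ContDiff ℝ ∞ fun x => cosh (κ * (inner ℝ e₀ x - c)) :=
    contDiff_cosh.comp (contDiff_const.mul (lin_smooth e₀ c))
  have s1 := plat_smooth e₀ c w
  have s2 := plat_smooth e₁ 0 L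
  obtain ⟨p, p0, p1, p2⟩ := mem_of_cut (μ := μ) hb ho
    (φ₀ := fun x => θ x * (plat e₀ c w x * plat e₁ 0 L x)) (hT.smooth.mul (s1.mul s2)) hξ
    (fun x hx => mul_pos (hT.pos x hx.1) (mul_pos (plat_pos.2 hx.2.1) (plat_pos.2 hx.2.2)))
    fun x hx H => by
      have k1 := plat_nonneg e₀ c w x
      have k2 := plat_nonneg e₁ 0 L x
      have k3 := right_ne_zero_of_mul H.ne'
      exact ⟨hT.cl x (closure_mono (fun y hy => hy.1) hx)
        (lt_of_not_ge fun k => absurd H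
          (not_lt.2 (mul_nonpos_of_nonpos_of_nonneg k (mul_nonneg k1 k2)))),
        plat_pos.1 (k1.lt_of_ne' (left_ne_zero_of_mul k3)),
        plat_pos.1 (k2.lt_of_ne' (right_ne_zero_of_mul k3))⟩
  have sub : piece S e₀ e₁ c w L ⊆ piece S e₀ e₁ c (w + 1) (L + 1) := fun x hx =>
    ⟨hx.1, by linarith [hx.2.1], by linarith [hx.2.2]⟩
  have haS : IsTest S a := ha.mono fun x hx => hx.1
  have loc : ∀ x ∈ piece S e₀ e₁ c w L, θ x * (plat e₀ c w x * plat e₁ 0 L x) *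
      cosh (κ * (inner ℝ e₀ x - c)) = θ x * cosh (κ * (inner ℝ e₀ x - c)) := fun x hx => by
    rw [plat_one hx.2.1, plat_one hx.2.2, mul_one, mul_one]
  obtain ⟨u, hu⟩ := (ha.mono sub).exists_rep μ
  have el := h.el_W hb (fun x hx => hx.1) u.2 p0 ((lqNorm_congr hu.1).trans h1)
  have e1 : inner ℝ (u : V μ).2 p.2 = 0 := by
    rw [← hT.harm e₀ (Or.inl rfl) c a haS, L2.inner_def]
    refine integral_congr_ae ?_
    filter_upwards [hu.2, p2] with x k1 k2
    rw [k1, k2]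
    by_cases hx : x ∈ piece S e₀ e₁ c w L
    · rw [indicator_of_mem (sub hx), EventuallyEq.gradient_eq
        (((isOpen_piece hT.isOpen e₀ e₁ c w L).eventually_mem hx).mono loc)]
    · have : gradient a x = 0 := by_contra fun H => hx (ha.support_gradient H)
      simp [this]
  have e2 : ∫ x, |(u : V μ).1 x| ^ (q - 2) * (u : V μ).1 x * p.1 x ∂μ =
      ∫ x, |a x| ^ (q - 2) * a x * (θ x * cosh (κ * (inner ℝ e₀ x - c))) ∂μ := by
    refine integral_congr_ae ?_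
    filter_upwards [hu.1, p1] with x k1 k2
    rw [k1, k2]
    by_cases hx : x ∈ piece S e₀ e₁ c w L
    · rw [indicator_of_mem (sub hx), loc x hx]
    · simp [ha.eq_zero hx]
  have e3 : j ≤ ∫ x, |a x| ^ (q - 2) * a x * (θ x * cosh (κ * (inner ℝ e₀ x - c))) ∂μ := by
    refine (hj a haS a0 h1 hd).trans (integral_mono (dual_int h.hq haS hT.smooth.continuous)
      (dual_int h.hq haS (hT.smooth.mul hξ).continuous) fun x => ?_)
    by_cases hx : x ∈ S
    · exact mul_le_mul_of_nonneg_left (le_mul_of_one_le_right (hT.pos x hx).le (one_le_cosh _))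
        (mul_nonneg (by positivity) (a0 x))
    · simp [haS.eq_zero hx]
  have e4 : ∀ x ∈ piece S e₀ e₁ c (w + 1) (L + 1), ‖gradient (fun x => θ x *
      (plat e₀ c w x * plat e₁ 0 L x) * cosh (κ * (inner ℝ e₀ x - c))) x‖ ≤
        (κ + (B + B + (B + B + κ))) * exp (κ * (w + 1)) := fun x hx => by
    have k1 : cosh (κ * (inner ℝ e₀ x - c)) ≤ exp (κ * (w + 1)) := by
      obtain ⟨b1, b2⟩ := abs_lt.1 hx.2.1
      have b3 : exp (κ * (inner ℝ e₀ x - c)) ≤ exp (κ * (w + 1)) := exp_le_exp.2 (by nlinarith)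
      have b4 : exp (-(κ * (inner ℝ e₀ x - c))) ≤ exp (κ * (w + 1)) := exp_le_exp.2 (by nlinarith)
      rw [cosh_eq]
      linarith
    have k2 : ‖gradient (fun x => cosh (κ * (inner ℝ e₀ x - c))) x‖ ≤ κ * exp (κ * (w + 1)) := by
      refine (norm_grad_comp (lin_smooth e₀ c) (lin_grad hF.n0 c) (f := fun t => cosh (κ * t))
        (by fun_prop) x).trans ?_
      have d : ∀ t, HasDerivAt (fun t => cosh (κ * t)) (sinh (κ * t) * κ) t := fun t => by
        simpa using ((hasDerivAt_id t).const_mul κ).cosh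
      rw [(d _).deriv, abs_mul, abs_of_pos κ0, mul_comm, abs_sinh]
      exact mul_le_mul_of_nonneg_left ((sinh_lt_cosh _).le.trans (by rwa [cosh_abs])) κ0.le
    have k3 := grad_mul_le hT.smooth (s1.mul (s2.mul hξ)) ⟨hT.le_one x, hT.grad x⟩
      (grad_mul_le s1 (s2.mul hξ) (by simpa only [mul_one] using plat_bd hB hF.n0 c w x)
        (grad_mul_le s2 hξ (by simpa only [mul_one] using plat_bd hB hF.n1 0 L x)
          ⟨by rwa [abs_of_pos (cosh_pos _)], k2⟩))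
    simpa only [mul_assoc] using k3.2
  have e5 : ‖p.2‖ ^ 2 ≤ μ.real (piece S e₀ e₁ c (w + 1) (L + 1)) *
      ((κ + (B + B + (B + B + κ))) * exp (κ * (w + 1))) ^ 2 := by
    rw [norm_sq_eq_integral, ← smul_eq_mul, ← integral_indicator_const _ ho.measurableSet]
    refine integral_mono_of_nonneg (Eventually.of_forall fun x => by positivity)
      ((integrableOn_const hb.measure_lt_top.ne).integrable_indicator ho.measurableSet)
      (p2.mono fun x hx => ?_)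
    dsimp only
    rw [hx]
    by_cases hx : x ∈ piece S e₀ e₁ c (w + 1) (L + 1)
    · rw [indicator_of_mem hx, indicator_of_mem hx]
      exact pow_le_pow_left₀ (norm_nonneg _) (e4 x hx) 2
    · simp [indicator_of_notMem hx]
  have e6 : μ.real (piece S e₀ e₁ c (w + 1) (L + 1)) ≤
      (C + 2 + |c| + w + L) ^ finrank ℝ E * (μ.real (Metric.ball 0 1) + 1) := by
    refine (measureReal_mono (piece_ball hC _ _ _) measure_closedBall_lt_top.ne).trans ?_
    rw [Measure.addHaar_real_closedBall _ _ (by positivity),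
      show C + |c| + (w + 1) + (L + 1) = C + 2 + |c| + w + L by ring]
    gcongr
    linarith
  have g0 : 0 ≤ dir μ a - m := by
    have := h.good a haS
    rw [h1] at this
    linarith
  rw [e1, e2, sub_zero, hu.norm_sq] at el
  have e7 := (pow_le_pow_left₀ (by positivity) (mul_le_mul_of_nonneg_left e3 m0.le) 2).trans
    (el.trans (mul_le_mul_of_nonneg_left (e5.trans
      (mul_le_mul_of_nonneg_right e6 (sq_nonneg _))) g0))
  rw [← one_le_div (by positivity)] at e7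
  refine e7.trans_eq ?_
  rw [mul_add κ, mul_one, exp_add, show 2 * κ * w = κ * w + κ * w by ring, exp_add]
  ring

end Pool.Agent.Lib.MP_eb4995_an.Sl
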