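import Mathlib
import Pool.Agent.Lib.MP_eb4995_an.Sl.Lower

/-!
Upper and lower bounds for the minimum over odd functions.
-/

set_option linter.unusedSectionVars false

namespace Pool.Agent.Lib.MP_eb4995_an.Sl

open MeasureTheory Set Filter Topology Module Cv Real
open scoped ContDiff

/-- An even smooth approximation of the absolute value that vanishes near zero. -/
noncomputable def ev (ε t : ℝ) : ℝ := tr ε (t - ε) + tr ε (-t - ε)

theorem ev_smooth (ε : ℝ) : ContDiff ℝ ∞ (ev ε) :=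
  ((tr_contDiff ε).comp (contDiff_id.sub contDiff_const)).add
    ((tr_contDiff ε).comp (contDiff_id.neg.sub contDiff_const))

theorem ev_neg (ε t : ℝ) : ev ε (-t) = ev ε t := by rw [ev, ev, neg_neg, add_comm]

theorem ev_bd {ε : ℝ} (hε : 0 < ε) (t : ℝ) :
    0 ≤ ev ε t ∧ ev ε t ≤ |t| ∧ |t| - 2 * ε ≤ ev ε t := by
  wlog h : 0 ≤ t generalizing t
  · have := this (-t) (by linarith)
    rwa [ev_neg, abs_neg] at this
  obtain ⟨a1, a2, a3⟩ := tr_bounds hε (t - ε)
  rw [ev, tr_of_nonpos hε (t := -t - ε) (by linarith), add_zero, abs_of_nonneg h]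
  exact ⟨a1, a2.trans (max_le (by linarith) h), by linarith [le_max_left (t - ε) 0]⟩

theorem ev_zero {ε t : ℝ} (hε : 0 < ε) (h : |t| ≤ ε) : ev ε t = 0 := by
  obtain ⟨h1, h2⟩ := abs_le.1 h
  rw [ev, tr_of_nonpos hε (by linarith), tr_of_nonpos hε (by linarith), add_zero]

theorem ev_deriv {ε : ℝ} (hε : 0 < ε) (t : ℝ) : deriv (ev ε) t ^ 2 ≤ 1 := by
  have hd : Differentiable ℝ (tr ε) := (tr_contDiff ε).differentiable (by simp)
  have d : HasDerivAt (ev ε) (deriv (tr ε) (t - ε) * 1 + deriv (tr ε) (-t - ε) * -1) t :=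
    (HasDerivAt.comp (h₂ := tr ε) (h := fun t => t - ε) t (hd _).hasDerivAt
      ((hasDerivAt_id t).sub_const ε)).add
      (HasDerivAt.comp (h₂ := tr ε) (h := fun t => -t - ε) t (hd _).hasDerivAt
        ((hasDerivAt_neg t).sub_const ε))
  rw [d.deriv]
  rcases le_total t 0 with h | h
  · rw [deriv_tr_of_nonpos hε (t := t - ε) (by linarith)]
    simpa using deriv_tr_sq_le hε (-t - ε)
  · rw [deriv_tr_of_nonpos hε (t := -t - ε) (by linarith)]
    simpa using deriv_tr_sq_le hε (t - ε)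

theorem tendsto_ev {α : Type} [MeasurableSpace α] {μ : Measure α} {q : ℝ} (hq : 0 < q)
    {u : α → ℝ} (hu : MemLp u (ENNReal.ofReal q) μ) :
    Tendsto (fun n : ℕ => lqNorm μ q fun x => ev (1 / ((n : ℝ) + 1)) (u x)) atTop
      (𝓝 (lqNorm μ q u)) := by
  have hpos : ∀ n : ℕ, (0 : ℝ) < 1 / ((n : ℝ) + 1) := fun n => by positivity
  have hum := hu.1.aemeasurable
  refine Tendsto.rpow_const ?_ (Or.inr (by positivity))
  refine tendsto_integral_of_dominated_convergence (fun x => |u x| ^ q) (fun n => ?_)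
    (integrable_rpow hq hu) (fun n => Eventually.of_forall fun x => ?_)
    (Eventually.of_forall fun x => ?_)
  · have := (ev_smooth (1 / ((n : ℝ) + 1))).continuous.measurable
    exact AEMeasurable.aestronglyMeasurable (by fun_prop)
  · obtain ⟨h1, h2, -⟩ := ev_bd (hpos n) (u x)
    rw [Real.norm_of_nonneg (by positivity), abs_of_nonneg h1]
    exact Real.rpow_le_rpow h1 h2 hq.le
  · refine Tendsto.rpow_const ?_ (Or.inr hq.le)
    have h3 : Tendsto (fun n : ℕ => |u x| - 2 * (1 / ((n : ℝ) + 1))) atTop (𝓝 (|u x| - 2 * 0)) :=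
      tendsto_const_nhds.sub (tendsto_one_div_add_atTop_nhds_zero_nat.const_mul 2)
    rw [mul_zero, sub_zero] at h3
    refine tendsto_of_tendsto_of_tendsto_of_le_of_le h3 tendsto_const_nhds
      (fun n => (ev_bd (hpos n) (u x)).2.2.trans (le_abs_self _)) fun n => ?_
    dsimp only
    rw [abs_of_nonneg (ev_bd (hpos n) (u x)).1]
    exact (ev_bd (hpos n) (u x)).2.1

theorem two_pow {q a b : ℝ} (hq : 0 < q) (a0 : 0 ≤ a) (b0 : 0 ≤ b) (h : b ^ q = 2 * a ^ q) :
    2 ^ (1 - 2 / q) * b ^ 2 = 2 * a ^ 2 := by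
  have e : ∀ x : ℝ, 0 ≤ x → (x ^ q) ^ (2 / q) = x ^ 2 := fun x hx => by
    rw [← rpow_mul hx, mul_div_cancel₀ _ hq.ne', rpow_two]
  rw [← e b b0, h, mul_rpow zero_le_two (rpow_nonneg a0 _), e a a0, ← mul_assoc,
    ← rpow_add two_pos, sub_add_cancel, rpow_one]

theorem balanced {α : Type} [MeasurableSpace α] {μ : Measure α} {q : ℝ} (hq : 0 < q) {u : α → ℝ}
    (hu : MemLp u (ENNReal.ofReal q) μ) (h1 : lqNorm μ q u = 1)
    (h : lqNorm μ q (fun x => max (-u x) 0) = lqNorm μ q fun x => max (u x) 0) :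
    0 < lqNorm μ q (fun x => max (u x) 0) ∧
      2 ^ (1 - 2 / q) = 2 * lqNorm μ q (fun x => max (u x) 0) ^ 2 := by
  have h2 : (1 : ℝ) ^ q = 2 * lqNorm μ q (fun x => max (u x) 0) ^ q := by
    rw [two_mul]
    nth_rewrite 2 [← h]
    rw [lqNorm_rpow hq, lqNorm_rpow hq, ← integral_add
      (integrable_rpow hq (isContr_pos.memLp hu)) (integrable_rpow hq (isContr_neg.memLp hu)),
      ← h1, lqNorm_rpow hq]
    refine integral_congr_ae (Eventually.of_forall fun x => ?_)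
    dsimp only
    rcases le_total (u x) 0 with h | h
    · rw [max_eq_right h, max_eq_left (neg_nonneg.2 h), abs_zero, zero_rpow hq.ne', abs_neg,
        zero_add]
    · rw [max_eq_left h, max_eq_right (neg_nonpos.2 h), abs_zero, zero_rpow hq.ne', add_zero]
  refine ⟨(lqNorm_nonneg _).lt_of_ne' fun H => ?_, ?_⟩
  · rw [H, zero_rpow hq.ne', one_rpow] at h2
    norm_num at h2
  · simpa using two_pow hq (lqNorm_nonneg _) zero_le_one h2

variable {E : Type} [NormedAddCommGroup E] [InnerProductSpace ℝ E] [CompleteSpace E]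
  [MeasurableSpace E] [BorelSpace E] [FiniteDimensional ℝ E]
  {μ : Measure E} [μ.IsAddHaarMeasure] {S Ω H : Set E} {q m m' κ : ℝ} {σ : E ≃ₗᵢ[ℝ] E}

theorem dir_smul {a : E → ℝ} (ha : Differentiable ℝ a) (c : ℝ) :
    dir μ (fun x => c * a x) = c ^ 2 * dir μ a := by
  unfold dir
  simp only [gradient_const_mul' ha, norm_smul, mul_pow, Real.norm_eq_abs, sq_abs,
    integral_const_mul]

theorem pair (hq : 0 < q) (hσ : Symm μ Ω σ) (hH : ∀ x ∈ H, σ x ∉ H) {a : E → ℝ}
    (ha : IsTest H a) {s : ℝ} (hs : |s| = 1) :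
    2 ^ (1 - 2 / q) * lqNorm μ q (fun x => a x + s * a (σ x)) ^ 2 = 2 * lqNorm μ q a ^ 2 ∧
      dir μ (fun x => a x + s * a (σ x)) = 2 * dir μ a := by
  have hb : IsTest univ fun x => a (σ x) :=
    test_comp (fun _ _ => mem_univ _) (ha.mono (subset_univ _))
  constructor
  · refine two_pow hq (lqNorm_nonneg _) (lqNorm_nonneg _) ?_
    rw [lqNorm_rpow hq, lqNorm_rpow hq, two_mul]
    nth_rewrite 3 [← int_comp hσ.1]
    rw [← integral_add (test_pow hq ha) (test_pow hq hb)]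
    refine integral_congr_ae (Eventually.of_forall fun x => ?_)
    by_cases hx : x ∈ H
    · simp [ha.eq_zero (hH x hx), hq.ne']
    · simp [ha.eq_zero hx, hq.ne', abs_mul, hs]
  · unfold dir
    have e : ∀ x, ‖gradient (fun x => a (σ x)) x‖ = ‖gradient a (σ x)‖ := fun x => by
      rw [gradient_comp_iso hσ.2.1 ha.differentiable, σ.norm_map]
    have z : ∀ x ∉ H, gradient a x = 0 := fun x hx => by_contra fun h => hx (ha.support_gradient h)
    rw [two_mul]
    nth_rewrite 3 [← int_comp hσ.1]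
    rw [← integral_add ha.integrable_sq_gradient
      (by simpa only [e] using hb.integrable_sq_gradient (μ := μ))]
    refine integral_congr_ae (Eventually.of_forall fun x => ?_)
    dsimp only
    rw [gradient_add' ha.differentiable (hb.smul s).differentiable,
      gradient_const_mul' hb.differentiable, gradient_comp_iso hσ.2.1 ha.differentiable]
    by_cases hx : x ∈ H
    · simp [z _ (hH x hx)]
    · simp [z _ hx, norm_smul, hs]

theorem odd_test (hq : 0 < q) (hσ : Symm μ Ω σ) (ho : IsOpen H) (hH : ∀ x ∈ H, σ x ∉ H)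
    (hc : ∀ x ∈ Ω, x ∈ H ∨ σ x ∈ H ∨ σ x = x)
    (hm : ∀ a, IsTest H a → (∀ x, 0 ≤ a x) → m' * lqNorm μ q a ^ 2 ≤ dir μ a) {ψ : E → ℝ}
    (hψ : IsTest Ω ψ) (hodd : ∀ x, ψ (σ x) = -ψ x) :
    m' * (2 ^ (1 - 2 / q) * lqNorm μ q ψ ^ 2) ≤ dir μ ψ := by
  refine le_of_tendsto' ((((tendsto_ev hq (hψ.memLp (μ := μ) _)).pow 2).const_mul _).const_mul m')
    fun n => ?_
  set ε : ℝ := 1 / ((n : ℝ) + 1)
  have hε : 0 < ε := by positivity
  have hA := hψ.comp_left (ev_smooth ε) (ev_zero hε (by simpa using hε.le))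
  have ho' : IsOpen (σ ⁻¹' H) := ho.preimage σ.continuous
  let K : Set E := (tsupport ψ ∩ {x | ε ≤ |ψ x|}) ∩ (σ ⁻¹' H)ᶜ
  have hc1 : IsClosed {x | ε ≤ |ψ x|} := isClosed_le continuous_const hψ.continuous.abs
  have hK : IsCompact K := (hψ.2.1.isCompact.inter_right hc1).inter_right ho'.isClosed_compl
  have hKH : K ⊆ H := fun x hx => by
    rcases hc x (hψ.2.2 hx.1.1) with h | h | h
    · exact h
    · exact absurd h hx.2
    · have h1 := hodd x
      have h2 : ε ≤ |ψ x| := hx.1.2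
      rw [h] at h1
      rw [show ψ x = 0 by linarith, abs_zero] at h2
      linarith
  have hz : ∀ x ∉ K, H.indicator (fun x => ev ε (ψ x)) x = 0 := fun x hx => by
    by_cases h : x ∈ H
    · rw [indicator_of_mem h]
      refine ev_zero hε (le_of_not_gt fun h' => hx ⟨⟨subset_tsupport _ fun h0 => ?_, h'.le⟩, hH x h⟩)
      rw [h0, abs_zero] at h'
      linarith
    · exact indicator_of_notMem h _
  have ha : IsTest H (H.indicator fun x => ev ε (ψ x)) := by
    refine ⟨contDiff_iff_contDiffAt.2 fun x => ?_, HasCompactSupport.intro hK hz,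
      (closure_minimal (Function.support_subset_iff'.2 hz) hK.isClosed).trans hKH⟩
    by_cases h : x ∈ H
    · exact hA.1.contDiffAt.congr_of_eventuallyEq
        ((ho.eventually_mem h).mono fun y hy => indicator_of_mem hy _)
    · exact (contDiffAt_const (c := (0 : ℝ))).congr_of_eventuallyEq
        ((hK.isClosed.isOpen_compl.eventually_mem fun H => h (hKH H)).mono fun y hy => hz y hy)
  obtain ⟨p1, p2⟩ := pair (q := q) hq hσ hH ha abs_one
  have e : (fun x => H.indicator (fun x => ev ε (ψ x)) x +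
      1 * H.indicator (fun x => ev ε (ψ x)) (σ x)) = fun x => ev ε (ψ x) := by
    funext x
    by_cases h : x ∈ H
    · rw [indicator_of_mem h, indicator_of_notMem (hH x h), mul_zero, add_zero]
    by_cases h' : σ x ∈ H
    · rw [indicator_of_notMem h, indicator_of_mem h', hodd, ev_neg, one_mul, zero_add]
    · rw [indicator_of_notMem h, indicator_of_notMem h', mul_zero, add_zero]
      refine (ev_zero hε (le_of_not_gt fun k => h (hKH ⟨⟨subset_tsupport _ fun h0 => ?_, k.le⟩,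
        h'⟩))).symm
      rw [h0, abs_zero] at k
      linarith
  rw [e] at p1 p2
  have a1 := hm _ ha fun x => indicator_nonneg (fun y _ => (ev_bd hε _).1) x
  have a2 : dir μ (fun x => ev ε (ψ x)) ≤ dir μ ψ := by
    refine integral_mono hA.integrable_sq_gradient hψ.integrable_sq_gradient fun x => ?_
    dsimp only
    rw [gradient_comp' hψ.differentiable ((ev_smooth ε).differentiable (by simp)), norm_smul,
      mul_pow, Real.norm_eq_abs, sq_abs]
    exact mul_le_of_le_one_left (by positivity) (ev_deriv hε _)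
  rw [p1]
  linarith

theorem rep_act (hσ : Symm μ Ω σ) {p : V μ} {φ : E → ℝ} (hφ : IsTest Ω φ) (hp : Rep p φ) :
    Rep (act hσ.1 p) fun x => φ (σ x) := by
  constructor
  · filter_upwards [act_fst hσ.1 p, hσ.1.quasiMeasurePreserving.ae hp.1] with x e1 e2
    rw [e1, e2]
  · filter_upwards [act_snd hσ.1 p, hσ.1.quasiMeasurePreserving.ae hp.2] with x e1 e2
    rw [e1, e2, gradient_comp_iso hσ.2.1 hφ.differentiable]

theorem act_mem (hσ : Symm μ Ω σ) (p : W μ Ω) : act hσ.1 (p : V μ) ∈ W μ Ω :=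
  W_induction (P := fun p : W μ Ω => act hσ.1 (p : V μ) ∈ W μ Ω)
    ((Submodule.isClosed_topologicalClosure _).preimage
      ((act hσ.1).continuous.comp continuous_subtype_val))
    (fun _ _ hφ hp => graph_le_W ⟨_, test_comp hσ.2.2 hφ, rep_act hσ hφ hp⟩) p

theorem Base.odd_lower (h : Base μ S q m κ) (hb : Bornology.IsBounded Ω) (hσ : Symm μ Ω σ)
    (ho : IsOpen H) (hH : ∀ x ∈ H, σ x ∉ H) (hc : ∀ x ∈ Ω, x ∈ H ∨ σ x ∈ H ∨ σ x = x)
    (hm : ∀ a, IsTest H a → (∀ x, 0 ≤ a x) → m' * lqNorm μ q a ^ 2 ≤ dir μ a) {p : V μ}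
    (hp : p ∈ W μ Ω) (hodd : Odd σ p) (h1 : lqNorm μ q p.1 = 1) :
    m' * 2 ^ (1 - 2 / q) ≤ ‖p.2‖ ^ 2 := by
  have := fact_q h.hq
  obtain ⟨J, hJ⟩ := exists_embedding (μ := μ) hb h.hN h.hq.le h.hq'
  have hT : Continuous fun p : W μ Ω => (⟨(p : V μ) + (-1 : ℝ) • act hσ.1 p,
      (W μ Ω).add_mem p.2 ((W μ Ω).smul_mem _ (act_mem hσ p))⟩ : W μ Ω) :=
    Continuous.subtype_mk (by fun_prop) _
  have key := W_induction (P := fun p : W μ Ω => m' * (2 ^ (1 - 2 / q) * lqNorm μ q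
      ((p : V μ) + (-1 : ℝ) • act hσ.1 p).1 ^ 2) ≤ ‖((p : V μ) + (-1 : ℝ) • act hσ.1 p).2‖ ^ 2)
    (isClosed_le (((((continuous_lqNorm J h.q0 hJ).comp hT).pow 2).const_mul _).const_mul _)
      (by fun_prop)) (fun p φ hφ hp => ?_) ⟨p, hp⟩
  · have e : p + (-1 : ℝ) • act hσ.1 p = (2 : ℝ) • p := by
      rw [(odd_iff hσ.1 p).1 hodd]; module
    dsimp only at key
    rw [e, smul_sq2, Prod.smul_fst, lqNorm_congr (Lp.coeFn_smul _ _)] at key
    have e2 := lqNorm_smul (μ := μ) h.q0 2 p.1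
    rw [h1] at e2
    rw [show lqNorm μ q ((2 : ℝ) • ⇑p.1) = |2| * 1 from e2] at key
    norm_num at key
    linarith
  · have r := rep_act hσ hφ hp
    have t := test_comp hσ.2.2 hφ
    have r2 : Rep ((p : V μ) + (-1 : ℝ) • act hσ.1 p) fun x => φ x + -1 * φ (σ x) := by
      constructor
      · filter_upwards [Lp.coeFn_add (p : V μ).1 ((-1 : ℝ) • (act hσ.1 p).1),
          Lp.coeFn_smul (-1 : ℝ) (act hσ.1 p).1, hp.1, r.1] with x e1 e2 e3 e4
        rw [Prod.fst_add, Prod.smul_fst, e1, Pi.add_apply, e2, Pi.smul_apply, e3, e4, smul_eq_mul]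
      · filter_upwards [Lp.coeFn_add (p : V μ).2 ((-1 : ℝ) • (act hσ.1 p).2),
          Lp.coeFn_smul (-1 : ℝ) (act hσ.1 p).2, hp.2, r.2] with x e1 e2 e3 e4
        rw [Prod.snd_add, Prod.smul_snd, e1, Pi.add_apply, e2, Pi.smul_apply, e3, e4,
          gradient_add' hφ.differentiable (t.smul (-1)).differentiable,
          gradient_const_mul' t.differentiable]
    rw [r2.norm_sq, lqNorm_congr r2.1]
    exact odd_test h.q0 hσ ho hH hc hm (hφ.add (t.smul (-1))) fun x => by rw [hσ.2.1]; ring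

theorem Base.odd_val (h : Base μ S q m κ) (hb : Bornology.IsBounded Ω) (ho : IsOpen Ω)
    (hΩ : Ω ⊆ S) (hσ : Symm μ Ω σ) (hH : ∀ x ∈ H, σ x ∉ H) (hHΩ : H ⊆ Ω) {φ : E → ℝ}
    (hφ : IsTest H φ) (h1 : lqNorm μ q φ = 1) :
    ∃ p ∈ W μ Ω, Odd σ p ∧ lqNorm μ q p.1 = 1 ∧ ‖p.2‖ ^ 2 ∈ spec μ Ω q ∧
      m * 2 ^ (1 - 2 / q) ≤ ‖p.2‖ ^ 2 ∧ ‖p.2‖ ^ 2 ≤ dir μ φ * 2 ^ (1 - 2 / q) := by
  have q0 := h.q0
  obtain ⟨p1, p2⟩ := pair q0 hσ hH hφ (s := -1) (by simp)
  have hψ := (hφ.mono hHΩ).add ((test_comp hσ.2.2 (hφ.mono hHΩ)).smul (-1))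
  rw [h1] at p1
  set N := lqNorm μ q fun x => φ x + -1 * φ (σ x) with hN
  have N0 : 0 < N := (lqNorm_nonneg _).lt_of_ne' fun H => by
    rw [show N = 0 from H] at p1
    norm_num at p1
  obtain ⟨u, hu⟩ := (hψ.smul N⁻¹).exists_rep μ
  have o : ∀ x, N⁻¹ * (φ (σ x) + -1 * φ (σ (σ x))) = -(N⁻¹ * (φ x + -1 * φ (σ x))) := fun x => by
    rw [hσ.2.1]; ring
  obtain ⟨p, w, od, n1, sp, le⟩ := exists_odd_min h.hN h.hq h.hq' hb ho hσ.1 hσ.2.1 hσ.2.2 u.2
    (odd_of_ae hσ.1 hu.1 hu.2 o (gradient_odd hσ.2.1 (hψ.smul N⁻¹).differentiable o))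
    (by rw [lqNorm_congr hu.1, lqNorm_smul q0, ← hN, abs_of_pos (inv_pos.2 N0),
      inv_mul_cancel₀ N0.ne'])
  refine ⟨p, w, od, n1, sp, ?_, le.trans_eq ?_⟩
  · have := fact_q h.hq
    obtain ⟨J, hJ⟩ := exists_embedding (μ := μ) hb h.hN h.hq.le h.hq'
    have e : lqNorm μ q (fun x => max (-p.1 x) 0) = lqNorm μ q fun x => max (p.1 x) 0 := by
      unfold lqNorm
      rw [← int_comp hσ.1 fun x => |max (p.1 x) 0| ^ q]
      congr 1
      exact integral_congr_ae (od.1.mono fun x hx => by simp only [hx])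
    have b1 := parts_W J q0 hJ (good_mono h.good hΩ) ⟨p, w⟩
    dsimp only at b1
    rw [e] at b1
    rw [(balanced q0 (h.memLp hb w) n1 e).2]
    linarith
  · rw [hu.norm_sq, dir_smul hψ.differentiable, p2]
    generalize (2 : ℝ) ^ (1 - 2 / q) = c at p1
    field_simp
    linear_combination (-dir μ φ) * p1

end Pool.Agent.Lib.MP_eb4995_an.Sl
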