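import Mathlib
import Pool.Agent.Lib.MP_eb4995_an.Sl.Odd

/-!
Two nonnegative almost minimizers with disjoint supports cannot concentrate at the same place.
-/

set_option linter.unusedSectionVars false

namespace Pool.Agent.Lib.MP_eb4995_an.Sl

open MeasureTheory Set Filter Topology Module Cv Real
open scoped ContDiff

variable {E : Type} [NormedAddCommGroup E] [InnerProductSpace ℝ E] [CompleteSpace E]
  [MeasurableSpace E] [BorelSpace E] [FiniteDimensional ℝ E]
  {μ : Measure E} [μ.IsAddHaarMeasure] {S : Set E} {q m κ : ℝ} {e₀ e₁ : E} {θ T : E → ℝ}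

theorem seg {v G : E → ℝ} (hv : ContDiff ℝ ∞ v) {Q A B : Set E} (hQ : Convex ℝ Q)
    (mA : MeasurableSet A) (mB : MeasurableSet B) (hA : A ⊆ Q) (hB : B ⊆ Q) {d α β : ℝ}
    (d0 : 0 ≤ d) (hd : ∀ x ∈ Q, ∀ y ∈ Q, ‖x - y‖ ≤ d) (Gc : Continuous G) (G0 : ∀ x, 0 ≤ G x)
    (Gi : Integrable G μ) (hG : ∀ x ∈ Q, ‖gradient v x‖ ≤ G x) (h1 : ∀ x ∈ A, α ≤ v x)
    (h2 : ∀ y ∈ B, v y ≤ β) (hαβ : β ≤ α) :
    (α - β) * (μ.real A * μ.real B) ≤ d * (∫ x, G x ∂μ) * μ.real (Metric.closedBall 0 d) := by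
  have mD : MeasurableSet {z : E × E | z.2 ∈ B ∧ z.2 + z.1 ∈ A} :=
    (measurable_snd mB).inter ((measurable_snd.add measurable_fst) mA)
  have a1 : (μ.prod μ) {z : E × E | z.2 ∈ B ∧ z.2 + z.1 ∈ A} = μ A * μ B := by
    rw [Measure.prod_apply_symm mD, ← lintegral_indicator_const mB]
    refine lintegral_congr fun y => ?_
    by_cases hy : y ∈ B
    · rw [indicator_of_mem hy, ← measure_preimage_add μ y A]
      congr 1
      ext h
      simp [hy]
    · rw [indicator_of_notMem hy]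
      simp [hy]
  have a2 : ∀ h, ENNReal.ofReal (α - β) * μ (Prod.mk h ⁻¹' {z : E × E | z.2 ∈ B ∧ z.2 + z.1 ∈ A}) ≤
      (Metric.closedBall 0 d).indicator (fun _ => ENNReal.ofReal (d * ∫ x, G x ∂μ)) h := by
    intro h
    by_cases hh : h ∈ Metric.closedBall (0 : E) d
    swap
    · have : Prod.mk h ⁻¹' {z : E × E | z.2 ∈ B ∧ z.2 + z.1 ∈ A} = ∅ :=
        eq_empty_of_forall_notMem fun y hy => hh (by
          simpa using hd _ (hA hy.2) _ (hB hy.1))
      simp [this]
    have mF : Measurable (Function.uncurry fun (y : E) (t : ℝ) =>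
        ENNReal.ofReal (d * G (y + t • h))) :=
      ENNReal.measurable_ofReal.comp (Continuous.measurable (by fun_prop))
    rw [indicator_of_mem hh, ← setLIntegral_const]
    refine (setLIntegral_mono' (measurable_prodMk_left mD) (g := fun y =>
      ∫⁻ t in Icc (0 : ℝ) 1, ENNReal.ofReal (d * G (y + t • h))) fun y hy => ?_).trans
      ((setLIntegral_le_lintegral _ _).trans (le_of_eq ?_))
    · have c1 : ContDiff ℝ 1 fun t : ℝ => v (y + t • h) :=
        (hv.of_le (by simp)).comp (by fun_prop)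
      have b1 := enorm_sub_le_lintegral_deriv_of_contDiffOn_Icc c1.contDiffOn zero_le_one
      simp only [one_smul, zero_smul, add_zero] at b1
      refine le_trans ?_ (b1.trans (setLIntegral_mono' measurableSet_Icc fun t ht => ?_))
      · rw [← ofReal_norm]
        exact ENNReal.ofReal_le_ofReal (le_trans (by linarith [h1 _ hy.2, h2 _ hy.1])
          (le_norm_self _))
      · have k1 : HasDerivAt (fun t : ℝ => y + t • h) h t := by
          simpa using ((hasDerivAt_id t).smul_const h).const_add y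
        have k2 : HasDerivAt (fun t : ℝ => v (y + t • h)) (fderiv ℝ v (y + t • h) h) t :=
          (hv.differentiable (by simp) _).hasFDerivAt.comp_hasDerivAt t k1
        rw [k2.deriv, ← ofReal_norm]
        refine ENNReal.ofReal_le_ofReal (((fderiv ℝ v _).le_opNorm h).trans ?_)
        rw [mul_comm, ← norm_gradient]
        exact mul_le_mul (mem_closedBall_zero_iff.1 hh)
          (hG _ (hQ.add_smul_mem (hB hy.1) (hA hy.2) ht)) (norm_nonneg _) d0
    · rw [lintegral_lintegral_swap mF.aemeasurable]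
      simp only [lintegral_add_right_eq_self fun y => ENNReal.ofReal (d * G y)]
      rw [setLIntegral_const, volume_Icc, ← integral_const_mul,
        ofReal_integral_eq_lintegral_ofReal (Gi.const_mul d)
          (Eventually.of_forall fun x => mul_nonneg d0 (G0 x))]
      simp
  have a3 := lintegral_mono (μ := μ) a2
  rw [lintegral_const_mul' _ _ ENNReal.ofReal_ne_top, ← Measure.prod_apply mD, a1,
    lintegral_indicator_const measurableSet_closedBall] at a3
  have a4 := ENNReal.toReal_mono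
    (ENNReal.mul_ne_top ENNReal.ofReal_ne_top measure_closedBall_lt_top.ne) a3
  rwa [ENNReal.toReal_mul, ENNReal.toReal_mul, ENNReal.toReal_mul,
    ENNReal.toReal_ofReal (sub_nonneg.2 hαβ),
    ENNReal.toReal_ofReal (mul_nonneg d0 (integral_nonneg G0))] at a4

theorem Base.log_est (h : Base μ S q m κ) {η : E → ℝ} (hη : IsTest S η) (η1 : ∀ x, |η x| ≤ 1)
    {δ : ℝ} (δ0 : 0 < δ) : ∃ γ : ℝ, 0 < γ ∧ ∀ a, IsTest S a → (∀ x, 0 ≤ a x) →
      lqNorm μ q a = 1 → dir μ a ≤ m + γ →
        ∫ x, η x ^ 2 * ‖gradient (fun x => log (a x + δ)) x‖ ^ 2 ∂μ ≤ 4 * dir μ η + 2 := by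
  have m0 := h.m0
  have D0 := dir_nonneg μ η
  obtain ⟨K, hK⟩ : ∃ K, K = δ⁻¹ ^ 2 * (8 * dir μ η + 2 * δ⁻¹ ^ 2 * (m + 1)) := ⟨_, rfl⟩
  have K0 : 0 < K := by rw [hK]; positivity
  refine ⟨min 1 K⁻¹, by positivity, fun a ha a0 h1 hd => ?_⟩
  have p : ∀ x, 0 < a x + δ := fun x => by linarith [a0 x]
  have hw : ContDiff ℝ ∞ fun x => (a x + δ)⁻¹ := (ha.1.add contDiff_const).inv fun x => (p x).ne'
  have hv : ContDiff ℝ ∞ fun x => log (a x + δ) := (ha.1.add contDiff_const).log fun x => (p x).ne'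
  have da := fun x => (ha.differentiable x).hasFDerivAt.add_const δ
  have gv : ∀ x, gradient (fun x => log (a x + δ)) x = (a x + δ)⁻¹ • gradient a x := fun x => by
    simp only [gradient]
    rw [((da x).log (p x).ne').fderiv, map_smul]
  have gw : ∀ x, gradient (fun x => (a x + δ)⁻¹) x = (-((a x + δ) ^ 2)⁻¹) • gradient a x :=
    fun x => by
      have d : HasFDerivAt (fun x => (a x + δ)⁻¹) ((-((a x + δ) ^ 2)⁻¹) • fderiv ℝ a x) x :=
        (hasDerivAt_inv (p x).ne').comp_hasFDerivAt x (da x)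
      simp only [gradient]
      rw [d.fderiv, map_smul]
  have t1 := hη.mul_left hη.1
  have hΦ := t1.mul_left hw
  have gΦ : ∀ x, gradient (fun x => (a x + δ)⁻¹ * (η x * η x)) x = (η x * (a x + δ)⁻¹) •
      ((2 : ℝ) • gradient η x - (η x * (a x + δ)⁻¹) • gradient a x) := fun x => by
    rw [gradient_mul' (hw.differentiable (by simp)) t1.differentiable, gw,
      gradient_mul' hη.differentiable hη.differentiable, ← inv_pow]
    module
  have w1 : ∀ x, |η x * (a x + δ)⁻¹| ≤ δ⁻¹ := fun x => by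
    rw [abs_mul, abs_of_pos (inv_pos.2 (p x))]
    exact (mul_le_of_le_one_left (inv_pos.2 (p x)).le (η1 x)).trans
      (inv_anti₀ δ0 (by linarith [a0 x]))
  have i1 := hη.integrable_sq_gradient (μ := μ)
  have i2 := ha.integrable_sq_gradient (μ := μ)
  have i3 : Integrable (fun x => η x ^ 2 * ‖gradient (fun x => log (a x + δ)) x‖ ^ 2) μ :=
    test_sq_mul hη ((continuous_grad hv).norm.pow 2)
  have b1 : dir μ (fun x => (a x + δ)⁻¹ * (η x * η x)) ≤ ∫ x, δ⁻¹ ^ 2 *
      (8 * ‖gradient η x‖ ^ 2 + 2 * δ⁻¹ ^ 2 * ‖gradient a x‖ ^ 2) ∂μ := by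
    refine integral_mono hΦ.integrable_sq_gradient
      (((i1.const_mul _).add (i2.const_mul _)).const_mul _) fun x => ?_
    dsimp only
    rw [gΦ, norm_smul, mul_pow]
    refine mul_le_mul (pow_le_pow_left₀ (abs_nonneg _) (w1 x) 2) ?_ (by positivity) (by positivity)
    have k1 : ‖(2 : ℝ) • gradient η x - (η x * (a x + δ)⁻¹) • gradient a x‖ ≤
        2 * ‖gradient η x‖ + δ⁻¹ * ‖gradient a x‖ := by
      refine (norm_sub_le _ _).trans ?_
      rw [norm_smul, norm_smul, Real.norm_two]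
      exact add_le_add le_rfl (mul_le_mul_of_nonneg_right (w1 x) (norm_nonneg _))
    refine (pow_le_pow_left₀ (norm_nonneg _) k1 2).trans ?_
    linarith [sq_nonneg (2 * ‖gradient η x‖ - δ⁻¹ * ‖gradient a x‖)]
  rw [integral_const_mul, integral_add (i1.const_mul _) (i2.const_mul _), integral_const_mul,
    integral_const_mul] at b1
  have b2 : dir μ (fun x => (a x + δ)⁻¹ * (η x * η x)) ≤ K := by
    refine b1.trans ?_
    rw [hK]
    have : dir μ a ≤ m + 1 := hd.trans (by linarith [min_le_left 1 K⁻¹])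
    unfold dir at this ⊢
    gcongr
  have b3 := (h.el ha hΦ h1).trans (mul_le_mul (show dir μ a - m ≤ K⁻¹ by
    linarith [min_le_right 1 K⁻¹]) b2 (dir_nonneg _ _) (by positivity))
  rw [inv_mul_cancel₀ K0.ne', sq_le_one_iff_abs_le_one] at b3
  have b4 : 0 ≤ m * ∫ x, |a x| ^ (q - 2) * a x * ((a x + δ)⁻¹ * (η x * η x)) ∂μ :=
    mul_nonneg m0.le (integral_nonneg fun x => mul_nonneg (mul_nonneg (by positivity) (a0 x))
      (mul_nonneg (inv_pos.2 (p x)).le (mul_self_nonneg _)))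
  have b5 : ∫ x, inner ℝ (gradient a x) (gradient (fun x => (a x + δ)⁻¹ * (η x * η x)) x) ∂μ ≤
      ∫ x, (2 * ‖gradient η x‖ ^ 2 -
        1 / 2 * (η x ^ 2 * ‖gradient (fun x => log (a x + δ)) x‖ ^ 2)) ∂μ := by
    refine integral_mono (test_inner ha hΦ.1) ((i1.const_mul _).sub (i3.const_mul _)) fun x => ?_
    dsimp only
    have k1 := sq_nonneg ‖(2 : ℝ) • gradient η x - (η x * (a x + δ)⁻¹) • gradient a x‖
    rw [norm_sub_sq_real] at k1
    rw [gΦ, gv]
    simp only [inner_smul_right, inner_smul_left, inner_sub_right, norm_smul, mul_pow,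
      Real.norm_eq_abs, sq_abs, real_inner_self_eq_norm_sq, conj_trivial,
      real_inner_comm (gradient η x)] at k1 ⊢
    linarith
  rw [integral_sub (i1.const_mul _) (i3.const_mul _), integral_const_mul, integral_const_mul] at b5
  have b6 := (abs_le.1 b3).2
  unfold dir
  linarith

theorem Base.big (h : Base μ S q m κ) (hT : Thin μ S q κ e₀ e₁ θ T) (R : ℝ) :
    ∃ (Q : Set E) (s ν : ℝ), IsCompact Q ∧ Convex ℝ Q ∧ Q ⊆ S ∧ 0 < s ∧ 0 < ν ∧
      ∀ a, IsTest S a → (∀ x, 0 ≤ a x) → lqNorm μ q a = 1 → dir μ a ≤ m + 1 →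
        ∫ x in {x | R < |inner ℝ e₀ x|}, |a x| ^ q ∂μ ≤ 1 / 16 →
        ∫ x in {x | R < |inner ℝ e₁ x|}, |a x| ^ q ∂μ ≤ 1 / 16 →
          ν ≤ μ.real (Q ∩ {x | s < a x}) := by
  obtain ⟨Λ, T₀, Λ0, H⟩ := h.bad hT (ε := 1 / 8) (by norm_num)
  obtain ⟨Q, Q1, Q2, Q3, Q4⟩ := hT.core T₀ R
  have q0 := h.q0
  have p : 0 < 4 * (μ.real Q + 1) := by positivity
  refine ⟨Q, (4 * (μ.real Q + 1))⁻¹ ^ q⁻¹, 1 / 2 / Λ ^ q, Q1, Q2, Q3, by positivity, by positivity,
    fun a ha a0 h1 hd f0 f1 => ?_⟩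
  set s := (4 * (μ.real Q + 1))⁻¹ ^ q⁻¹
  have hs : s ^ q = (4 * (μ.real Q + 1))⁻¹ := rpow_inv_rpow (by positivity) q0.ne'
  obtain ⟨g, g1, g0, g2, g3⟩ := H a ha hd
  have m0 : MeasurableSet {x : E | R < |inner ℝ e₀ x|} :=
    (isOpen_lt continuous_const (by fun_prop)).measurableSet
  have m1 : MeasurableSet {x : E | R < |inner ℝ e₁ x|} :=
    (isOpen_lt continuous_const (by fun_prop)).measurableSet
  have m2 : MeasurableSet (Q ∩ {x | s < a x}) :=
    Q1.measurableSet.inter (isOpen_lt continuous_const ha.continuous).measurableSet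
  have i := test_pow (μ := μ) q0 ha
  have i0 := i.indicator m0
  have i1 := i.indicator m1
  have i2 : Integrable (Q.indicator fun _ => s ^ q) μ :=
    (integrableOn_const Q1.measure_lt_top.ne).integrable_indicator Q1.measurableSet
  have i3 : Integrable ((Q ∩ {x | s < a x}).indicator fun _ => Λ ^ q) μ :=
    (integrableOn_const ((measure_mono inter_subset_left).trans_lt
      Q1.measure_lt_top).ne).integrable_indicator m2
  have key := integral_mono i ((((i0.add i1).add g1).add i2).add i3) fun x => by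
    have p0 : 0 ≤ {x : E | R < |inner ℝ e₀ x|}.indicator (fun x => |a x| ^ q) x :=
      indicator_nonneg (fun _ _ => by positivity) x
    have p1 : 0 ≤ {x : E | R < |inner ℝ e₁ x|}.indicator (fun x => |a x| ^ q) x :=
      indicator_nonneg (fun _ _ => by positivity) x
    have p2 : 0 ≤ Q.indicator (fun _ => s ^ q) x := indicator_nonneg (fun _ _ => by positivity) x
    have p3 : 0 ≤ (Q ∩ {x | s < a x}).indicator (fun _ => Λ ^ q) x :=
      indicator_nonneg (fun _ _ => by positivity) x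
    have p4 := g0 x
    dsimp only [Pi.add_apply]
    by_cases hx : x ∈ S
    swap
    · have : |a x| ^ q = 0 := by rw [ha.eq_zero hx, abs_zero, zero_rpow q0.ne']
      linarith
    by_cases k0 : x ∈ {x : E | R < |inner ℝ e₀ x|}
    · rw [indicator_of_mem k0]; linarith
    by_cases k1 : x ∈ {x : E | R < |inner ℝ e₁ x|}
    · rw [indicator_of_mem k1]; linarith
    rcases g3 x with ⟨k2, k3⟩ | k
    · have hQ := Q4 x hx (not_lt.1 k0) (not_lt.1 k1) k3
      rcases le_or_gt (a x) s with k4 | k4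
      · have := rpow_le_rpow (abs_nonneg _) ((abs_of_nonneg (a0 x)).trans_le k4) q0.le
        rw [indicator_of_mem hQ]; linarith
      · have := rpow_le_rpow (abs_nonneg _) k2 q0.le
        rw [indicator_of_mem (show x ∈ Q ∩ {x | s < a x} from ⟨hQ, k4⟩)]; linarith
    · linarith
  rw [mass_one q0 h1, integral_add' (((i0.add i1).add g1).add i2) i3,
    integral_add' ((i0.add i1).add g1) i2, integral_add' (i0.add i1) g1, integral_add' i0 i1,
    integral_indicator m0, integral_indicator m1, integral_indicator_const _ Q1.measurableSet,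
    integral_indicator_const _ m2, smul_eq_mul, smul_eq_mul, hs] at key
  have b1 : μ.real Q * (4 * (μ.real Q + 1))⁻¹ ≤ 1 / 4 := by
    rw [← div_eq_mul_inv, div_le_iff₀ p]; linarith
  rw [div_le_iff₀ (by positivity)]
  linarith

theorem Base.apart (h : Base μ S q m κ) (hT : Thin μ S q κ e₀ e₁ θ T) (R : ℝ) :
    ∃ γ : ℝ, 0 < γ ∧ ∀ a b, IsTest S a → IsTest S b → (∀ x, 0 ≤ a x) → (∀ x, 0 ≤ b x) →
      lqNorm μ q a = 1 → lqNorm μ q b = 1 → dir μ a ≤ m + γ → dir μ b ≤ m + γ →
      ∫ x in {x | R < |inner ℝ e₀ x|}, |a x| ^ q ∂μ ≤ 1 / 16 →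
      ∫ x in {x | R < |inner ℝ e₁ x|}, |a x| ^ q ∂μ ≤ 1 / 16 →
      ∫ x in {x | R < |inner ℝ e₀ x|}, |b x| ^ q ∂μ ≤ 1 / 16 →
      ∫ x in {x | R < |inner ℝ e₁ x|}, |b x| ^ q ∂μ ≤ 1 / 16 → ¬∀ x, a x * b x = 0 := by
  obtain ⟨Q, s, ν, Q1, Q2, Q3, s0, ν0, H⟩ := h.big hT R
  obtain ⟨K, K1, K2, K3⟩ := exists_compact_between Q1 hT.isOpen Q3
  obtain ⟨η, η1, η2, η3⟩ := exists_contMDiffMap_one_nhds_of_subset_interior (n := ⊤)
    (modelWithCornersSelf ℝ E) Q1.isClosed K2
  have hη : IsTest S η := ⟨η.contMDiff.contDiff, HasCompactSupport.intro K1 η2,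
    (closure_minimal (Function.support_subset_iff'.2 η2) K1.isClosed).trans K3⟩
  obtain ⟨d, hd⟩ : ∃ d, d = Metric.diam Q := ⟨_, rfl⟩
  have d0 : 0 ≤ d := hd ▸ Metric.diam_nonneg
  obtain ⟨L, hL⟩ : ∃ L, L = d * (∫ x, η x ^ 2 ∂μ + (4 * dir μ η + 2)) *
    μ.real (Metric.closedBall 0 d) / (ν * ν) + 1 := ⟨_, rfl⟩
  have I0 : 0 ≤ ∫ x, η x ^ 2 ∂μ := integral_nonneg fun x => sq_nonneg _
  have D0 := dir_nonneg μ η
  have L0 : 0 ≤ L := by rw [hL]; positivity
  obtain ⟨γ, γ0, hγ⟩ := h.log_est hη (fun x => abs_le.2 ⟨by linarith [(η3 x).1], (η3 x).2⟩)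
    (δ := s * exp (-L)) (by positivity)
  refine ⟨min γ 1, by positivity, fun a b ha hb a0 b0 a1 b1 a2 b2 a3 a4 b3 b4 hab => ?_⟩
  have γ1 := min_le_left γ 1
  have γ2 := min_le_right γ 1
  have k1 := H a ha a0 a1 (by linarith) a3 a4
  have k2 := H b hb b0 b1 (by linarith) b3 b4
  have k3 := hγ a ha a0 a1 (by linarith)
  have δ0 : 0 < s * exp (-L) := by positivity
  have hv : ContDiff ℝ ∞ fun x => log (a x + s * exp (-L)) :=
    (ha.1.add contDiff_const).log fun x => by linarith [a0 x]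
  have c1 := (continuous_grad hv).norm.pow 2
  have i1 := test_sq (μ := μ) hη
  have i2 : Integrable (fun x => η x ^ 2 *
    ‖gradient (fun x => log (a x + s * exp (-L))) x‖ ^ 2) μ := test_sq_mul hη c1
  have k4 := seg hv Q2
    (Q1.measurableSet.inter (isOpen_lt continuous_const ha.continuous).measurableSet)
    (Q1.measurableSet.inter (isOpen_lt continuous_const hb.continuous).measurableSet)
    inter_subset_left inter_subset_left d0
    (fun x hx y hy => by rw [hd, ← dist_eq_norm]; exact Metric.dist_le_diam_of_mem Q1.isBounded hx hy)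
    ((hη.continuous.pow 2).add ((hη.continuous.pow 2).mul c1))
    (fun x => add_nonneg (sq_nonneg _) (mul_nonneg (sq_nonneg _) (sq_nonneg _))) (i1.add i2)
    (fun x hx => by
      have : η x = 1 := η1.self_of_nhdsSet x hx
      simp only [Pi.add_apply, Pi.mul_apply, Pi.pow_apply, this]
      nlinarith [sq_nonneg (‖gradient (fun x => log (a x + s * exp (-L))) x‖ - 1)])
    (α := log s) (β := log s - L)
    (fun x (hx : x ∈ Q ∩ {x | s < a x}) => log_le_log s0 (by linarith [show s < a x from hx.2]))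
    (fun x (hx : x ∈ Q ∩ {x | s < b x}) => by
      rw [(mul_eq_zero.1 (hab x)).resolve_right (s0.trans hx.2).ne', zero_add,
        log_mul s0.ne' (exp_pos _).ne', log_exp, sub_eq_add_neg]) (by linarith)
  simp only [Pi.add_apply, Pi.mul_apply, Pi.pow_apply] at k4
  rw [integral_add i1 i2, sub_sub_cancel] at k4
  have k5 := mul_le_mul_of_nonneg_left (mul_le_mul k1 k2 ν0.le (ν0.le.trans k1)) L0
  have k6 := mul_le_mul_of_nonneg_right (mul_le_mul_of_nonneg_left
    (add_le_add (le_refl (∫ x, η x ^ 2 ∂μ)) k3) d0)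
    (measureReal_nonneg (μ := μ) (s := Metric.closedBall 0 d))
  have k7 := (k5.trans k4).trans k6
  rw [← le_div_iff₀ (by positivity)] at k7
  linarith

end Pool.Agent.Lib.MP_eb4995_an.Sl
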