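import Mathlib
import Pool.Agent.Lib.MP_eb4995_an.Sl.Seg

/-!
A lower bound for the fourth Lusternik-Schnirelman value.
-/

set_option linter.unusedSectionVars false

namespace Pool.Agent.Lib.MP_eb4995_an.Sl

open MeasureTheory Set Filter Topology Module Cv Real
open scoped ContDiff

variable {E : Type} [NormedAddCommGroup E] [InnerProductSpace ℝ E] [CompleteSpace E]
  [MeasurableSpace E] [BorelSpace E] [FiniteDimensional ℝ E]
  {μ : Measure E} [μ.IsAddHaarMeasure] {S Ω : Set E} {q m κ : ℝ} {e e₀ e₁ : E} {θ T : E → ℝ}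
  {f g : E → ℝ}

/-- A smoothed distribution function. -/
noncomputable def Gk (μ : Measure E) (e : E) (g : E → ℝ) (s : ℝ) : ℝ :=
  ∫ y, g y * smoothTransition (s - inner ℝ e y) ∂μ

/-- A bounded bilinear form that compares the positions of two masses. -/
noncomputable def Pk (μ : Measure E) (e : E) (f g : E → ℝ) : ℝ :=
  ∫ x, f x * Gk μ e g (inner ℝ e x) ∂μ

theorem gk_bd (g : E → ℝ) (y : E) (t : ℝ) : ‖g y * smoothTransition t‖ ≤ |g y| := by
  rw [norm_mul]
  exact mul_le_of_le_one_right (abs_nonneg _) (st_abs _)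

theorem gk_int (hg : Integrable g μ) (s : ℝ) :
    Integrable (fun y => g y * smoothTransition (s - inner ℝ e y)) μ := by
  have := smoothTransition.continuous
  exact hg.abs.mono' (hg.1.mul (Continuous.aestronglyMeasurable (by fun_prop)))
    (Eventually.of_forall fun y => gk_bd g y _)

theorem gk_le (hg : Integrable g μ) (s : ℝ) : |Gk μ e g s| ≤ ∫ y, |g y| ∂μ :=
  norm_integral_le_of_norm_le hg.abs (Eventually.of_forall fun y => gk_bd g y _)

theorem gk_cont (hg : Integrable g μ) : Continuous (Gk μ e g) := by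
  have := smoothTransition.continuous
  exact continuous_of_dominated (fun s => (gk_int hg s).1)
    (fun s => Eventually.of_forall fun y => gk_bd g y _) hg.abs
    (Eventually.of_forall fun y => by fun_prop)

theorem pk_int (hf : Integrable f μ) (hg : Integrable g μ) :
    Integrable (fun x => f x * Gk μ e g (inner ℝ e x)) μ :=
  hf.mul_bdd ((gk_cont hg).comp (by fun_prop)).aestronglyMeasurable
    (Eventually.of_forall fun _ => gk_le hg _)

theorem pk_le (hf : Integrable f μ) (hg : Integrable g μ) :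
    |Pk μ e f g| ≤ (∫ x, |f x| ∂μ) * ∫ x, |g x| ∂μ := by
  rw [← integral_mul_const]
  refine norm_integral_le_of_norm_le (f := fun x => f x * Gk μ e g (inner ℝ e x))
    (hf.abs.mul_const _) (Eventually.of_forall fun x => ?_)
  rw [norm_mul]
  exact mul_le_mul_of_nonneg_left (gk_le hg _) (abs_nonneg _)

theorem pk_smul (a b : ℝ) :
    Pk μ e (fun x => a * f x) (fun x => b * g x) = a * b * Pk μ e f g := by
  simp only [Pk, Gk, mul_assoc, integral_const_mul, mul_left_comm _ b]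

theorem pk_congr {f' g' : E → ℝ} (hf : f =ᵐ[μ] f') (hg : g =ᵐ[μ] g') :
    Pk μ e f g = Pk μ e f' g' := by
  have : Gk μ e g = Gk μ e g' :=
    funext fun s => integral_congr_ae (hg.mono fun x hx => by simp only [hx])
  unfold Pk
  rw [this]
  exact integral_congr_ae (hf.mono fun x hx => by simp only [hx])

theorem pk_tendsto {ι : Type} {l : Filter ι} {F G : ι → E → ℝ} (hF : ∀ i, Integrable (F i) μ)
    (hG : ∀ i, Integrable (G i) μ) (hf : Integrable f μ) (hg : Integrable g μ)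
    (h1 : Tendsto (fun i => ∫ x, |F i x - f x| ∂μ) l (𝓝 0))
    (h2 : Tendsto (fun i => ∫ x, |G i x - g x| ∂μ) l (𝓝 0)) :
    Tendsto (fun i => Pk μ e (F i) (G i)) l (𝓝 (Pk μ e f g)) := by
  rw [tendsto_iff_norm_sub_tendsto_zero]
  have h3 := ((h1.mul h2).add (h1.mul_const (∫ x, |g x| ∂μ))).add (h2.const_mul (∫ x, |f x| ∂μ))
  simp only [mul_zero, zero_mul, add_zero] at h3
  refine squeeze_zero (fun _ => norm_nonneg _) (fun i => ?_) h3
  have a := (hF i).sub hf
  have b := (hG i).sub hg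
  have e1 : ∀ s, Gk μ e (G i - g) s = Gk μ e (G i) s - Gk μ e g s := fun s => by
    simp only [Gk, Pi.sub_apply, sub_mul]
    exact integral_sub (gk_int (hG i) s) (gk_int hg s)
  have e2 : Pk μ e (F i) (G i) - Pk μ e f g =
      Pk μ e (F i - f) (G i - g) + Pk μ e (F i - f) g + Pk μ e f (G i - g) := by
    unfold Pk
    rw [← integral_sub (pk_int (hF i) (hG i)) (pk_int hf hg),
      ← integral_add' (pk_int a b) (pk_int a hg),
      ← integral_add' ((pk_int a b).add (pk_int a hg)) (pk_int hf b)]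
    refine integral_congr_ae (Eventually.of_forall fun x => ?_)
    simp only [e1, Pi.sub_apply, Pi.add_apply]
    ring
  rw [e2]
  exact (abs_add_three _ _ _).trans (add_le_add (add_le_add (pk_le a b) (pk_le a hg)) (pk_le hf b))

theorem pk_far (hf : Integrable f μ) (hg : Integrable g μ) (f0 : ∀ x, 0 ≤ f x) (g0 : ∀ x, 0 ≤ g x)
    (f1 : ∫ x, f x ∂μ = 1) (g1 : ∫ x, g x ∂μ = 1) {R c c' : ℝ}
    (f2 : ∫ x in {x | R < |inner ℝ e x - c|}, f x ∂μ ≤ 1 / 16)
    (g2 : ∫ x in {x | R < |inner ℝ e x - c'|}, g x ∂μ ≤ 1 / 16) (hc : 2 * R + 1 < c - c') :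
    1 / 2 < Pk μ e f g - Pk μ e g f := by
  have mf : MeasurableSet {x : E | R < |inner ℝ e x - c|} :=
    (isOpen_lt continuous_const (by fun_prop)).measurableSet
  have mg : MeasurableSet {x : E | R < |inner ℝ e x - c'|} :=
    (isOpen_lt continuous_const (by fun_prop)).measurableSet
  rw [← integral_indicator mf] at f2
  rw [← integral_indicator mg] at g2
  have s0 := smoothTransition.nonneg
  have nr : ∀ {y : E} {c : ℝ}, y ∉ {x : E | R < |inner ℝ e x - c|} →
      -R ≤ inner ℝ e y - c ∧ inner ℝ e y - c ≤ R := fun hy => abs_le.1 (not_lt.1 hy)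
  have a1 : ∀ s, c - R ≤ s → 15 / 16 ≤ Gk μ e g s := fun s hs => by
    have := integral_mono (hg.sub (hg.indicator mg)) (gk_int (e := e) hg s) fun y => by
      dsimp only [Pi.sub_apply]
      by_cases hy : y ∈ {x : E | R < |inner ℝ e x - c'|}
      · rw [indicator_of_mem hy, sub_self]
        exact mul_nonneg (g0 y) (s0 _)
      · rw [indicator_of_notMem hy, smoothTransition.one_of_one_le
          (by linarith [(nr hy).2])]
        simp
    rw [integral_sub' hg (hg.indicator mg), g1] at this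
    unfold Gk
    linarith
  have a2 : ∀ s, s ≤ c' + R → Gk μ e f s ≤ 1 / 16 := fun s hs => by
    refine le_trans (integral_mono (gk_int hf s) (hf.indicator mf) fun y => ?_) f2
    by_cases hy : y ∈ {x : E | R < |inner ℝ e x - c|}
    · rw [indicator_of_mem hy]
      exact mul_le_of_le_one_right (f0 y) (smoothTransition.le_one _)
    · dsimp only
      rw [indicator_of_notMem hy, smoothTransition.zero_of_nonpos
        (by linarith [(nr hy).1]), mul_zero]
  have a3 : ∀ s, Gk μ e f s ≤ 1 := fun s => by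
    have := (le_abs_self _).trans (gk_le (e := e) hf s)
    simpa only [abs_of_nonneg (f0 _), f1] using this
  have b1 := integral_mono ((hf.sub (hf.indicator mf)).const_mul (15 / 16)) (pk_int (e := e) hf hg)
    fun y => by
      dsimp only [Pi.sub_apply]
      by_cases hy : y ∈ {x : E | R < |inner ℝ e x - c|}
      · rw [indicator_of_mem hy, sub_self, mul_zero]
        exact mul_nonneg (f0 y) (integral_nonneg fun z => mul_nonneg (g0 z) (s0 _))
      · rw [indicator_of_notMem hy, sub_zero, mul_comm]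
        exact mul_le_mul_of_nonneg_left (a1 _ (by linarith [(nr hy).1])) (f0 y)
  have b2 := integral_mono (pk_int (e := e) hg hf) ((hg.mul_const (1 / 16)).add (hg.indicator mg))
    fun y => by
      dsimp only [Pi.add_apply]
      by_cases hy : y ∈ {x : E | R < |inner ℝ e x - c'|}
      · rw [indicator_of_mem hy]
        linarith [mul_le_of_le_one_right (g0 y) (a3 (inner ℝ e y)), g0 y]
      · rw [indicator_of_notMem hy, add_zero]
        exact mul_le_mul_of_nonneg_left (a2 _ (by linarith [(nr hy).2])) (g0 y)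
  rw [integral_const_mul, integral_sub' hf (hf.indicator mf), f1] at b1
  rw [integral_add' (hg.mul_const _) (hg.indicator mg), integral_mul_const, g1] at b2
  unfold Pk
  linarith

/-- The antisymmetric part of `Pk` on `q`-th powers. -/
noncomputable def Ps (μ : Measure E) (q : ℝ) (e : E) (a b : E → ℝ) : ℝ :=
  Pk μ e (fun x => |a x| ^ q) (fun x => |b x| ^ q) - Pk μ e (fun x => |b x| ^ q) fun x => |a x| ^ q

theorem shift_mass (hf : Integrable f μ) (f0 : ∀ x, 0 ≤ f x) (v : E) {R R' c c' ε : ℝ}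
    (hv : ∀ x, inner ℝ e (x + v) = inner ℝ e x + c) (hc : |c - c'| + R ≤ R')
    (h : ∫ x in {x | R < |inner ℝ e x - c'|}, f x ∂μ ≤ ε) :
    ∫ x in {x | R' < |inner ℝ e x|}, f (x + v) ∂μ ≤ ε := by
  have m1 : MeasurableSet {x : E | R < |inner ℝ e x - c'|} :=
    (isOpen_lt continuous_const (by fun_prop)).measurableSet
  have m2 : MeasurableSet {x : E | R' < |inner ℝ e x|} :=
    (isOpen_lt continuous_const (by fun_prop)).measurableSet
  rw [← integral_indicator m1, ← integral_add_right_eq_self _ v] at h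
  rw [← integral_indicator m2]
  refine le_trans (integral_mono ((hf.comp_add_right v).indicator m2)
    ((hf.indicator m1).comp_add_right v) fun x => ?_) h
  by_cases hx : x ∈ {x : E | R' < |inner ℝ e x|}
  · have h1 : R' < |inner ℝ e x| := hx
    have h2 := abs_sub (inner ℝ e x + c - c') (c - c')
    rw [show inner ℝ e x + c - c' - (c - c') = inner ℝ e x by ring] at h2
    have h3 : x + v ∈ {x : E | R < |inner ℝ e x - c'|} := by
      rw [mem_ofPred_eq, hv]; linarith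
    simp only [indicator_of_mem hx, indicator_of_mem h3, le_refl]
  · rw [indicator_of_notMem hx]
    exact indicator_nonneg (fun y _ => f0 y) _

theorem Base.claim1 (h : Base μ S q m κ) (hF : Frame S e₀ e₁) (hT : Thin μ S q κ e₀ e₁ θ T) :
    ∃ γ : ℝ, 0 < γ ∧ ∀ a b, IsTest S a → IsTest S b → (∀ x, 0 ≤ a x) → (∀ x, 0 ≤ b x) →
      lqNorm μ q a = 1 → lqNorm μ q b = 1 → (∀ x, a x * b x = 0) → |Ps μ q e₀ a b| ≤ 1 / 2 →
        |Ps μ q e₁ a b| ≤ 1 / 2 → m + γ ≤ dir μ a ∨ m + γ ≤ dir μ b := by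
  obtain ⟨R, γ, R1, γ0, -, hc⟩ := h.conc (ε := 1 / 16) (by norm_num)
  obtain ⟨γ', γ0', ha'⟩ := h.apart hT (3 * R + 1)
  refine ⟨min γ γ', by positivity, fun a b ha hb a0 b0 a1 b1 hab p0 p1 => ?_⟩
  by_contra H
  rw [not_or, not_le, not_le] at H
  have γ1 := min_le_left γ γ'
  have γ2 := min_le_right γ γ'
  have ia := test_pow (μ := μ) h.q0 ha
  have ib := test_pow (μ := μ) h.q0 hb
  have key : ∀ e : E, ‖e‖ = 1 → |Ps μ q e a b| ≤ 1 / 2 → ∃ c : ℝ, ∀ v : E,
      (∀ x, inner ℝ e (x + v) = inner ℝ e x + c) →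
        ∫ x in {x | 3 * R + 1 < |inner ℝ e x|}, |a (x + v)| ^ q ∂μ ≤ 1 / 16 ∧
        ∫ x in {x | 3 * R + 1 < |inner ℝ e x|}, |b (x + v)| ^ q ∂μ ≤ 1 / 16 := fun e he hp => by
    obtain ⟨c, k1⟩ := hc a ha a1 (by linarith [H.1]) e he
    obtain ⟨c', k2⟩ := hc b hb b1 (by linarith [H.2]) e he
    obtain ⟨p1, p2⟩ := abs_le.1 hp
    unfold Ps at p1 p2
    have k3 : |c - c'| ≤ 2 * R + 1 := by
      refine abs_le.2 ⟨le_of_not_gt fun k => ?_, le_of_not_gt fun k => ?_⟩
      · linarith [pk_far ib ia (fun x => by positivity) (fun x => by positivity)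
          (mass_one h.q0 b1) (mass_one h.q0 a1) k2 k1 (by linarith)]
      · linarith [pk_far ia ib (fun x => by positivity) (fun x => by positivity)
          (mass_one h.q0 a1) (mass_one h.q0 b1) k1 k2 k]
    exact ⟨c, fun v hv => ⟨shift_mass ia (fun x => by positivity) v hv (by simp; linarith) k1,
      shift_mass ib (fun x => by positivity) v hv (by linarith) k2⟩⟩
  obtain ⟨c₀, k0⟩ := key e₀ hF.n0 p0
  obtain ⟨c₁, k1⟩ := key e₁ hF.n1 p1
  obtain ⟨x1, x2⟩ := k0 _ fun x => hF.in0 x c₀ c₁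
  obtain ⟨y1, y2⟩ := k1 _ fun x => hF.in1 x c₀ c₁
  exact ha' _ _ (hF.test ha c₀ c₁) (hF.test hb c₀ c₁) (fun x => a0 _) (fun x => b0 _)
    ((lq_shift a _).trans a1) ((lq_shift b _).trans b1) (by rw [dir_shift]; linarith [H.1])
    (by rw [dir_shift]; linarith [H.2]) x1 y1 x2 y2 fun x => hab _

theorem ps_smul (a b : E → ℝ) (s t : ℝ) :
    Ps μ q e (fun x => s * a x) (fun x => t * b x) = |s| ^ q * |t| ^ q * Ps μ q e a b := by
  simp only [Ps, abs_mul, mul_rpow (abs_nonneg _) (abs_nonneg _), pk_smul]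
  ring

theorem Base.claim2 (h : Base μ S q m κ) (hF : Frame S e₀ e₁) (hT : Thin μ S q κ e₀ e₁ θ T) :
    ∃ γ : ℝ, 0 < γ ∧ ∀ a b, IsTest S a → IsTest S b → (∀ x, 0 ≤ a x) → (∀ x, 0 ≤ b x) →
      (∀ x, a x * b x = 0) → |Ps μ q e₀ a b| < lqNorm μ q a ^ q * lqNorm μ q b ^ q / 2 →
        |Ps μ q e₁ a b| < lqNorm μ q a ^ q * lqNorm μ q b ^ q / 2 →
          m * (lqNorm μ q a ^ 2 + lqNorm μ q b ^ 2) +
            γ * min (lqNorm μ q a ^ 2) (lqNorm μ q b ^ 2) ≤ dir μ a + dir μ b := by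
  obtain ⟨γ, γ0, H⟩ := h.claim1 hF hT
  refine ⟨γ, γ0, fun a b ha hb a0 b0 hab p0 p1 => ?_⟩
  have q0 := h.q0
  have ga := h.good a ha
  have gb := h.good b hb
  have la := lqNorm_smul (μ := μ) q0 (lqNorm μ q a)⁻¹ a
  have lb := lqNorm_smul (μ := μ) q0 (lqNorm μ q b)⁻¹ b
  have A0 := lqNorm_nonneg (μ := μ) (q := q) a
  have B0 := lqNorm_nonneg (μ := μ) (q := q) b
  generalize lqNorm μ q a = A at *
  generalize lqNorm μ q b = B at *
  have hAB := ((abs_nonneg _).trans_lt p0).ne'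
  have A1 : 0 < A := A0.lt_of_ne' fun k => hAB (by rw [k, zero_rpow q0.ne']; simp)
  have B1 : 0 < B := B0.lt_of_ne' fun k => hAB (by rw [k, zero_rpow q0.ne']; simp)
  have key : ∀ e, |Ps μ q e a b| < A ^ q * B ^ q / 2 →
      |Ps μ q e (fun x => A⁻¹ * a x) fun x => B⁻¹ * b x| ≤ 1 / 2 := fun e he => by
    rw [ps_smul, abs_mul, abs_of_pos (inv_pos.2 A1), abs_of_pos (inv_pos.2 B1), inv_rpow A0,
      inv_rpow B0, ← mul_inv, abs_of_pos (by positivity), inv_mul_le_iff₀ (by positivity)]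
    linarith
  rw [abs_of_pos (inv_pos.2 A1), inv_mul_cancel₀ A1.ne'] at la
  rw [abs_of_pos (inv_pos.2 B1), inv_mul_cancel₀ B1.ne'] at lb
  have := H _ _ (ha.smul A⁻¹) (hb.smul B⁻¹) (fun x => mul_nonneg (inv_pos.2 A1).le (a0 x))
    (fun x => mul_nonneg (inv_pos.2 B1).le (b0 x)) la lb
    (fun x => by linear_combination A⁻¹ * B⁻¹ * hab x) (key _ p0) (key _ p1)
  rw [dir_smul ha.differentiable, dir_smul hb.differentiable, inv_pow, inv_pow,
    le_inv_mul_iff₀ (by positivity), le_inv_mul_iff₀ (by positivity)] at this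
  rcases this with k | k
  · linarith [mul_le_mul_of_nonneg_left (min_le_left (A ^ 2) (B ^ 2)) γ0.le]
  · linarith [mul_le_mul_of_nonneg_left (min_le_right (A ^ 2) (B ^ 2)) γ0.le]

/-- The positive part. -/
noncomputable def pp (u : E → ℝ) (x : E) : ℝ := max (u x) 0

/-- The negative part. -/
noncomputable def pn (u : E → ℝ) (x : E) : ℝ := max (-u x) 0

/-- The improved lower bound for a function whose two parts sit at the same place. -/
def Better (μ : Measure E) (q m γ : ℝ) (e₀ e₁ : E) (a b : E → ℝ) (D : ℝ) : Prop :=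
  |Ps μ q e₀ a b| < lqNorm μ q a ^ q * lqNorm μ q b ^ q / 2 →
    |Ps μ q e₁ a b| < lqNorm μ q a ^ q * lqNorm μ q b ^ q / 2 →
      m * (lqNorm μ q a ^ 2 + lqNorm μ q b ^ 2) + γ * min (lqNorm μ q a ^ 2) (lqNorm μ q b ^ 2) ≤ D

theorem l1_sub (hq : 0 < q) {a b : E → ℝ} (ha : MemLp a (ENNReal.ofReal q) μ)
    (hb : MemLp b (ENNReal.ofReal q) μ) {c : E → ℝ} (hc : MemLp c (ENNReal.ofReal q) μ)
    (h : ∀ x, |c x| = min |a x| |b x|) : ∫ x, |(|a x| ^ q - |b x| ^ q)| ∂μ =
      lqNorm μ q a ^ q + lqNorm μ q b ^ q - 2 * lqNorm μ q c ^ q := by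
  have i1 := integrable_rpow hq ha
  have i2 := integrable_rpow hq hb
  rw [lqNorm_rpow hq, lqNorm_rpow hq, lqNorm_rpow hq, ← integral_add' i1 i2, ← integral_const_mul,
    ← integral_sub' (i1.add i2) ((integrable_rpow hq hc).const_mul 2)]
  refine integral_congr_ae (Eventually.of_forall fun x => ?_)
  simp only [Pi.add_apply, Pi.sub_apply, h]
  rcases le_total |a x| |b x| with k | k
  · rw [min_eq_left k, abs_of_nonpos (sub_nonpos.2 (rpow_le_rpow (abs_nonneg _) k hq.le))]; ring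
  · rw [min_eq_right k, abs_of_nonneg (sub_nonneg.2 (rpow_le_rpow (abs_nonneg _) k hq.le))]; ring

theorem ps_tendsto (hq : 0 < q) {ι : Type} {l : Filter ι} {A B : ι → E → ℝ} {a b : E → ℝ}
    (hA : ∀ i, MemLp (A i) (ENNReal.ofReal q) μ) (hB : ∀ i, MemLp (B i) (ENNReal.ofReal q) μ)
    (ha : MemLp a (ENNReal.ofReal q) μ) (hb : MemLp b (ENNReal.ofReal q) μ)
    (h1 : Tendsto (fun i => ∫ x, |(|A i x| ^ q - |a x| ^ q)| ∂μ) l (𝓝 0))
    (h2 : Tendsto (fun i => ∫ x, |(|B i x| ^ q - |b x| ^ q)| ∂μ) l (𝓝 0)) (e : E) :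
    Tendsto (fun i => Ps μ q e (A i) (B i)) l (𝓝 (Ps μ q e a b)) :=
  (pk_tendsto (fun i => integrable_rpow hq (hA i)) (fun i => integrable_rpow hq (hB i))
    (integrable_rpow hq ha) (integrable_rpow hq hb) h1 h2).sub
    (pk_tendsto (fun i => integrable_rpow hq (hB i)) (fun i => integrable_rpow hq (hA i))
      (integrable_rpow hq hb) (integrable_rpow hq ha) h2 h1)

theorem tr_l1 (hq : 0 < q) {φ : E → ℝ} (hφ : IsTest S φ) :
    Tendsto (fun n : ℕ => ∫ x, |(|tr (1 / ((n : ℝ) + 1)) (φ x)| ^ q - |pp φ x| ^ q)| ∂μ) atTop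
      (𝓝 0) := by
  have hpos : ∀ n : ℕ, (0 : ℝ) < 1 / ((n : ℝ) + 1) := fun n => by positivity
  have h1 := (tendsto_lqNorm_tr hq (hφ.memLp (μ := μ) _)).rpow_const (Or.inr hq.le)
  have h2 := (h1.add_const (lqNorm μ q (pp φ) ^ q)).sub (h1.const_mul 2)
  rw [show lqNorm μ q (fun x => max (φ x) 0) = lqNorm μ q (pp φ) from rfl, ← two_mul,
    sub_self] at h2
  refine h2.congr fun n => ?_
  have t := (hφ.comp_left (tr_contDiff _) (tr_of_nonpos (hpos n) le_rfl)).memLp (μ := μ)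
    (ENNReal.ofReal q)
  refine (l1_sub hq t (isContr_pos.memLp (hφ.memLp _)) t fun x => (min_eq_left ?_).symm).symm
  obtain ⟨k1, k2, -⟩ := tr_bounds (hpos n) (φ x)
  exact abs_le_abs_of_nonneg k1 k2

theorem Base.better_test (h : Base μ S q m κ) (hF : Frame S e₀ e₁) (hT : Thin μ S q κ e₀ e₁ θ T) :
    ∃ γ : ℝ, 0 < γ ∧ ∀ φ, IsTest S φ → Better μ q m γ e₀ e₁ (pp φ) (pn φ) (dir μ φ) := by
  obtain ⟨γ, γ0, H⟩ := h.claim2 hF hT
  refine ⟨γ, γ0, fun φ hφ p0 p1 => ?_⟩
  have q0 := h.q0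
  have hψ := hφ.smul (-1)
  have hpos : ∀ n : ℕ, (0 : ℝ) < 1 / ((n : ℝ) + 1) := fun n => by positivity
  have t1 := fun n : ℕ => hφ.comp_left (tr_contDiff _) (tr_of_nonpos (hpos n) le_rfl)
  have t2 := fun n : ℕ => hψ.comp_left (tr_contDiff _) (tr_of_nonpos (hpos n) le_rfl)
  have e : pp (fun x => -1 * φ x) = pn φ := funext fun x => by rw [pp, pn, neg_one_mul]
  have l1 : Tendsto _ _ (𝓝 (lqNorm μ q (pp φ))) := tendsto_lqNorm_tr q0 (hφ.memLp (μ := μ) _)
  have l2 : Tendsto _ _ (𝓝 (lqNorm μ q (pp fun x => -1 * φ x))) :=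
    tendsto_lqNorm_tr q0 (hψ.memLp (μ := μ) _)
  have l3 := ps_tendsto q0 (fun n => (t1 n).memLp _) (fun n => (t2 n).memLp _)
    (a := pp φ) (b := pp fun x => -1 * φ x) (isContr_pos.memLp (hφ.memLp (μ := μ) _))
    (isContr_pos.memLp (hψ.memLp (μ := μ) _)) (tr_l1 q0 hφ) (tr_l1 q0 hψ)
  rw [e] at l2 l3
  have l4 := ((l1.rpow_const (Or.inr q0.le)).mul (l2.rpow_const (Or.inr q0.le))).div_const 2
  refine le_of_tendsto ((((l1.pow 2).add (l2.pow 2)).const_mul m).add
    (((l1.pow 2).min (l2.pow 2)).const_mul γ)) ?_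
  filter_upwards [(l3 e₀).abs.eventually_lt l4 p0, (l3 e₁).abs.eventually_lt l4 p1] with n k0 k1
  refine (H _ _ (t1 n) (t2 n) (fun x => (tr_bounds (hpos n) _).1) (fun x => (tr_bounds (hpos n) _).1)
    (fun x => ?_) k0 k1).trans ?_
  · rcases le_total (φ x) 0 with k | k
    · rw [tr_of_nonpos (hpos n) k, zero_mul]
    · rw [tr_of_nonpos (hpos n) (t := -1 * φ x) (by linarith), mul_zero]
  · have hd : Differentiable ℝ (tr (1 / ((n : ℝ) + 1))) := (tr_contDiff _).differentiable (by simp)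
    unfold dir
    rw [← integral_add (t1 n).integrable_sq_gradient (t2 n).integrable_sq_gradient]
    refine integral_mono ((t1 n).integrable_sq_gradient.add (t2 n).integrable_sq_gradient)
      hφ.integrable_sq_gradient fun x => ?_
    dsimp only
    rw [gradient_comp' hφ.differentiable hd, gradient_comp' hψ.differentiable hd,
      gradient_const_mul' hφ.differentiable, norm_smul, norm_smul, norm_smul, mul_pow, mul_pow,
      Real.norm_eq_abs, Real.norm_eq_abs, sq_abs, sq_abs, norm_neg, norm_one, one_mul, ← add_mul]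
    exact mul_le_of_le_one_left (by positivity) (deriv_tr_add (hpos n) (φ x))

section Sob

variable [Fact (1 ≤ ENNReal.ofReal q)] (J : W μ Ω →L[ℝ] Lp ℝ (ENNReal.ofReal q) μ)

theorem l1_cont (hq : 0 < q) (hJ : ∀ p, J p =ᵐ[μ] (p : V μ).1) {k : ℝ → ℝ}
    (hk : IsContr fun _ : E => k) (k0 : ∀ s, 0 ≤ k s) (p₀ : W μ Ω) :
    Tendsto (fun p : W μ Ω => ∫ x, |(|k ((p : V μ).1 x)| ^ q - |k ((p₀ : V μ).1 x)| ^ q)| ∂μ)
      (𝓝 p₀) (𝓝 0) := by
  have mem : ∀ p : W μ Ω, MemLp (p : V μ).1 (ENNReal.ofReal q) μ :=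
    fun p => (Lp.memLp (J p)).ae_eq (hJ p)
  have hg : IsContr fun x s => min (k s) (k ((p₀ : V μ).1 x)) := by
    refine ⟨hk.meas.min (hk.meas.comp (measurable_fst.prodMk
      ((Lp.stronglyMeasurable (p₀ : V μ).1).measurable.comp measurable_fst))), fun x => ?_,
      fun x s t => (abs_min_sub_min_le_max _ _ _ _).trans ?_⟩
    · rw [hk.zero x, min_eq_left (k0 _)]
    · rw [sub_self, abs_zero]
      exact max_le (hk.lip x s t) (abs_nonneg _)
  have c1 := ((continuous_contr J hq hJ hk).rpow_const fun _ => Or.inr hq.le).tendsto p₀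
  have c2 := ((continuous_contr J hq hJ hg).rpow_const fun _ => Or.inr hq.le).tendsto p₀
  have h2 := (c1.add_const (lqNorm μ q (fun x => k ((p₀ : V μ).1 x)) ^ q)).sub (c2.const_mul 2)
  simp only [min_self, ← two_mul, sub_self] at h2
  refine h2.congr fun p => (l1_sub hq (hk.memLp (mem p)) (hk.memLp (mem p₀)) (hg.memLp (mem p))
    fun x => ?_).symm
  rw [abs_of_nonneg (k0 _), abs_of_nonneg (k0 _), abs_of_nonneg (le_min (k0 _) (k0 _))]

theorem ps_cont (hq : 0 < q) (hJ : ∀ p, J p =ᵐ[μ] (p : V μ).1) (e : E) :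
    Continuous fun p : W μ Ω => Ps μ q e (pp (p : V μ).1) (pn (p : V μ).1) := by
  have mem : ∀ p : W μ Ω, MemLp (p : V μ).1 (ENNReal.ofReal q) μ :=
    fun p => (Lp.memLp (J p)).ae_eq (hJ p)
  exact continuous_iff_continuousAt.2 fun p₀ => ps_tendsto hq
    (fun p => isContr_pos.memLp (mem p)) (fun p => isContr_neg.memLp (mem p))
    (isContr_pos.memLp (mem p₀)) (isContr_neg.memLp (mem p₀))
    (l1_cont J hq hJ isContr_pos (fun s => le_max_right _ _) p₀)
    (l1_cont J hq hJ isContr_neg (fun s => le_max_right _ _) p₀) e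

end Sob

theorem ps_congr {a b a' b' : E → ℝ} (ha : a =ᵐ[μ] a') (hb : b =ᵐ[μ] b') :
    Ps μ q e a b = Ps μ q e a' b' := by
  have h1 : (fun x => |a x| ^ q) =ᵐ[μ] fun x => |a' x| ^ q := ha.mono fun x hx => by simp only [hx]
  have h2 : (fun x => |b x| ^ q) =ᵐ[μ] fun x => |b' x| ^ q := hb.mono fun x hx => by simp only [hx]
  rw [Ps, Ps, pk_congr h1 h2, pk_congr h2 h1]

theorem Base.four (h : Base μ S q m κ) (hF : Frame S e₀ e₁) (hT : Thin μ S q κ e₀ e₁ θ T) :
    ∃ γ : ℝ, 0 < γ ∧ ∀ Ω : Set E, Bornology.IsBounded Ω → Ω ⊆ S → ∀ k, 4 ≤ k →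
      (((m + γ) * 2 ^ (1 - 2 / q) : ℝ) : EReal) ≤ lamLS μ Ω q k := by
  obtain ⟨γ, γ0, H⟩ := h.better_test hF hT
  refine ⟨γ / 2, by positivity, fun Ω hb hΩ k hk => le_iInf₂ fun F hF => ?_⟩
  obtain ⟨-, -, h1, -, h2⟩ := hF
  have q0 := h.q0
  have := fact_q h.hq
  obtain ⟨J, hJ⟩ := exists_embedding (μ := μ) hb h.hN h.hq.le h.hq'
  have c1 : Continuous fun p : W μ Ω => lqNorm μ q (pp (p : V μ).1) :=
    continuous_contr J q0 hJ isContr_pos
  have c2 : Continuous fun p : W μ Ω => lqNorm μ q (pn (p : V μ).1) :=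
    continuous_contr J q0 hJ isContr_neg
  have c3 := ps_cont J q0 hJ
  have c4 := ((c1.rpow_const fun _ => Or.inr q0.le).mul
    (c2.rpow_const fun _ => Or.inr q0.le)).div_const 2
  have key := W_induction (P := fun p : W μ Ω =>
      Better μ q m γ e₀ e₁ (pp (p : V μ).1) (pn (p : V μ).1) (‖(p : V μ).2‖ ^ 2))
    (isClosed_imp (isOpen_lt (c3 e₀).abs c4) (isClosed_imp (isOpen_lt (c3 e₁).abs c4)
      (isClosed_le ((((c1.pow 2).add (c2.pow 2)).const_mul m).add
        (((c1.pow 2).min (c2.pow 2)).const_mul γ)) (by fun_prop)))) fun p φ hφ hp => by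
      have a1 : pp (p : V μ).1 =ᵐ[μ] pp φ := hp.1.mono fun x hx => by simp only [pp, hx]
      have a2 : pn (p : V μ).1 =ᵐ[μ] pn φ := hp.1.mono fun x hx => by simp only [pn, hx]
      unfold Better
      rw [ps_congr a1 a2, ps_congr a1 a2, lqNorm_congr a1, lqNorm_congr a2, hp.norm_sq]
      exact H φ (hφ.mono hΩ)
  have n1 : ∀ p : V μ, pp (-p).1 =ᵐ[μ] pn p.1 := fun p => (Lp.coeFn_neg p.1).mono fun x hx => by
    simp only [pp, pn, Prod.fst_neg, hx, Pi.neg_apply]
  have n2 : ∀ p : V μ, pn (-p).1 =ᵐ[μ] pp p.1 := fun p => (Lp.coeFn_neg p.1).mono fun x hx => by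
    simp only [pp, pn, Prod.fst_neg, hx, Pi.neg_apply, neg_neg]
  obtain ⟨p, hp, z0, z1, z2⟩ : ∃ p : V μ, p ∈ F ∧
      lqNorm μ q (pp p.1) - lqNorm μ q (pn p.1) = 0 ∧ Ps μ q e₀ (pp p.1) (pn p.1) = 0 ∧
        Ps μ q e₁ (pp p.1) (pn p.1) = 0 := by
    by_contra K
    have h3 := genus_le_of (X := V μ) (F := F) (n := 3) (by norm_num)
      (fun p => !₂[lqNorm μ q (pp p.1) - lqNorm μ q (pn p.1), Ps μ q e₀ (pp p.1) (pn p.1),
        Ps μ q e₁ (pp p.1) (pn p.1)])
      (ContinuousOn.mono (s := (W μ Ω : Set (V μ))) ?_ fun p hp => (h1 hp).1)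
      (fun p hp h => K ⟨p, hp, ?_, ?_, ?_⟩) fun p _ => ?_
    · exact absurd ((le_trans (by exact_mod_cast hk) h2 : (4 : ℕ∞) ≤ _).trans h3) (by norm_num)
    · rw [continuousOn_iff_continuous_domRestrict]
      refine (PiLp.continuous_toLp 2 _).comp (continuous_pi fun i => ?_)
      fin_cases i
      exacts [c1.sub c2, c3 e₀, c3 e₁]
    · exact congrArg (fun v : EuclideanSpace ℝ (Fin 3) => v 0) h
    · exact congrArg (fun v : EuclideanSpace ℝ (Fin 3) => v 1) h
    · exact congrArg (fun v : EuclideanSpace ℝ (Fin 3) => v 2) h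
    · rw [ps_congr (n1 p) (n2 p), ps_congr (n1 p) (n2 p), lqNorm_congr (n1 p), lqNorm_congr (n2 p)]
      ext i
      fin_cases i <;> simp [Ps]
  refine le_iSup₂_of_le p hp ?_
  rw [dirichlet_eq, EReal.coe_le_coe_iff]
  have z3 : lqNorm μ q (pn p.1) = lqNorm μ q (pp p.1) := (sub_eq_zero.1 z0).symm
  obtain ⟨b1, b2⟩ : 0 < lqNorm μ q (pp p.1) ∧ 2 ^ (1 - 2 / q) = 2 * lqNorm μ q (pp p.1) ^ 2 :=
    balanced q0 (h.memLp hb (h1 hp).1) (h1 hp).2 z3
  have := key ⟨p, (h1 hp).1⟩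
  unfold Better at this
  dsimp only at this
  rw [z1, z2, z3, abs_zero, min_self] at this
  rw [b2]
  linarith [this (by positivity) (by positivity)]

end Pool.Agent.Lib.MP_eb4995_an.Sl
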