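import Mathlib
import Pool.Agent.Lib.MP_eb4995_an.Sl.Four

/-!
Three different eigenvalues between the first and the fourth Lusternik-Schnirelman value of a
large piece of a slab.
-/

set_option linter.unusedSectionVars false

namespace Pool.Agent.Lib.MP_eb4995_an.Sl

open MeasureTheory Set Filter Topology Module Cv Real
open scoped ContDiff

theorem small0 (C R : ℝ) {κ a ε : ℝ} (κ0 : 0 < κ) (a0 : 0 < a) (hε : 0 < ε) :
    ∀ᶠ t in atTop, C * exp (-(19 / 10 * κ) * (a * t - R)) < ε := by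
  have h1 : Tendsto (fun t : ℝ => -(19 / 10 * κ) * (a * t - R)) atTop atBot :=
    (tendsto_atTop_add_const_right _ (-R) (tendsto_id.const_mul_atTop a0)).const_mul_atTop_of_neg
      (by linarith)
  have h2 := (tendsto_exp_atBot.comp h1).const_mul C
  rw [mul_zero] at h2
  exact h2.eventually (gt_mem_nhds hε)

theorem small (C₁ R : ℝ) {C C' κ a w L : ℝ} (N : ℕ) (κ0 : 0 < κ) (C0 : 0 < C) (C1 : 0 ≤ C')
    (w0 : 0 < w) (L0 : 0 ≤ L) (h : 2 * w < 19 / 10 * a) :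
    ∀ᶠ t in atTop, C₁ * exp (-(19 / 10 * κ) * (a * t - R)) <
      min 1 (C * (C' + |w * t| + w * t + L * t) ^ N * exp (2 * κ * (w * t)))⁻¹ := by
  have D0 : 0 < w + w + L := by positivity
  have b0 : 0 < κ * (19 / 10 * a - 2 * w) / (w + w + L) := by
    have := sub_pos.2 h
    positivity
  have h1 : Tendsto (fun t : ℝ => (w + w + L) * t + C') atTop atTop :=
    tendsto_atTop_add_const_right _ C' (tendsto_id.const_mul_atTop D0)
  have h2 := ((tendsto_rpow_mul_exp_neg_mul_atTop_nhds_zero N _ b0).comp h1).const_mul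
    (C₁ * C * exp (19 / 10 * κ * R + κ * (19 / 10 * a - 2 * w) / (w + w + L) * C'))
  rw [mul_zero] at h2
  filter_upwards [small0 C₁ R κ0 (show 0 < a by linarith) one_pos,
    h2.eventually (gt_mem_nhds one_pos), eventually_gt_atTop 0] with t k1 k2 t0
  refine lt_min k1 ?_
  rw [abs_of_pos (by positivity), ← one_div, lt_div_iff₀ (by positivity)]
  refine lt_of_eq_of_lt ?_ k2
  have e : exp (-(19 / 10 * κ) * (a * t - R)) * exp (2 * κ * (w * t)) =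
      exp (19 / 10 * κ * R + κ * (19 / 10 * a - 2 * w) / (w + w + L) * C') *
        exp (-(κ * (19 / 10 * a - 2 * w) / (w + w + L)) * ((w + w + L) * t + C')) := by
    rw [← exp_add, ← exp_add]
    congr 1
    field_simp
    ring
  simp only [Function.comp, rpow_natCast]
  rw [show (w + w + L) * t + C' = C' + w * t + w * t + L * t by ring] at e ⊢
  linear_combination C₁ * C * (C' + w * t + w * t + L * t) ^ N * e

variable {E : Type} [NormedAddCommGroup E] [InnerProductSpace ℝ E] [CompleteSpace E]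
  [MeasurableSpace E] [BorelSpace E] [FiniteDimensional ℝ E]
  {μ : Measure E} [μ.IsAddHaarMeasure] {S Ω : Set E} {q m κ s t : ℝ} {e₀ e₁ : E} {θ T : E → ℝ}
  {σ σ₁ σ₂ σ₃ : E ≃ₗᵢ[ℝ] E}

/-- A reflection in the long directions. -/
structure Refl (μ : Measure E) (S : Set E) (e₀ e₁ : E) (σ : E ≃ₗᵢ[ℝ] E) (s t : ℝ) : Prop where
  symm : Symm μ S σ
  in0 : ∀ x, inner ℝ e₀ (σ x) = s * inner ℝ e₀ x
  in1 : ∀ x, inner ℝ e₁ (σ x) = t * inner ℝ e₁ x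
  fix : ∀ x, inner ℝ e₀ (σ x) = inner ℝ e₀ x → inner ℝ e₁ (σ x) = inner ℝ e₁ x → σ x = x

theorem Refl.swap (h : Refl μ S e₀ e₁ σ s t) : Refl μ S e₁ e₀ σ t s :=
  ⟨h.symm, h.in1, h.in0, fun x a b => h.fix x b a⟩

theorem Refl.box (h : Refl μ S e₀ e₁ σ s t) (hs : |s| = 1) (ht : |t| = 1) {A B : ℝ}
    (hΩ : ∀ x, x ∈ Ω ↔ x ∈ S ∧ |inner ℝ e₀ x| < A ∧ |inner ℝ e₁ x| < B) : Symm μ Ω σ := by
  refine ⟨h.symm.1, h.symm.2.1, fun x hx => ?_⟩
  rw [hΩ] at hx ⊢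
  rw [h.in0, h.in1, abs_mul, abs_mul, hs, ht, one_mul, one_mul] at hx
  exact ⟨h.symm.2.2 x hx.1, hx.2⟩

theorem Base.half (h : Base μ S q m κ) (hF : Frame S e₀ e₁) (hT : Thin μ S q κ e₀ e₁ θ T)
    (hσ : Refl μ S e₀ e₁ σ (-1) 1) : ∃ C C' : ℝ, 0 < C ∧ 0 ≤ C' ∧ ∀ (w L : ℝ) (Ω : Set E),
      0 < w → 0 ≤ L → Bornology.IsBounded Ω → IsOpen Ω →
      (∀ x, x ∈ Ω ↔ x ∈ S ∧ |inner ℝ e₀ x| < 2 * w ∧ |inner ℝ e₁ x| < L) →
      ∀ φ, IsTest (piece S e₀ e₁ w w L) φ → lqNorm μ q φ = 1 → ∃ lam ∈ spec μ Ω q,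
        (m + min 1 (C * (C' + |w| + w + L) ^ finrank ℝ E * exp (2 * κ * w))⁻¹) *
          2 ^ (1 - 2 / q) ≤ lam ∧ lam ≤ dir μ φ * 2 ^ (1 - 2 / q) := by
  obtain ⟨C, C', C0, C1, H⟩ := h.excess hF hT
  refine ⟨C, C', C0, C1, fun w L Ω w0 L0 hb ho hΩ φ hφ h1 => ?_⟩
  have sy := hσ.box (by simp) abs_one hΩ
  have hH : ∀ x ∈ piece S e₀ e₁ w w L, σ x ∉ piece S e₀ e₁ w w L := fun x hx hx' => by
    have a1 := (abs_lt.1 hx.2.1).1
    have a2 := (abs_lt.1 hx'.2.1).1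
    rw [hσ.in0] at a2
    linarith
  obtain ⟨p, p1, p2, p3, p4, -, p5⟩ := h.odd_val hb ho (fun x hx => ((hΩ x).1 hx).1) sy hH
    (fun x hx => (hΩ x).2 ⟨hx.1, abs_lt.2 ⟨by linarith [(abs_lt.1 hx.2.1).1],
      by linarith [(abs_lt.1 hx.2.1).2]⟩, by simpa using hx.2.2⟩) hφ h1
  refine ⟨_, p4, h.odd_lower hb sy (isOpen_piece hT.isOpen _ _ _ _ _) hH (fun x hx => ?_)
    (fun a ha a0 => ?_) p1 p2 p3, p5⟩
  · obtain ⟨a1, a2, a3⟩ := (hΩ x).1 hx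
    obtain ⟨a4, a5⟩ := abs_lt.1 a2
    rcases lt_trichotomy (inner ℝ e₀ x) 0 with k | k | k
    · refine Or.inr (Or.inl ⟨hσ.symm.2.2 _ (by rwa [hσ.symm.2.1]), ?_, ?_⟩)
      · rw [hσ.in0, abs_lt]
        constructor <;> linarith
      · rwa [hσ.in1, one_mul, sub_zero]
    · exact Or.inr (Or.inr (hσ.fix x (by rw [hσ.in0, k, mul_zero]) (by rw [hσ.in1, one_mul])))
    · exact Or.inl ⟨a1, abs_lt.2 ⟨by linarith, by linarith⟩, by rwa [sub_zero]⟩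
  · rcases (lqNorm_nonneg (μ := μ) (q := q) a).eq_or_lt with k | k
    · rw [← k]
      simpa using dir_nonneg μ a
    have k1 := H w w L w0.le L0 _ (ha.smul (lqNorm μ q a)⁻¹)
      (fun x => mul_nonneg (inv_pos.2 k).le (a0 x))
      (by rw [lqNorm_smul h.q0, abs_of_pos (inv_pos.2 k), inv_mul_cancel₀ k.ne'])
    rw [dir_smul ha.differentiable, inv_pow, ← div_eq_inv_mul] at k1
    rw [← le_div_iff₀ (by positivity)]
    rcases le_total (dir μ a / lqNorm μ q a ^ 2) (m + 1) with k2 | k2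
    · have k3 := k1 k2
      rw [← div_le_iff₀ (by positivity), one_div] at k3
      linarith [min_le_right 1 (C * (C' + |w| + w + L) ^ finrank ℝ E * exp (2 * κ * w))⁻¹]
    · linarith [min_le_left 1 (C * (C' + |w| + w + L) ^ finrank ℝ E * exp (2 * κ * w))⁻¹]

theorem disc {x y r : ℝ} (r0 : 0 < r) (h : x ^ 2 + y ^ 2 < r ^ 2) : |x| < r ∧ |y| < r :=
  ⟨abs_lt_of_sq_lt_sq (by linarith [sq_nonneg y]) r0.le,
    abs_lt_of_sq_lt_sq (by linarith [sq_nonneg x]) r0.le⟩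

theorem Base.long (h : Base μ S q m κ) (hF : Frame S e₀ e₁) (hT : Thin μ S q κ e₀ e₁ θ T)
    (hs : Sharp μ S q m) (r₁ : Refl μ S e₀ e₁ σ₁ (-1) 1) (r₂ : Refl μ S e₀ e₁ σ₂ 1 (-1))
    (r₃ : Refl μ S e₀ e₁ σ₃ (-1) (-1)) : ∃ A B : ℝ, 0 < A ∧ 0 < B ∧ ∀ Ω : Set E,
      (∀ x, x ∈ Ω ↔ x ∈ S ∧ |inner ℝ e₀ x| < A ∧ |inner ℝ e₁ x| < B) →
        ∃ lam ∈ spec μ Ω q, lam ∉ specLS μ Ω q := by
  obtain ⟨C, R, C0, R0, hU⟩ := h.upper hF hs
  obtain ⟨C₁, D₁, p₁, p₂, hX⟩ := h.half hF hT r₁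
  obtain ⟨C₂, D₂, p₃, p₄, hY⟩ := h.half hF.swap hT.swap r₂.swap
  obtain ⟨γ, γ0, h4⟩ := h.four hF hT
  obtain ⟨C₃, -, hC⟩ := hT.bdd
  have κ0 := h.κ0
  have m0 := h.m0
  have c1 : 1 < (2 : ℝ) ^ (1 - 2 / q) :=
    one_lt_rpow one_lt_two (by rw [sub_pos, div_lt_one h.q0]; exact h.hq)
  generalize hc : (2 : ℝ) ^ (1 - 2 / q) = c at c1 hX hY h4
  obtain ⟨t, ⟨⟨⟨k1, k2⟩, k3⟩, k4⟩, k5⟩ := (((((small C R (a := 60) (w := 54) (L := 100)
    (finrank ℝ E) κ0 p₃ p₄ (by norm_num) (by norm_num) (by norm_num)).and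
    (small C R (a := 54) (w := 50) (L := 108) (finrank ℝ E) κ0 p₁ p₂ (by norm_num) (by norm_num)
      (by norm_num))).and (small0 C R (a := 50) κ0 (by norm_num) γ0)).and
    (small0 C R (a := 60) κ0 (by norm_num) (mul_pos m0 (sub_pos.2 c1)))).and
    (eventually_ge_atTop (R + 1))).exists
  have t0 : 0 < t := by linarith
  refine ⟨2 * (50 * t), 2 * (54 * t), by positivity, by positivity, fun Ω hΩ => ?_⟩
  have e : Ω = piece S e₀ e₁ 0 (2 * (50 * t)) (2 * (54 * t)) := by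
    ext x
    simp only [hΩ, piece, sub_zero, mem_ofPred_eq]
  have hb : Bornology.IsBounded Ω :=
    e ▸ Metric.isBounded_closedBall.subset (piece_ball hC _ _ _)
  have ho : IsOpen Ω := e ▸ isOpen_piece hT.isOpen _ _ _ _ _
  have hS : Ω ⊆ S := fun x hx => ((hΩ x).1 hx).1
  obtain ⟨φ₁, a1, a2, a3, a4⟩ := hU (50 * t - R) (50 * t) 0 (by linarith)
  obtain ⟨φ₂, b1, b2, b3, b4⟩ := hU (54 * t - R) 0 (54 * t) (by linarith)
  obtain ⟨φ₃, d1, d2, d3, d4⟩ := hU (60 * t - R) (40 * t) (48 * t) (by linarith)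
  rw [sub_add_cancel] at a4 b4 d4
  obtain ⟨x, x1, x2, x3⟩ := hX (50 * t) (108 * t) Ω (by positivity) (by positivity) hb ho
    (fun x => by rw [hΩ, show 2 * (54 * t) = 108 * t by ring]) φ₁
    ⟨a1.1, a1.2.1, fun x hx => ⟨a1.2.2 hx, (disc (by positivity) (a4 x hx)).1,
      (disc (by positivity) (a4 x hx)).2.trans (by linarith)⟩⟩ a2
  obtain ⟨y, y1, y2, y3⟩ := hY (54 * t) (100 * t) Ω (by positivity) (by positivity) hb ho
    (fun x => by rw [hΩ, show 2 * (50 * t) = 100 * t by ring, and_comm (b := _ < 100 * t)]) φ₂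
    ⟨b1.1, b1.2.1, fun x hx => ⟨b1.2.2 hx, (disc (by positivity) (b4 x hx)).2,
      (disc (by positivity) (b4 x hx)).1.trans (by linarith)⟩⟩ b2
  have sub : {x | x ∈ S ∧ (inner ℝ e₀ x - 40 * t) ^ 2 + (inner ℝ e₁ x - 48 * t) ^ 2 <
      (60 * t) ^ 2} ⊆ Ω := fun x hx => by
    obtain ⟨f1, f2⟩ := disc (by positivity) hx.2
    obtain ⟨f3, f4⟩ := abs_lt.1 f1
    obtain ⟨f5, f6⟩ := abs_lt.1 f2
    exact (hΩ x).2 ⟨hx.1, abs_lt.2 ⟨by linarith, by linarith⟩, abs_lt.2 ⟨by linarith, by linarith⟩⟩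
  have d5 : IsTest {x | x ∈ S ∧ (inner ℝ e₀ x - 40 * t) ^ 2 + (inner ℝ e₁ x - 48 * t) ^ 2 <
      (60 * t) ^ 2} φ₃ := ⟨d1.1, d1.2.1, fun x hx => ⟨d1.2.2 hx, d4 x hx⟩⟩
  obtain ⟨p, -, -, -, o1, o2, o3⟩ := h.odd_val hb ho hS (r₃.box (by simp) (by simp) hΩ)
    (fun x hx hx' => by
      have f1 := hx.2
      have f2 := hx'.2
      rw [r₃.in0, r₃.in1] at f2
      linarith [sq_nonneg (inner ℝ e₀ x), sq_nonneg (inner ℝ e₁ x), sq_nonneg t]) sub d5 d2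
  obtain ⟨u, hu⟩ := (d5.mono sub).exists_rep μ
  have l1 := lamLS_one_le u.2 ((lqNorm_congr hu.1).trans d2)
  rw [hc] at o2 o3
  rw [hu.norm_sq] at l1
  have c0 : 0 < c := by linarith
  exact pigeon o1 y1 x1
    (o3.trans_lt ((mul_lt_mul_of_pos_right (by linarith) c0).trans_le y2))
    (y3.trans_lt ((mul_lt_mul_of_pos_right (by linarith) c0).trans_le x2)) l1 (by linarith)
    (h4 Ω hb hS) (x3.trans_lt (mul_lt_mul_of_pos_right (by linarith) c0))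

end Pool.Agent.Lib.MP_eb4995_an.Sl
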