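import Mathlib
import Pool.Agent.Lib.MP_eb4995_an.Sl.Long
import Pool.Agent.Lib.MP_eb4995_an.Cv.NBox

/-!
The slab with two long directions, and the box with an eigenvalue that is not a
Lusternik-Schnirelman value.
-/

set_option linter.unusedSectionVars false

namespace Pool.Agent.Lib.MP_eb4995_an.Sl

open MeasureTheory Set Filter Topology Module Cv Real
open scoped ContDiff

section Any

variable {E : Type} [NormedAddCommGroup E] [InnerProductSpace ℝ E] [CompleteSpace E]
  [MeasurableSpace E] [BorelSpace E] [FiniteDimensional ℝ E]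
  {μ : Measure E} [μ.IsAddHaarMeasure] {S : Set E} {q κ : ℝ} {φ : E → ℝ}

theorem gns {r : ℝ} (r0 : 0 < r) (hN : 0 < finrank ℝ E) (hr : r⁻¹ = 2⁻¹ - (finrank ℝ E : ℝ)⁻¹)
    (M : ℝ) : ∃ B : ℝ, ∀ φ, IsTest S φ → dir μ φ ≤ M → ∫ x, |φ x| ^ r ∂μ ≤ B := by
  refine ⟨(SNormLESNormFDerivOfEqConst ℝ μ ((2 : NNReal) : ℝ) * √M) ^ r, fun φ hφ hM => ?_⟩
  have h1 := eLpNorm_le_eLpNorm_fderiv_of_eq (μ := μ) hφ.contDiff_one hφ.2.1 (p := 2)
    (p' := r.toNNReal) one_le_two hN (by rw [coe_toNNReal _ r0.le, hr]; rfl)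
  obtain ⟨p, hp⟩ := hφ.exists_rep μ
  have h2 : eLpNorm (fderiv ℝ φ) ((2 : NNReal) : ENNReal) μ = ENNReal.ofReal ‖(p : V μ).2‖ := by
    rw [ofReal_norm, Lp.enorm_def]
    exact eLpNorm_congr_norm_ae (hp.2.mono fun x hx => by rw [hx, norm_gradient])
  rw [h2, show (r.toNNReal : ENNReal) = ENNReal.ofReal r from rfl,
    eLpNorm_eq_lqNorm r0 (hφ.memLp _), ← ENNReal.ofReal_coe_nnreal,
    ← ENNReal.ofReal_mul (NNReal.coe_nonneg _), ENNReal.ofReal_le_ofReal_iff (by positivity)] at h1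
  rw [← lqNorm_rpow r0]
  refine rpow_le_rpow (lqNorm_nonneg _) (h1.trans (mul_le_mul_of_nonneg_left ?_
    (NNReal.coe_nonneg _))) r0.le
  exact le_sqrt_of_sq_le (hp.norm_sq.trans_le hM)

theorem exists_base (hN : 2 ≤ finrank ℝ E) (hq : 2 < q)
    (hq' : ((finrank ℝ E : ℝ) - 2) * q < 2 * finrank ℝ E) (κ0 : 0 < κ)
    (poin : ∀ φ, IsTest S φ → κ ^ 2 * ∫ x, φ x ^ 2 ∂μ ≤ dir μ φ) (ho : IsOpen S) (hne : S.Nonempty)
    (sob : ∃ r, q < r ∧ ∀ M : ℝ, ∃ B : ℝ, ∀ φ, IsTest S φ → dir μ φ ≤ M → ∫ x, |φ x| ^ r ∂μ ≤ B) :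
    ∃ m, Base μ S q m κ ∧ Sharp μ S q m := by
  have q0 : 0 < q := by linarith
  obtain ⟨m, hm⟩ := exists_isLam (μ := μ) q0 ho hne
  obtain ⟨r, hr, hB⟩ := sob
  obtain ⟨B, hB⟩ := hB 1
  obtain ⟨s, s0, hs⟩ : ∃ s : ℝ, 0 < s ∧ s ^ q = 1 / κ ^ 2 + |B| + 1 :=
    ⟨_, by positivity, rpow_inv_rpow (by positivity) q0.ne'⟩
  have key : Good μ S q (s ^ 2)⁻¹ := good_of_normalized q0 fun a ha h1 => by
    rw [inv_le_iff_one_le_mul₀' (by positivity), ← dir_smul ha.differentiable]
    by_contra H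
    have t := ha.smul s
    have b1 := hB _ t (not_le.1 H).le
    have b2 := poin _ t
    rw [← le_div_iff₀' (by positivity)] at b2
    have b3 := div_le_div_of_nonneg_right (not_le.1 H).le (sq_nonneg κ)
    have b4 := integral_mono (test_pow (μ := μ) q0 t) ((test_sq t).add (test_pow (q0.trans hr) t))
      fun x => by
        simpa only [one_rpow, one_mul, rpow_two, sq_abs, Pi.add_apply] using
          rpow_le_add (a := 2) one_pos (abs_nonneg (s * a x)) zero_le_two hq.le hr.le
    rw [integral_add' (test_sq t) (test_pow (q0.trans hr) t), ← lqNorm_rpow q0, lqNorm_smul q0, h1,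
      mul_one, abs_of_pos s0, hs] at b4
    linarith [le_abs_self B]
  refine ⟨m, ⟨hN, hq, hq', hm.1, lt_of_lt_of_le (by positivity) (hm.le key), κ0, poin⟩,
    fun γ hγ => ?_⟩
  obtain ⟨a, h1, h2, h3⟩ := hm.2 γ hγ
  exact ⟨a, h1, h2, by linarith⟩

theorem int_on (hφ : IsTest S φ) {g : E → ℝ} (hg : ContinuousOn g S) :
    Integrable (fun x => φ x * g x) μ :=
  (integrableOn_iff_integrable_of_support_subset
    ((Function.support_mul_subset_left φ g).trans (subset_tsupport φ))).1
    ((hφ.continuous.continuousOn.mul (hg.mono hφ.2.2)).integrableOn_compact hφ.2.1.isCompact)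

end Any

section Coord

variable {m : ℕ} {S : Set (EN m)} {φ : EN m → ℝ}

theorem line_prod (F : Fin m → ℝ → ℝ) (s : Finset (Fin m)) {i : Fin m} (hi : i ∉ s) {x : EN m}
    {g : ℝ → ℝ} {g' : ℝ} (hg : HasDerivAt g g' (x i)) :
    HasLineDerivAt ℝ (fun x : EN m => g (x i) * ∏ j ∈ s, F j (x j)) (g' * ∏ j ∈ s, F j (x j)) x
      (EuclideanSpace.single i 1) := by
  have h1 : HasDerivAt (fun t => g (x i + t)) g' 0 := HasDerivAt.comp_const_add _ _ (by simpa)
  refine (h1.mul_const _).congr_of_eventuallyEq (Eventually.of_forall fun t => ?_)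
  dsimp only
  congr 1
  · simp
  · refine Finset.prod_congr rfl fun j hj => ?_
    have : j ≠ i := fun h => hi (h ▸ hj)
    simp [this]

theorem line_grad (hφ : Differentiable ℝ φ) (x : EN m) (i : Fin m) :
    HasLineDerivAt ℝ φ (gradient φ x i) x (EuclideanSpace.single i 1) :=
  grad_coordN φ x i ▸ (hφ x).hasFDerivAt.hasLineDerivAt _

theorem grad_prod {F F' : Fin m → ℝ → ℝ} (hF : ∀ i t, HasDerivAt (F i) (F' i t) t) (x : EN m)
    (i : Fin m) : gradient (fun x : EN m => ∏ j, F j (x j)) x i =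
      F' i (x i) * ∏ j ∈ Finset.univ.erase i, F j (x j) := by
  have key : ∀ i, Differentiable ℝ fun x : EN m => F i (x i) := fun i => by
    have da : Differentiable ℝ (F i) := fun x => (hF i x).differentiableAt
    fun_prop
  have h1 := line_grad (φ := fun x : EN m => ∏ j, F j (x j))
    (fun x => (HasFDerivAt.finsetProd fun i _ => (key i x).hasFDerivAt).differentiableAt) x i
  have h2 := line_prod F _ (Finset.notMem_erase i Finset.univ) (hF i (x i))
  refine h1.unique (h2.congr_of_eventuallyEq (Eventually.of_forall fun y => ?_))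
  exact (Finset.mul_prod_erase _ (fun j => F j (y j)) (Finset.mem_univ i)).symm

theorem int_coord (hφ : IsTest S φ) (i : Fin m) {g : EN m → ℝ} (hg : Continuous g) :
    Integrable (fun x => gradient φ x i * g x) := by
  have := hφ.continuous_gradient
  exact int_cc (by fun_prop)
    (hφ.hasCompactSupport_gradient.comp_left (g := fun v : EN m => v i) rfl) hg

theorem harm_prod {F F' : Fin m → ℝ → ℝ} {l : Fin m → ℝ}
    (hF : ∀ i t, HasDerivAt (F i) (F' i t) t) (hF' : ∀ i t, HasDerivAt (F' i) (l i * F i t) t)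
    (hl : ∑ i, l i = 0) (hφ : IsTest S φ) :
    ∫ x, inner ℝ (gradient φ x) (gradient (fun x : EN m => ∏ j, F j (x j)) x) = 0 := by
  have c1 : ∀ i, Continuous (F i) := fun i =>
    continuous_iff_continuousAt.2 fun t => (hF i t).continuousAt
  have c2 : ∀ i, Continuous (F' i) := fun i =>
    continuous_iff_continuousAt.2 fun t => (hF' i t).continuousAt
  have c3 : ∀ s : Finset (Fin m), Continuous fun x : EN m => ∏ j ∈ s, F j (x j) := fun s =>
    continuous_finsetProd _ fun j _ => (c1 j).comp (by fun_prop)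
  have c4 : ∀ i, Continuous fun x : EN m => F' i (x i) * ∏ j ∈ Finset.univ.erase i, F j (x j) :=
    fun i => ((c2 i).comp (by fun_prop)).mul (c3 _)
  have key : ∀ i, ∫ x, gradient φ x i * (F' i (x i) * ∏ j ∈ Finset.univ.erase i, F j (x j)) =
      -l i * ∫ x, φ x * ∏ j, F j (x j) := fun i => by
    have := integral_bilinear_hasLineDerivAt_right_eq_neg_left_of_integrable (μ := volume)
      (B := ContinuousLinearMap.mul ℝ ℝ) (int_coord hφ i (c4 i))
      (int_cc hφ.continuous hφ.2.1 (((continuous_const.mul ((c1 i).comp (by fun_prop))).mul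
        (c3 (Finset.univ.erase i))))) (int_cc hφ.continuous hφ.2.1 (c4 i))
      (fun x _ => line_grad hφ.differentiable x i)
      fun x _ => line_prod F _ (Finset.notMem_erase i Finset.univ) (hF' i (x i))
    simp only [ContinuousLinearMap.mul_apply'] at this
    rw [neg_mul, ← integral_const_mul, eq_neg_iff_add_eq_zero, add_comm, ← eq_neg_iff_add_eq_zero,
      ← this]
    refine integral_congr_ae (Eventually.of_forall fun x => ?_)
    simp only [← Finset.mul_prod_erase _ (fun j => F j (x j)) (Finset.mem_univ i), Pi.mul_apply,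
      Function.comp]
    ring
  simp only [PiLp.inner_apply, grad_prod hF, RCLike.inner_apply, conj_trivial]
  rw [integral_finsetSum _ fun i _ => by simpa only [mul_comm] using int_coord hφ i (c4 i)]
  simp only [mul_comm _ (gradient φ _ _), key]
  rw [← Finset.sum_mul, Finset.sum_neg_distrib, hl, neg_zero, zero_mul]

theorem cos_ne {t : ℝ} (h : |t| < π / 2) : 0 < cos t := cos_pos_of_mem_Ioo (abs_lt.1 h)

theorem tan_on {i : Fin m} (hS : ∀ x ∈ S, |x i| < π / 2) :
    ContinuousOn (fun x : EN m => tan (x i)) S := fun x hx =>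
  (ContinuousAt.comp (g := tan) (f := fun x : EN m => x i)
    (continuousAt_tan.2 (cos_ne (hS x hx)).ne') (by fun_prop)).continuousWithinAt

theorem picone {i : Fin m} (hS : ∀ x ∈ S, |x i| < π / 2) (hφ : IsTest S φ) (c : ℝ) :
    c * (∫ x, φ x ^ 2) + (c - c ^ 2) * (∫ x, φ x ^ 2 * tan (x i) ^ 2) ≤
      ∫ x, gradient φ x i ^ 2 := by
  have t2 : IsTest S fun x => φ x ^ 2 := by simpa only [sq] using hφ.mul_left hφ.1
  have cg := hφ.continuous_gradient
  have c1 := tan_on hS
  have i1 := test_sq (μ := volume) hφ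
  have i2 : Integrable fun x => φ x ^ 2 * tan (x i) ^ 2 := int_on t2 (c1.pow 2)
  have i3 : Integrable fun x => φ x * (2 * gradient φ x i * tan (x i)) :=
    int_on hφ ((Continuous.continuousOn (by fun_prop)).mul c1)
  have i4 : Integrable fun x => gradient φ x i ^ 2 := by
    simpa only [sq] using int_coord hφ i (g := fun x => gradient φ x i) (by fun_prop)
  have key := integral_bilinear_hasLineDerivAt_right_eq_neg_left_of_integrable (μ := volume)
    (B := ContinuousLinearMap.mul ℝ ℝ) (f := fun x => φ x ^ 2)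
    (f' := fun x => φ x * (2 * gradient φ x i)) (g := fun x => tan (x i))
    (g' := fun x => 1 + tan (x i) ^ 2) (v := EuclideanSpace.single i 1)
    (by simpa only [ContinuousLinearMap.mul_apply', mul_assoc] using i3)
    (int_on t2 (continuousOn_const.add (c1.pow 2))) (int_on t2 c1)
    (fun x _ => by
      have := HasDerivAt.pow (line_grad hφ.differentiable x i) 2
      refine this.congr_deriv ?_
      simp only [zero_smul, add_zero]
      push_cast
      ring)
    fun x hx => by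
      have h0 := (cos_ne (hS x (t2.2.2 hx))).ne'
      have := line_prod (fun _ _ => 1) ∅ (Finset.notMem_empty i) (hasDerivAt_tan h0)
      simpa only [Finset.prod_empty, mul_one, ← inv_one_add_tan_sq h0, one_div, inv_inv] using this
  simp only [ContinuousLinearMap.mul_apply', mul_add, mul_one, mul_assoc (φ _)] at key
  rw [integral_add i1 i2] at key
  have h2 := integral_mono ((i3.const_mul (-c)).sub (i2.const_mul (c ^ 2))) i4 fun x => by
    dsimp only [Pi.sub_apply]
    linarith [sq_nonneg (gradient φ x i + c * tan (x i) * φ x)]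
  rw [integral_sub' (i3.const_mul _) (i2.const_mul _), integral_const_mul, integral_const_mul] at h2
  linear_combination h2 + c * key

end Coord

variable {n : ℕ} {φ : EN (n + 2) → ℝ}

/-- The slab. -/
def slab (n : ℕ) : Set (EN (n + 2)) := {x | ∀ i : Fin n, |x i.succ.succ| < π / 2}

/-- The ground state of the cross-section. -/
noncomputable def gs (x : EN (n + 2)) : ℝ := ∏ i : Fin n, cos (x i.succ.succ)

/-- The Hardy weight. -/
noncomputable def hw (x : EN (n + 2)) : ℝ := ∑ i : Fin n, tan (x i.succ.succ) ^ 2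

/-- A coordinate vector. -/
noncomputable def ec (i : Fin (n + 2)) : EN (n + 2) := EuclideanSpace.single i 1

theorem ec_in (i : Fin (n + 2)) (x : EN (n + 2)) : inner ℝ (ec i) x = x i := by
  simp [ec, EuclideanSpace.inner_single_left]

theorem isOpen_slab : IsOpen (slab n) := by
  have : slab n = ⋂ i : Fin n, {x : EN (n + 2) | |x i.succ.succ| < π / 2} := by
    ext x; simp [slab]
  rw [this]
  exact isOpen_iInter_of_finite fun i => isOpen_lt (by fun_prop) continuous_const

theorem sum_dir (hφ : IsTest (slab n) φ) :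
    ∑ i : Fin n, ∫ x, gradient φ x i.succ.succ ^ 2 ≤ dir volume φ := by
  have cg := hφ.continuous_gradient
  have i4 : ∀ i, Integrable fun x => gradient φ x i ^ 2 := fun i => by
    simpa only [sq] using int_coord hφ i (g := fun x => gradient φ x i) (by fun_prop)
  rw [← integral_finsetSum _ fun (i : Fin n) _ => i4 i.succ.succ]
  refine integral_mono (integrable_finsetSum _ fun i _ => i4 _) hφ.integrable_sq_gradient
    fun x => ?_
  dsimp only
  rw [EuclideanSpace.real_norm_sq_eq, Fin.sum_univ_succ, Fin.sum_univ_succ]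
  linarith [sq_nonneg (gradient φ x 0), sq_nonneg (gradient φ x (Fin.succ 0))]

theorem slab_poin (hφ : IsTest (slab n) φ) : √n ^ 2 * ∫ x, φ x ^ 2 ≤ dir volume φ := by
  refine le_trans (le_trans (le_of_eq ?_) (Finset.sum_le_sum fun i _ =>
    picone (S := slab n) (fun x hx => hx i) hφ 1)) (sum_dir hφ)
  simp

theorem slab_hardy (hφ : IsTest (slab n) φ) :
    Integrable (fun x => φ x ^ 2 * hw x) ∧ ∫ x, φ x ^ 2 * hw x ≤ 4 * dir volume φ := by
  have t2 : IsTest (slab n) fun x => φ x ^ 2 := by simpa only [sq] using hφ.mul_left hφ.1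
  have i2 : ∀ i : Fin n, Integrable fun x => φ x ^ 2 * tan (x i.succ.succ) ^ 2 := fun i =>
    int_on t2 ((tan_on (S := slab n) fun x hx => hx i).pow 2)
  simp only [hw, Finset.mul_sum]
  refine ⟨integrable_finsetSum _ fun i _ => i2 i, ?_⟩
  rw [integral_finsetSum _ fun i _ => i2 i]
  refine le_trans ?_ (mul_le_mul_of_nonneg_left (sum_dir hφ) (by norm_num))
  rw [Finset.mul_sum]
  refine Finset.sum_le_sum fun i _ => ?_
  have I0 : 0 ≤ ∫ x, φ x ^ 2 := integral_nonneg fun x => sq_nonneg _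
  linarith [picone (S := slab n) (fun x hx => hx i) hφ (1 / 2)]

theorem slab_harm {f f' g g' : ℝ → ℝ} {a b : ℝ} (h1 : ∀ t, HasDerivAt f (f' t) t)
    (h2 : ∀ t, HasDerivAt f' (a * f t) t) (h3 : ∀ t, HasDerivAt g (g' t) t)
    (h4 : ∀ t, HasDerivAt g' (b * g t) t) (h : a + b = n) (hφ : IsTest (slab n) φ) :
    ∫ x, inner ℝ (gradient φ x) (gradient (fun x => gs x * (f (x 0) * g (x 1))) x) = 0 := by
  have := harm_prod (F := Matrix.vecCons f (Matrix.vecCons g fun _ : Fin n => cos))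
    (F' := Matrix.vecCons f' (Matrix.vecCons g' fun _ t => -sin t))
    (l := Matrix.vecCons a (Matrix.vecCons b fun _ => -1))
    (Fin.forall_fin_succ.2 ⟨h1, Fin.forall_fin_succ.2 ⟨h3, fun _ => hasDerivAt_cos⟩⟩)
    (Fin.forall_fin_succ.2 ⟨h2, Fin.forall_fin_succ.2 ⟨h4, fun _ t => by
      simpa using (hasDerivAt_sin t).fun_neg⟩⟩)
    (by simp [Fin.sum_univ_succ, ← h]) hφ
  refine Eq.trans ?_ this
  congr 1
  funext x
  congr 2
  funext x
  simp only [Fin.prod_univ_succ, Matrix.cons_val_zero, Matrix.cons_val_succ, gs,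
    Fin.succ_zero_eq_one]
  ring

theorem gs_grad (x : EN (n + 2)) : ‖gradient gs x‖ ≤ √n := by
  have e : gs = fun x : EN (n + 2) => ∏ j, Matrix.vecCons (fun _ => (1 : ℝ))
      (Matrix.vecCons (fun _ => (1 : ℝ)) fun _ => cos) j (x j) := by
    funext x
    simp [Fin.prod_univ_succ, gs]
  have g := grad_prod (F := Matrix.vecCons (fun _ => (1 : ℝ))
      (Matrix.vecCons (fun _ => (1 : ℝ)) fun _ : Fin n => cos))
    (F' := Matrix.vecCons (fun _ => 0) (Matrix.vecCons (fun _ => 0) fun _ t => -sin t))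
    (Fin.forall_fin_succ.2 ⟨fun t => hasDerivAt_const t _, Fin.forall_fin_succ.2
      ⟨fun t => hasDerivAt_const t _, fun _ => hasDerivAt_cos⟩⟩) x
  have b : ∀ (j : Fin (n + 2)) t, |Matrix.vecCons (fun _ => (1 : ℝ))
      (Matrix.vecCons (fun _ => (1 : ℝ)) fun _ : Fin n => cos) j t| ≤ 1 :=
    Fin.forall_fin_succ.2 ⟨fun t => by simp, Fin.forall_fin_succ.2
      ⟨fun t => by simp, fun _ => abs_cos_le_one⟩⟩
  refine le_sqrt_of_sq_le ?_
  rw [e, EuclideanSpace.real_norm_sq_eq, Fin.sum_univ_succ, Fin.sum_univ_succ, g, g]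
  simp only [Matrix.cons_val_zero, Matrix.cons_val_succ, zero_mul, ne_eq, OfNat.ofNat_ne_zero,
    not_false_eq_true, zero_pow, zero_add]
  refine (Finset.sum_le_card_nsmul _ _ 1 fun i _ => ?_).trans (by simp)
  rw [g, sq_le_one_iff_abs_le_one, abs_mul, Finset.abs_prod]
  exact mul_le_one₀ (by simpa using abs_sin_le_one _)
    (Finset.prod_nonneg fun _ _ => abs_nonneg _)
    (Finset.prod_le_one (fun _ _ => abs_nonneg _) fun j _ => b j _)

theorem hw_le {x : EN (n + 2)} {T₀ : ℝ} (h : hw x ≤ T₀) (i : Fin n) :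
    tan (x i.succ.succ) ^ 2 ≤ |T₀| :=
  (Finset.single_le_sum (f := fun i : Fin n => tan (x i.succ.succ) ^ 2) (fun _ _ => sq_nonneg _)
    (Finset.mem_univ i)).trans (h.trans (le_abs_self _))

theorem slab_thin (hn : 1 ≤ n) {q : ℝ} (hq : n * q < 2 * (n + 2)) :
    Thin volume (slab n) q √n (ec 0) (ec 1) gs hw := by
  have n0 : (0 : ℝ) < n := by exact_mod_cast hn
  have dc : ∀ c t, HasDerivAt (fun t => cosh (√n * (t - c))) (sinh (√n * (t - c)) * √n) t :=
    fun c t => by simpa using (((hasDerivAt_id t).sub_const c).const_mul √n).cosh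
  have ds : ∀ c t, HasDerivAt (fun t => sinh (√n * (t - c)) * √n)
      (n * cosh (√n * (t - c))) t := fun c t => by
    have := ((((hasDerivAt_id t).sub_const c).const_mul √n).sinh).mul_const √n
    refine this.congr_deriv ?_
    simp only [id, mul_one]
    rw [mul_assoc, mul_self_sqrt n0.le, mul_comm]
  have d0 : ∀ t : ℝ, HasDerivAt (fun _ : ℝ => (0 : ℝ)) (0 * 1) t := fun t => by
    simpa using hasDerivAt_const t (0 : ℝ)
  refine ⟨isOpen_slab, ⟨2 * (n + 2) / n, by rwa [lt_div_iff₀' n0], gns (by positivity) (by simp) ?_⟩,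
    fun x => Finset.sum_nonneg fun _ _ => sq_nonneg _, fun φ => slab_hardy, by unfold gs; fun_prop,
    fun x hx => Finset.prod_pos fun i _ => cos_ne (hx i), fun x => ?_, fun x hx h i => ?_, gs_grad,
    fun T₀ => ⟨∏ _i : Fin n, (1 + |T₀|)⁻¹, by positivity, fun x hx hT => ?_⟩, ?_,
    ⟨√(n * 4), by positivity, fun x hx => ?_⟩, fun T₀ R => ?_⟩
  · simp only [finrank_euclideanSpace, Fintype.card_fin]
    push_cast
    field_simp
    ring
  · rw [gs, Finset.abs_prod]
    exact Finset.prod_le_one (fun _ _ => abs_nonneg _) fun j _ => abs_cos_le_one _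
  · have hc : IsClosed {x : EN (n + 2) | |x i.succ.succ| ≤ π / 2} :=
      isClosed_le (by fun_prop) continuous_const
    refine lt_of_le_of_ne (closure_minimal (fun y hy => (hy i).le) hc hx) fun H =>
      Finset.prod_ne_zero_iff.1 h.ne' i (Finset.mem_univ i) ?_
    rw [← cos_abs, H, cos_pi_div_two]
  · refine Finset.prod_le_prod (fun _ _ => by positivity) fun i _ => ?_
    have c0 := cos_ne (hx i)
    refine (inv_anti₀ (by positivity) (add_le_add le_rfl (hw_le hT i))).trans ?_
    rw [inv_one_add_tan_sq c0.ne', sq]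
    exact mul_le_of_le_one_left c0.le (cos_le_one _)
  · rintro e (rfl | rfl) c φ hφ
    · simpa only [ec_in, mul_one] using slab_harm (dc c) (ds c) (g := fun _ => 1)
        (fun t => hasDerivAt_const t _) d0 (add_zero _) hφ
    · simpa only [ec_in, one_mul] using slab_harm (f := fun _ => 1)
        (fun t => hasDerivAt_const t _) d0 (dc c) (ds c) (zero_add _) hφ
  · rw [ec_in, ec_in]
    refine (abs_le_of_sq_le_sq' ?_ (by positivity)).2
    have b1 : ∑ i : Fin n, x i.succ.succ ^ 2 ≤ n * 4 := by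
      refine (Finset.sum_le_card_nsmul _ _ 4 fun i _ => ?_).trans (by simp)
      have := (hx i).trans (show π / 2 < 2 by linarith [pi_lt_four])
      nlinarith [abs_lt.1 this]
    have b2 := sq_sqrt (show (0 : ℝ) ≤ n * 4 by positivity)
    rw [EuclideanSpace.real_norm_sq_eq, Fin.sum_univ_succ, Fin.sum_univ_succ, Fin.succ_zero_eq_one,
      ← sq_abs (x 0), ← sq_abs (x 1)]
    have p1 : 0 ≤ √(n * 4) * |x 0| := by positivity
    have p2 : 0 ≤ √(n * 4) * |x 1| := by positivity
    have p3 : 0 ≤ |x 0| * |x 1| := by positivity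
    linarith
  · let b : Fin (n + 2) → ℝ := Matrix.vecCons R (Matrix.vecCons R fun _ => arctan (1 + |T₀|))
    refine ⟨{x | ∀ i, |x i| ≤ b i}, ((isCompact_univ_pi fun i => isCompact_Icc (a := -b i)
      (b := b i)).image (PiLp.continuous_toLp 2 _)).of_isClosed_subset ?_
        fun x hx => ⟨x.ofLp, fun i _ => abs_le.1 (hx i), rfl⟩, fun x hx y hy s t hs ht h i => ?_,
      fun x hx i => (hx i.succ.succ).trans_lt (arctan_lt_pi_div_two _), fun x hx h0 h1 hT => ?_⟩
    · rw [ofPred_forall]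
      exact isClosed_iInter fun i => isClosed_le (by fun_prop) continuous_const
    · simp only [PiLp.add_apply, PiLp.smul_apply, smul_eq_mul]
      refine (abs_add_le _ _).trans ?_
      rw [abs_mul, abs_mul, abs_of_nonneg hs, abs_of_nonneg ht]
      calc _ ≤ s * b i + t * b i := by gcongr; exacts [hx i, hy i]
        _ = b i := by rw [← add_mul, h, one_mul]
    · rw [ec_in] at h0 h1
      refine Fin.forall_fin_succ.2 ⟨h0, Fin.forall_fin_succ.2 ⟨h1, fun i => ?_⟩⟩
      have k1 := hw_le hT i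
      have k2 := arctan_tan (abs_lt.1 (hx i)).1 (abs_lt.1 (hx i)).2
      change |x i.succ.succ| ≤ arctan (1 + |T₀|)
      rw [abs_le, ← arctan_neg, ← k2]
      constructor <;> refine arctan_strictMono.monotone ?_
      · nlinarith [sq_nonneg (tan (x i.succ.succ) + 1), abs_nonneg T₀]
      · nlinarith [sq_nonneg (tan (x i.succ.succ) - 1), abs_nonneg T₀]

theorem slab_frame : Frame (slab n) (ec 0) (ec 1) := by
  refine ⟨by simp [ec], by simp [ec], by rw [ec_in]; simp [ec], fun x s t hx i => ?_⟩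
  simpa [ec, Fin.succ_ne_zero, Fin.succ_succ_ne_one] using hx i

theorem slab_refl (n : ℕ) {s t : ℝ} (hs : s = 1 ∨ s = -1) (ht : t = 1 ∨ t = -1) :
    ∃ σ, Refl volume (slab n) (ec 0) (ec 1) σ s t := by
  have key : ∀ s : ℝ, s = 1 ∨ s = -1 → ∃ e : ℝ ≃ₗᵢ[ℝ] ℝ, ∀ x, e x = s * x := by
    rintro s (rfl | rfl)
    · exact ⟨LinearIsometryEquiv.refl ℝ ℝ, fun x => by simp⟩
    · exact ⟨LinearIsometryEquiv.neg ℝ, fun x => by simp⟩
  have sg : ∀ i, eig s t i = 1 ∨ eig s t i = -1
    | 0 => hs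
    | 1 => ht
    | _ + 2 => Or.inl rfl
  choose e he using fun i : Fin (n + 2) => key _ (sg i)
  let σ : EN (n + 2) ≃ₗᵢ[ℝ] EN (n + 2) := LinearIsometryEquiv.piLpCongrRight 2 e
  have a : ∀ x (i : Fin (n + 2)), σ x i = eig s t i * x i := fun x i => he i (x i)
  have b : ∀ x (i : Fin n), σ x i.succ.succ = x i.succ.succ := fun x i => by
    simp only [a, Fin.val_succ, eig, one_mul]
  refine ⟨σ, ⟨σ.measurePreserving, fun x => ?_, fun x hx i => b x i ▸ hx i⟩, fun x => ?_,
    fun x => ?_, fun x h0 h1 => ?_⟩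
  · ext i
    rw [a, a]
    rcases sg i with h | h <;> simp [h]
  · rw [ec_in, ec_in, a]; rfl
  · rw [ec_in, ec_in, a]; rfl
  · simp only [ec_in] at h0 h1
    exact PiLp.ext (Fin.forall_fin_succ.2 ⟨h0, Fin.forall_fin_succ.2 ⟨h1, b x⟩⟩)

theorem exists_long_box (N : ℕ) (hN : 3 ≤ N) (q : ℝ) (hq : 2 < q)
    (hq' : ((N : ℝ) - 2) * q < 2 * N) :
    ∃ a : Fin N → ℝ, (∀ i, 0 < a i) ∧ ∃ lam ∈ spec volume {x : EN N | ∀ i, |x i| < a i} q,
      lam ∉ specLS volume {x : EN N | ∀ i, |x i| < a i} q := by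
  obtain ⟨n, rfl⟩ : ∃ n, N = n + 2 := ⟨N - 2, by omega⟩
  have hn : 1 ≤ n := by omega
  have hT := slab_thin hn (q := q) (by push_cast at hq'; linarith)
  obtain ⟨m, h, hs⟩ := exists_base (μ := volume) (S := slab n) (κ := √n) (by simp) hq
    (by simpa using hq') (by positivity) (fun _ => slab_poin) isOpen_slab
    ⟨0, fun i => by simpa using pi_pos⟩ hT.sob
  obtain ⟨σ₁, r₁⟩ := slab_refl n (s := -1) (t := 1) (Or.inr rfl) (Or.inl rfl)
  obtain ⟨σ₂, r₂⟩ := slab_refl n (s := 1) (t := -1) (Or.inl rfl) (Or.inr rfl)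
  obtain ⟨σ₃, r₃⟩ := slab_refl n (s := -1) (t := -1) (Or.inr rfl) (Or.inr rfl)
  obtain ⟨A, B, A0, B0, H⟩ := h.long slab_frame hT hs r₁ r₂ r₃
  refine ⟨Matrix.vecCons A (Matrix.vecCons B fun _ => π / 2),
    Fin.forall_fin_succ.2 ⟨A0, Fin.forall_fin_succ.2 ⟨B0, fun _ => half_pos pi_pos⟩⟩,
    H _ fun x => ?_⟩
  rw [mem_ofPred_eq, Fin.forall_fin_succ, Fin.forall_fin_succ, ec_in, ec_in]
  exact ⟨fun h => ⟨h.2.2, h.1, h.2.1⟩, fun h => ⟨h.2.1, h.2.2, h.1⟩⟩

end Pool.Agent.Lib.MP_eb4995_an.Sl
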